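import Mathlib

/-!
Jack symmetric functions in the power sum basis and the Goulden-Jackson coefficients.
-/

set_option autoImplicit false

open MvPolynomial

namespace Pool.Agent.Lib.MP_fcdd89_co

/-- The `i`-th largest part (counted from `0`), and `0` beyond the last part. -/
def row {n : ℕ} (l : n.Partition) (i : ℕ) : ℕ := (l.parts.sort (· ≥ ·)).getD i 0

/-- The length of the `j`-th column of the Young diagram (counted from `0`). -/
def col {n : ℕ} (l : n.Partition) (j : ℕ) : ℕ := (l.parts.filter (j < ·)).card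

/-- Arm length of the box in row `i` and column `j`. -/
def arm {n : ℕ} (l : n.Partition) (i j : ℕ) : ℕ := row l i - j - 1

/-- Leg length of the box in row `i` and column `j`. -/
def leg {n : ℕ} (l : n.Partition) (i j : ℕ) : ℕ := col l j - i - 1

/-- The first hook polynomial. -/
noncomputable def hook (α : ℝ) {n : ℕ} (l : n.Partition) : ℝ :=
  ∏ i ∈ Finset.range l.parts.card, ∏ j ∈ Finset.range (row l i),
    (α * arm l i j + leg l i j + 1)

/-- The second hook polynomial. -/
noncomputable def hook' (α : ℝ) {n : ℕ} (l : n.Partition) : ℝ :=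
  ∏ i ∈ Finset.range l.parts.card, ∏ j ∈ Finset.range (row l i),
    (α * arm l i j + leg l i j + α)

/-- Dominance order: `k` is dominated by `l`. -/
def Dom {n : ℕ} (k l : n.Partition) : Prop :=
  ∀ m, ∑ i ∈ Finset.range m, row k i ≤ ∑ i ∈ Finset.range m, row l i

/-- The number `z_μ`. -/
def zee {n : ℕ} (m : n.Partition) : ℕ :=
  ∏ k ∈ m.parts.toFinset, k ^ m.parts.count k * (m.parts.count k).factorial

/-- The symmetric polynomial in `n` variables with power sum coefficients `c`. -/
noncomputable def symm {n : ℕ} (c : n.Partition → ℝ) : MvPolynomial (Fin n) ℝ :=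
  ∑ m : n.Partition, c m • (m.parts.map (psum (Fin n) ℝ)).prod

/-- The exponent vector of the monomial `x^k`. -/
noncomputable def expo {n : ℕ} (k : n.Partition) : Fin n →₀ ℕ :=
  Finsupp.equivFunOnFinite.symm fun i => row k i

/-- `θ n l m` is the coefficient of `p_m` in the Jack symmetric function `J_l` with parameter `α`:
orthogonality, triangularity in the monomial basis, and the coefficient `n!` of `x_1 ⋯ x_n`. -/
structure IsJack (α : ℝ) (θ : ∀ n : ℕ, n.Partition → n.Partition → ℝ) : Prop where
  orth : ∀ (n : ℕ) (l k : n.Partition), l ≠ k →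
    ∑ m : n.Partition, θ n l m * θ n k m * (zee m * α ^ m.parts.card) = 0
  tri : ∀ (n : ℕ) (l k : n.Partition), coeff (expo k) (symm (θ n l)) ≠ 0 → Dom k l
  norm : ∀ (n : ℕ) (l : n.Partition),
    coeff (Finsupp.equivFunOnFinite.symm fun _ => 1) (symm (θ n l)) = n.factorial

/-- Polynomials in the power sums of three alphabets; `X (a, k)` is `p_k` of alphabet `a`. -/
abbrev Tri : Type := MvPolynomial (Fin 3 × ℕ) ℝ

/-- The power sum product `p_m` in the alphabet `a`. -/
noncomputable def pw (a : Fin 3) {n : ℕ} (m : n.Partition) : Tri :=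
  (m.parts.map fun k => X (a, k)).prod

/-- The function with power sum coefficients `c` in the alphabet `a`. -/
noncomputable def fn (a : Fin 3) {n : ℕ} (c : n.Partition → ℝ) : Tri :=
  ∑ m : n.Partition, c m • pw a m

/-- The series `∑_λ J_λ(x) J_λ(y) J_λ(z) t^|λ| / (hook(λ) hook'(λ))`. -/
noncomputable def series (α : ℝ) (θ : ∀ n : ℕ, n.Partition → n.Partition → ℝ) :
    PowerSeries Tri :=
  PowerSeries.mk fun n => ∑ l : n.Partition,
    (hook α l * hook' α l)⁻¹ • (fn 0 (θ n l) * fn 1 (θ n l) * fn 2 (θ n l))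

/-- The exponent of the monomial `p_μ(x) p_ν(y) p_τ(z)`. -/
noncomputable def expo3 {n : ℕ} (μ ν τ : n.Partition) : Fin 3 × ℕ →₀ ℕ :=
  Multiset.toFinsupp (μ.parts.map (fun k => ((0 : Fin 3), k)) +
    ν.parts.map (fun k => ((1 : Fin 3), k)) + τ.parts.map (fun k => ((2 : Fin 3), k)))

/-- The coefficient `h^τ_{μ,ν}(α - 1)`: `α n` times the coefficient of
`t^n p_μ(x) p_ν(y) p_τ(z)` in the logarithm of the series. -/
noncomputable def hcoef (α : ℝ) (θ : ∀ n : ℕ, n.Partition → n.Partition → ℝ) {n : ℕ}
    (μ ν τ : n.Partition) : ℝ :=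
  α * n * coeff (expo3 μ ν τ) (PowerSeries.coeff n (PowerSeries.logOf (series α θ)))

end Pool.Agent.Lib.MP_fcdd89_co
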