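import Pool.Agent.Lib.MP_fcdd89_co.Hook
import Pool.Agent.Lib.MP_fcdd89_co.Defs

/-!
Translation between partitions and multiplicity vectors.
-/

set_option autoImplicit false

open Finset MvPolynomial
open Finsupp (single weight)

namespace Pool.Agent.Lib.MP_fcdd89_co

variable {n N : ℕ} {α : ℝ}

/-- The multiplicity vector of a partition. -/
noncomputable def toF (l : n.Partition) : Ix := Multiset.toFinsupp l.parts

theorem weight_ms (φ : ℕ → ℕ) (s : Multiset ℕ) :
    weight φ (Multiset.toFinsupp s) = (s.map φ).sum := by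
  induction s using Multiset.induction_on with
  | empty => simp
  | cons a s ih =>
    rw [← Multiset.singleton_add, add_comm, Multiset.toFinsupp_add, Multiset.toFinsupp_singleton,
      weight_succ, ih]
    simp [add_comm]

theorem prod_ms {A : Type} [CommRing A] [Algebra ℝ A] (g : ℕ → A) (s : Multiset ℕ) :
    (s.map g).prod = aeval g (monomial (Multiset.toFinsupp s) (1 : ℝ)) := by
  induction s using Multiset.induction_on with
  | empty => simp
  | cons a s ih =>
    rw [Multiset.map_cons, Multiset.prod_cons, ih, ← Multiset.singleton_add, add_comm,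
      Multiset.toFinsupp_add, Multiset.toFinsupp_singleton, mon_succ, map_mul, aeval_X, mul_comm]

theorem toF_zero (l : n.Partition) : toF l 0 = 0 :=
  Multiset.count_eq_zero.2 fun h => (l.parts_pos h).false

theorem sz_toF (l : n.Partition) : sz (toF l) = n := by
  rw [sz, toF, weight_ms, Multiset.map_congr (f := w0) (g := id) rfl fun k hk =>
    if_neg (l.parts_pos hk).ne']
  simpa using l.parts_sum

theorem toF_inj : Function.Injective (toF (n := n)) := fun _ _ h =>
  Nat.Partition.ext (Multiset.toFinsupp.injective h)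

theorem exists_toF {m : Ix} (h0 : m 0 = 0) (hm : sz m = n) : ∃ l : n.Partition, toF l = m := by
  obtain ⟨s, rfl⟩ := Multiset.toFinsupp.surjective m
  have p : ∀ {i}, i ∈ s → 0 < i := fun {i} hi => Nat.pos_of_ne_zero fun e =>
    Multiset.count_eq_zero.1 h0 (e ▸ hi)
  refine ⟨⟨s, p, ?_⟩, rfl⟩
  rw [sz, weight_ms, Multiset.map_congr (f := w0) (g := id) rfl fun k hk =>
    if_neg (p hk).ne'] at hm
  simpa using hm

theorem sum_toF {M : Type} [AddCommMonoid M] (F : Ix → M) :
    ∑ l : n.Partition, F (toF l) = ∑ m ∈ (Idx n).filter (· 0 = 0), F m :=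
  sum_bij (fun l _ => toF l) (fun l _ => mem_filter.2 ⟨mem_Idx.2 (sz_toF l), toF_zero l⟩)
    (fun _ _ _ _ h => toF_inj h) (fun m hm => by
      obtain ⟨l, hl⟩ := exists_toF (mem_filter.1 hm).2 (mem_Idx.1 (mem_filter.1 hm).1)
      exact ⟨l, mem_univ _, hl⟩) fun _ _ => rfl

theorem list_sum_getD {φ : ℕ → ℕ} (h : φ 0 = 0) (s : List ℕ) {L : ℕ} (hL : s.length ≤ L) :
    (s.map φ).sum = ∑ i ∈ range L, φ (s.getD i 0) := by
  induction s generalizing L with
  | nil => simp [h]
  | cons a s ih =>
    obtain ⟨L, rfl⟩ : ∃ K, L = K + 1 := ⟨L - 1, by simp at hL; omega⟩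
    rw [sum_range_succ', List.map_cons, List.sum_cons, ih (L := L) (by simpa using hL), add_comm]
    simp

theorem weight_toF {φ : ℕ → ℕ} (h : φ 0 = 0) (l : n.Partition) {L : ℕ} (hL : l.parts.card ≤ L) :
    weight φ (toF l) = ∑ i ∈ range L, φ (row l i) := by
  rw [toF, weight_ms, ← Multiset.sort_eq l.parts (· ≥ ·), Multiset.map_coe, Multiset.sum_coe,
    list_sum_getD h _ (L := L) (by rwa [Multiset.length_sort])]
  simp only [row]

theorem row_big (l : n.Partition) {i : ℕ} (h : l.parts.card ≤ i) : row l i = 0 :=
  List.getD_eq_default _ _ (by rwa [Multiset.length_sort])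

theorem row_anti (l : n.Partition) : Antitone (row l) := antitone_nat_of_succ_le fun i => by
  by_cases h : i + 1 < (l.parts.sort (· ≥ ·)).length
  · rw [row, row, List.getD_eq_getElem _ _ h, List.getD_eq_getElem _ _ (Nat.lt_of_succ_lt h)]
    exact List.pairwise_iff_getElem.1 (Multiset.pairwise_sort l.parts (· ≥ ·)) i (i + 1) _ _
      (Nat.lt_succ_self i)
  · rw [row_big l (by rw [Multiset.length_sort] at h; omega)]
    exact Nat.zero_le _

theorem card_parts_le (l : n.Partition) : l.parts.card ≤ n := by
  have := Multiset.card_nsmul_le_sum (s := l.parts) (a := 1) fun x hx => l.parts_pos hx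
  simpa [l.parts_sum] using this

theorem col_eq (l : n.Partition) (j : ℕ) : col l j = G j (toF l) := by
  rw [G, toF, weight_ms, col]
  induction l.parts using Multiset.induction_on with
  | empty => simp
  | cons a s ih => by_cases h : j < a <;> simp [h, ih, add_comm]

theorem G_zero_toF (l : n.Partition) : G 0 (toF l) = l.parts.card := by
  rw [← col_eq, col, Multiset.filter_eq_self.2 fun a ha => l.parts_pos ha]

theorem galois (l : n.Partition) (i j : ℕ) : j < row l i ↔ i < G j (toF l) := by
  rw [G, weight_toF (by simp) l le_rfl, ← card_filter]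
  constructor
  · intro h
    refine Nat.lt_of_succ_le ((card_range (i + 1)).symm.trans_le (card_le_card fun k hk => ?_))
    have a := h.trans_le (row_anti l (Nat.le_of_lt_succ (mem_range.1 hk)))
    refine mem_filter.2 ⟨mem_range.2 (not_le.1 fun b => ?_), a⟩
    rw [row_big l b] at a
    omega
  · refine fun h => not_le.1 fun a => h.not_ge ((card_le_card fun k hk => ?_).trans_eq (card_range i))
    exact mem_range.2 (not_le.1 fun b => (mem_filter.1 hk).2.not_ge ((row_anti l b).trans a))

theorem hook_eq (α : ℝ) (l : n.Partition) :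
    hook α l * hook' α l = Hk α (row l) (fun j => G j (toF l)) l.parts.card := by
  rw [hook, hook', Hk, ← prod_mul_distrib]
  refine prod_congr rfl fun i _ => ?_
  rw [← prod_mul_distrib]
  refine prod_congr rfl fun j hj => ?_
  have a := mem_range.1 hj
  have b := (galois l i j).1 a
  rw [arm, leg, col_eq, Nat.sub_sub, Nat.sub_sub, Nat.cast_sub a, Nat.cast_sub b, AA]
  push_cast
  ring

theorem dom_iff (k l : n.Partition) : Dom k l ↔ Le (toF k) (toF l) := by
  have eE : ∀ (l : n.Partition) (h m : ℕ), E h (toF l) =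
      ∑ i ∈ range m, (row l i - h) + ∑ i ∈ Ico m (m + n), (row l i - h) := fun l h m => by
    rw [sum_range_add_sum_Ico _ (Nat.le_add_right m n), E,
      weight_toF (by simp) l ((card_parts_le l).trans (Nat.le_add_left n m))]
  have lo : ∀ (l : n.Partition) (h m : ℕ), ∑ i ∈ range m, row l i ≤ m * h + E h (toF l) :=
    fun l h m => by
      have : ∑ i ∈ range m, row l i ≤ ∑ i ∈ range m, (h + (row l i - h)) :=
        sum_le_sum fun i _ => by omega
      rw [sum_add_distrib, sum_const, card_range, smul_eq_mul] at this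
      rw [eE l h m]
      omega
  have eq : ∀ (l : n.Partition) (h m : ℕ), (∀ i < m, h ≤ row l i) → row l m ≤ h →
      ∑ i ∈ range m, row l i = m * h + E h (toF l) := fun l h m a b => by
    have : ∑ i ∈ range m, row l i = ∑ i ∈ range m, (h + (row l i - h)) :=
      sum_congr rfl fun i hi => by
        have := a i (mem_range.1 hi)
        omega
    rw [sum_add_distrib, sum_const, card_range, smul_eq_mul] at this
    rw [eE l h m, sum_eq_zero (s := Ico m (m + n)) fun i hi =>
      Nat.sub_eq_zero_of_le ((row_anti l (mem_Ico.1 hi).1).trans b), this, add_zero]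
  constructor
  · intro d h
    have a := eq k h (G h (toF k)) (fun i hi => ((galois k i h).2 hi).le)
      (not_lt.1 fun b => lt_irrefl _ ((galois k _ h).1 b))
    have b := lo l h (G h (toF k))
    have c := d (G h (toF k))
    omega
  · intro d m
    have a := eq l (row l m) m (fun i hi => row_anti l hi.le) le_rfl
    have b := lo k (row l m) m
    have c := d (row l m)
    omega

/-- The polynomial in the power sums with coefficients `c`. -/
noncomputable def poly (c : n.Partition → ℝ) : R := ∑ m, c m • monomial (toF m) 1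

theorem aeval_poly {A : Type} [CommRing A] [Algebra ℝ A] (g : ℕ → A) (c : n.Partition → ℝ) :
    ∑ m, c m • (m.parts.map g).prod = aeval g (poly c) := by
  simp only [poly, map_sum, map_smul, prod_ms, toF]

theorem coeff_poly (c : n.Partition → ℝ) (m : n.Partition) : coeff (toF m) (poly c) = c m := by
  simp [poly, coeff_sum, coeff_monomial, toF_inj.eq_iff]

theorem poly_free (c : n.Partition → ℝ) : Free 0 (poly c) :=
  Free.sum _ fun m _ => (Free.monomial (toF_zero m) _).smul _

theorem poly_hom (c : n.Partition → ℝ) : poly c ∈ H n :=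
  Submodule.sum_mem _ fun m _ => Submodule.smul_mem _ _ (by simpa only [sz_toF] using H_mono (toF m))

theorem ext_free {f g : R} (hf : Free 0 f) (hg : Free 0 g) (h1 : f ∈ H n) (h2 : g ∈ H n)
    (h : ∀ m : n.Partition, coeff (toF m) f = coeff (toF m) g) : f = g := by
  ext m
  by_contra e
  have : m 0 = 0 ∧ sz m = n := by
    by_cases a : coeff m f = 0
    · rw [a] at e
      exact ⟨hg m (Ne.symm e), mem_H.1 h2 m (Ne.symm e)⟩
    · exact ⟨hf m a, mem_H.1 h1 m a⟩
  obtain ⟨l, rfl⟩ := exists_toF this.1 this.2
  exact e (h l)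

theorem poly_coeff {f : R} (hf : Free 0 f) (h : f ∈ H n) :
    (poly fun m : n.Partition => coeff (toF m) f) = f :=
  ext_free (poly_free _) hf (poly_hom _) h fun m => coeff_poly _ m

theorem Z_toF (m : n.Partition) : Z α (toF m) = zee m * α ^ m.parts.card := by
  rw [Z, zee, Finsupp.prod, ← Multiset.toFinset_sum_count_eq, ← prod_pow_eq_pow_sum, Nat.cast_prod,
    ← prod_mul_distrib]
  refine prod_congr rfl fun k hk => ?_
  rw [if_neg (m.parts_pos (Multiset.mem_toFinset.1 hk)).ne', toF, Multiset.toFinsupp_apply]
  push_cast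
  ring

theorem B_poly (c d : n.Partition → ℝ) :
    B α (poly c) (poly d) = ∑ m, c m * d m * (zee m * α ^ m.parts.card) := by
  rw [poly, map_sum, LinearMap.sum_apply]
  refine sum_congr rfl fun m _ => ?_
  rw [map_smul, LinearMap.smul_apply, B_mono, coeff_poly, Z_toF, smul_eq_mul]
  ring

theorem coeff_psum (h : n ≤ N) (e : Fin n →₀ ℕ) {m : Ix} (h0 : m 0 = 0)
    (hm : ∀ φ : ℕ → ℕ, φ 0 = 0 → weight φ m = ∑ i, φ (e i)) {f : R} (hf : Free 0 f) :
    coeff e (aeval (psum (Fin n) ℝ) f) = co N m f := by
  have inj : Function.Injective fun i : Fin n => some (Fin.castLE h i) := fun a b c =>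
    Fin.castLE_injective h (Option.some_injective _ c)
  have key : aeval (psum (Fin n) ℝ) f = killCompl inj (ev N f) := by
    refine free_ind (P := fun f => aeval (psum (Fin n) ℝ) f = killCompl inj (ev N f)) (by simp)
      (fun f g a b => by simp only [map_add, a, b]) (fun c f a => by simp only [map_smul, a])
      (fun g t ht _ a => ?_) hf
    simp only [map_mul, a, aeval_X, ev_p ht, map_sum, map_pow, psum]
    congr 1
    refine Fintype.sum_of_injective _ inj _ _ (fun v hv => ?_) fun i => ?_
    · rw [killCompl, aeval_X, dif_neg hv, zero_pow ht]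
    · rw [← rename_X (fun i : Fin n => some (Fin.castLE h i)), killCompl_rename_app]
  have a : Finsupp.mapDomain (fun i : Fin n => some (Fin.castLE h i)) e none = 0 :=
    Finsupp.mapDomain_of_notMem_range _ _ (by simp)
  rw [key, coeff_killCompl, ← co_ty]
  congr 2
  refine ty_ext (by rw [ty_zero, a, h0]) fun φ hφ => ?_
  rw [weight_ty hφ, hm φ hφ]
  refine (Fintype.sum_of_injective _ (Fin.castLE_injective h) _ _ (fun v hv => ?_) fun i => ?_).symm
  · rw [Finsupp.mapDomain_of_notMem_range _ _ fun ⟨i, hi⟩ => hv ⟨i, Option.some_injective _ hi⟩, hφ]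
  · rw [Finsupp.mapDomain_apply inj]

theorem coeff_expo (h : n ≤ N) (k : n.Partition) (c : n.Partition → ℝ) :
    coeff (expo k) (symm c) = co N (toF k) (poly c) := by
  rw [symm, aeval_poly]
  refine coeff_psum h _ (toF_zero k) (fun φ hφ => ?_) (poly_free c)
  rw [weight_toF hφ k (card_parts_le k), sum_range]
  rfl

theorem coeff_ones (c : n.Partition → ℝ) :
    coeff (Finsupp.equivFunOnFinite.symm fun _ => 1) (symm c) =
      n.factorial * coeff (single 1 n) (poly c) := by
  have key : ∀ {f : R}, Free 0 f →
      coeff (Finsupp.equivFunOnFinite.symm fun _ => 1) (aeval (psum (Fin n) ℝ) f) =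
        co n (single 1 n) f := fun hf =>
    coeff_psum le_rfl _ (by simp) (fun φ _ => by simp [Finsupp.weight_single]) hf
  have one : co n (single 1 n) (monomial (single 1 n) 1) = n.factorial := by
    rw [← key (Free.monomial (by simp) _), ← X_pow_eq_monomial, map_pow, aeval_X, psum_one,
      coeff_sum_X_pow_of_fintype, Finsupp.sum_fintype _ _ (by simp),
      Finsupp.multinomial_eq_of_support_subset (subset_univ _), Nat.multinomial]
    simp
  rw [symm, aeval_poly, key (poly_free c), co_sum, sum_eq_single (single 1 n) (fun m hm e => ?_)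
    fun a => by rw [notMem_support_iff.1 a, zero_mul], one, mul_comm]
  refine mul_eq_zero_of_right _ (not_not.1 fun a => e ?_)
  obtain ⟨b, c', d⟩ := co_tri a
  have g : G 0 (single 1 n) = n := by simp [G, Finsupp.weight_single]
  have := G_le_E 0 m
  have := sz_eq m
  have := mem_H.1 (poly_hom c) m (mem_support_iff.1 hm)
  exact (d (by omega)).symm

end Pool.Agent.Lib.MP_fcdd89_co
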