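import Pool.Agent.Lib.MP_fcdd89_co.Form

/-!
The Lax operator in finitely many variables is a Cherednik operator.
-/

set_option autoImplicit false

open MvPolynomial

namespace Pool.Agent.Lib.MP_fcdd89_co

variable {N : ℕ} {α : ℝ}

/-- Polynomials in `N + 1` variables. -/
abbrev Av (N : ℕ) : Type := MvPolynomial (Option (Fin N)) ℝ

/-- Evaluation in finitely many variables. -/
noncomputable def ev (N : ℕ) : R →ₐ[ℝ] Av N :=
  aeval fun k => if k = 0 then X none else psum (Option (Fin N)) ℝ k

theorem ev_w : ev N (X 0) = X none := by simp [ev]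

theorem ev_p {k : ℕ} (hk : k ≠ 0) : ev N (X k) = ∑ v, X v ^ k := by simp [ev, hk, psum]

theorem rename_ev_free (σ : Equiv.Perm (Option (Fin N))) {g : R} (hg : Free 0 g) :
    rename σ (ev N g) = ev N g := by
  refine free_ind (P := fun g => rename σ (ev N g) = ev N g) (by simp) ?_ ?_ ?_ hg
  · intro f g a b; rw [map_add, map_add, a, b]
  · intro c f a; rw [map_smul, map_smul, a]
  · intro g t ht _ a
    rw [map_mul, map_mul, a, ev_p ht]
    exact congrArg _ (rename_psum _ _ t σ)

theorem rename_ev (σ : Equiv.Perm (Option (Fin N))) (h : σ none = none) (f : R) :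
    rename σ (ev N f) = ev N f := by
  have : (rename σ).toLinearMap ∘ₗ (ev N).toLinearMap = (ev N).toLinearMap :=
    lin_ext_free 0 fun a p hp => by
      simp only [LinearMap.comp_apply, AlgHom.toLinearMap_apply, map_mul, map_pow, ev_w, rename_X,
        h, rename_ev_free σ hp]
  exact LinearMap.congr_fun this f

/-- The exponents that occur in a divided difference. -/
noncomputable def Tr (κ : Option (Fin N) →₀ ℕ) (j : Fin N) (i : ℕ) : Option (Fin N) →₀ ℕ :=
  (κ.erase (some j)).erase none + Finsupp.single none i +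
    Finsupp.single (some j) (κ none + κ (some j) - i)

theorem Tr_none (κ : Option (Fin N) →₀ ℕ) (j : Fin N) (i : ℕ) : Tr κ j i none = i := by simp [Tr]

theorem Tr_self (κ : Option (Fin N) →₀ ℕ) (j : Fin N) (i : ℕ) :
    Tr κ j i (some j) = κ none + κ (some j) - i := by simp [Tr]

theorem Tr_ne (κ : Option (Fin N) →₀ ℕ) {j j' : Fin N} (h : j' ≠ j) (i : ℕ) :
    Tr κ j i (some j') = κ (some j') := by simp [Tr, h]

theorem Tr_eq (κ : Option (Fin N) →₀ ℕ) (j : Fin N) : Tr κ j (κ none) = κ := by
  ext v
  cases v with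
  | none => exact Tr_none _ _ _
  | some j' =>
    by_cases h : j' = j
    · rw [h, Tr_self]; omega
    · exact Tr_ne κ h _

theorem mon_Tr (κ : Option (Fin N) →₀ ℕ) (j : Fin N) (i : ℕ) :
    (monomial (Tr κ j i) 1 : Av N) = monomial ((κ.erase (some j)).erase none) 1 *
      (X none ^ i * X (some j) ^ (κ none + κ (some j) - i)) := by
  rw [X_pow_eq_monomial, X_pow_eq_monomial, monomial_mul, monomial_mul, Tr, add_assoc, one_mul,
    one_mul]

/-- The divided difference operator `x_j (1 - s_j) / (x_0 - x_j)`. -/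
noncomputable def Dl (j : Fin N) : Av N →ₗ[ℝ] Av N :=
  (basisMonomials _ ℝ).constr ℝ fun κ =>
    ∑ i ∈ Finset.Ico (κ (some j)) (κ none), monomial (Tr κ j i) 1 -
      ∑ i ∈ Finset.Ico (κ none) (κ (some j)), monomial (Tr κ j i) 1

theorem Dl_mono (j : Fin N) (κ : Option (Fin N) →₀ ℕ) : Dl j (monomial κ 1) =
    ∑ i ∈ Finset.Ico (κ (some j)) (κ none), monomial (Tr κ j i) 1 -
      ∑ i ∈ Finset.Ico (κ none) (κ (some j)), monomial (Tr κ j i) 1 := by
  have := (basisMonomials (Option (Fin N)) ℝ).constr_basis ℝ (fun κ : Option (Fin N) →₀ ℕ =>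
    (∑ i ∈ Finset.Ico (κ (some j)) (κ none), monomial (Tr κ j i) 1 -
      ∑ i ∈ Finset.Ico (κ none) (κ (some j)), monomial (Tr κ j i) 1 : Av N)) κ
  rwa [coe_basisMonomials] at this

theorem tele {A : Type} [CommRing A] (x y : A) {s a b : ℕ} (h : b ≤ a) (ha : a ≤ s) :
    (x - y) * ∑ i ∈ Finset.Ico b a, x ^ i * y ^ (s - i) =
      y * (x ^ a * y ^ (s - a) - x ^ b * y ^ (s - b)) := by
  induction a, h using Nat.le_induction with
  | base => simp
  | succ a h ih =>
    rw [Finset.sum_Ico_succ_top h, mul_add, ih (by omega),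
      show s - a = s - (a + 1) + 1 by omega]
    ring

theorem Dl_spec (j : Fin N) (F : Av N) : (X none - X (some j)) * Dl j F =
    X (some j) * (F - rename (Equiv.swap none (some j)) F) := by
  have : LinearMap.mulLeft ℝ (X none - X (some j)) ∘ₗ Dl j = LinearMap.mulLeft ℝ (X (some j)) ∘ₗ
      (LinearMap.id - (rename (Equiv.swap none (some j))).toLinearMap) := lin_ext fun κ => by
    simp only [LinearMap.comp_apply, LinearMap.mulLeft_apply, LinearMap.sub_apply,
      LinearMap.id_apply, AlgHom.toLinearMap_apply]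
    have e : rename (Equiv.swap none (some j)) (monomial ((κ.erase (some j)).erase none) 1 : Av N)
        = monomial ((κ.erase (some j)).erase none) 1 := by
      rw [rename_monomial]
      congr 2
      ext v
      rw [Finsupp.mapDomain_equiv_apply, Equiv.symm_swap, Equiv.swap_apply_def]
      split_ifs with h1 h2
      · simp [h1]
      · simp [h2]
      · rfl
    rw [Dl_mono]
    conv_rhs => rw [← Tr_eq κ j, mon_Tr, map_mul, e, map_mul, map_pow, map_pow, rename_X, rename_X,
      Equiv.swap_apply_left, Equiv.swap_apply_right]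
    simp only [mon_Tr, ← Finset.mul_sum]
    rcases le_total (κ (some j)) (κ none) with h | h
    · rw [Finset.Ico_eq_empty_of_le h, Finset.sum_empty, mul_zero, sub_zero, mul_left_comm,
        tele _ _ h (by omega), Nat.add_sub_cancel, Nat.add_sub_cancel_left]
      ring
    · rw [Finset.Ico_eq_empty_of_le h, Finset.sum_empty, mul_zero, zero_sub, mul_neg, mul_left_comm,
        tele _ _ h (by omega), Nat.add_sub_cancel, Nat.add_sub_cancel_left]
      ring
  exact LinearMap.congr_fun this F

theorem Dl_mul (j : Fin N) (F : Av N) {F' : Av N} (h : rename (Equiv.swap none (some j)) F' = F') :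
    Dl j (F * F') = Dl j F * F' := by
  refine mul_left_cancel₀ (a := X none - X (some j))
    (sub_ne_zero.2 fun e => nomatch X_injective e) ?_
  rw [Dl_spec, ← mul_assoc, Dl_spec, map_mul, h]
  ring

theorem Dl_pow (j : Fin N) (a : ℕ) : Dl j (X none ^ a) =
    ∑ k ∈ Finset.range a, X (some j) ^ (k + 1) * X none ^ (a - 1 - k) := by
  rw [X_pow_eq_monomial, Dl_mono, ← Finset.sum_range_reflect]
  simp only [mon_Tr]
  simp only [ne_eq, reduceCtorEq, not_false_eq_true, Finsupp.single_eq_of_ne, Finsupp.single_eq_same,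
    Nat.Ico_zero_eq_range, zero_le, Finset.Ico_eq_empty_of_le, Finset.sum_empty, sub_zero, add_zero]
  refine Finset.sum_congr rfl fun i hi => ?_
  rw [Finset.mem_range] at hi
  rw [Finsupp.erase_single_ne (by simp), Finsupp.erase_single, show a - 1 - i + 1 = a - i by omega,
    show a - 1 - (a - 1 - i) = i by omega, mul_comm (X none ^ i)]
  exact one_mul _

/-- The Cherednik operator. -/
noncomputable def xi (α : ℝ) : Av N →ₗ[ℝ] Av N :=
  α • (LinearMap.mulLeft ℝ (X none) ∘ₗ (pderiv none).toLinearMap) + ∑ j, Dl j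

theorem xi_apply (F : Av N) : xi α F = α • (X none * pderiv none F) + ∑ j, Dl j F := by
  simp [xi, LinearMap.sum_apply]

theorem x_pderiv_pow (a : ℕ) :
    (X none * pderiv none (X none ^ a) : Av N) = (a : ℝ) • X none ^ a := by
  rw [X_pow_eq_monomial, X_mul_pderiv_monomial, Finsupp.single_eq_same, Nat.cast_smul_eq_nsmul]

theorem ev_LL_free {g : R} (hg : Free 0 g) :
    ev N (LL α g) = α • (X none * pderiv none (ev N g)) := by
  refine free_ind (P := fun g => ev N (LL α g) = α • (X none * pderiv none (ev N g))) ?_ ?_ ?_ ?_ hg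
  · rw [LL, Lx_free α (e := id) (Free.one _)]; simp
  · intro f g a b; simp only [map_add, a, b, mul_add, smul_add]
  · intro c f a; simp only [map_smul, a, Derivation.map_smul, mul_smul_comm, smul_comm c α]
  · intro g t ht hg a
    have e : LL α (X t) = (α * t) • X 0 ^ t := by
      rw [LL, Lx_free α (e := id) (Free.X ht)]
      exact (Dr_e α Function.injective_id t).trans (if_neg ht)
    have e2 : (X none * pderiv none (ev N (X t)) : Av N) = (t : ℝ) • X none ^ t := by
      rw [ev_p ht, Fintype.sum_option, map_add, mul_add, x_pderiv_pow, map_sum,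
        Finset.sum_eq_zero fun j _ => by rw [pderiv_pow, pderiv_X_of_ne (by simp), mul_zero],
        mul_zero, add_zero]
    rw [show LL α (g * X t) = LL α g * X t + g * LL α (X t) from
      Lx_mul_free α (e := id) g (Free.X ht), map_add, map_mul, map_mul, a, e, map_mul, pderiv_mul,
      mul_add, mul_left_comm _ (ev N g), e2, map_smul, map_pow, ev_w]
    simp only [smul_add, smul_mul_assoc, mul_smul_comm, smul_smul, mul_assoc]

theorem ev_LL (f : R) : ev N (LL α f) = xi α (ev N f) := by
  have : (ev N).toLinearMap ∘ₗ LL α = xi α ∘ₗ (ev N).toLinearMap := lin_ext_free 0 fun a p hp => by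
    simp only [LinearMap.comp_apply, AlgHom.toLinearMap_apply]
    have e1 : LL α (X 0 ^ a) = ((α - 1) * a) • X 0 ^ a + uq id a := by
      rw [LL, Lx_apply]
      exact congrArg₂ _ (Dr_w_pow α Function.injective_id a) (W_pow _ _ a)
    have e2 : ∑ j : Fin N, Dl j (X none ^ a) + (a : ℝ) • X none ^ a = ev N (uq id a) := by
      simp only [Dl_pow, uq, map_sum, map_mul, map_pow, id, ev_w, ev_p (Nat.succ_ne_zero _),
        Fintype.sum_option, add_mul, Finset.sum_add_distrib, Finset.sum_mul]
      rw [Finset.sum_comm, add_comm]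
      congr 1
      rw [Finset.sum_congr rfl (g := fun _ => X none ^ a) fun k hk => by
        rw [← pow_add, show k.succ + (a - 1 - k) = a by rw [Finset.mem_range] at hk; omega],
        Finset.sum_const, Finset.card_range, Nat.cast_smul_eq_nsmul]
    rw [show LL α (X 0 ^ a * p) = LL α (X 0 ^ a) * p + X 0 ^ a * LL α p from
      Lx_mul_free α (e := id) _ hp, e1, xi_apply]
    simp only [map_add, map_mul, map_smul, map_pow, ev_w, ev_LL_free hp, ← e2, pderiv_mul,
      Dl_mul _ _ (rename_ev_free _ hp), ← Finset.sum_mul]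
    rw [mul_add (X none), ← mul_assoc (X none), x_pderiv_pow]
    simp only [smul_eq_C_mul, map_mul, map_sub, map_one]
    ring
  exact LinearMap.congr_fun this f

theorem coeff_xi_ne {κ κ' : Option (Fin N) →₀ ℕ} (h : κ ≠ κ')
    (h0 : coeff κ (xi α (monomial κ' 1)) ≠ 0) : ∃ j i, κ = Tr κ' j i ∧
      (κ' (some j) ≤ i ∧ i < κ' none ∨ κ' none < i ∧ i < κ' (some j)) := by
  by_contra hc
  push Not at hc
  refine h0 ?_
  rw [xi_apply, X_mul_pderiv_monomial, coeff_add, coeff_smul, coeff_smul, coeff_monomial,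
    if_neg h.symm, smul_zero, smul_zero, zero_add, coeff_sum]
  refine Finset.sum_eq_zero fun j _ => ?_
  rw [Dl_mono, coeff_sub, coeff_sum, coeff_sum, Finset.sum_eq_zero, Finset.sum_eq_zero, sub_zero]
  · intro i hi
    rw [Finset.mem_Ico] at hi
    rw [coeff_monomial, if_neg]
    intro e
    have := (hc j i e.symm).2
    have h1 : i ≠ κ' none := fun e' => h (by rw [← e, e', Tr_eq])
    omega
  · intro i hi
    rw [Finset.mem_Ico] at hi
    rw [coeff_monomial, if_neg]
    intro e
    have := (hc j i e.symm).1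
    omega

theorem coeff_xi_self (κ : Option (Fin N) →₀ ℕ) : coeff κ (xi α (monomial κ 1)) =
    α * κ none - ((∑ j, if κ none < κ (some j) then 1 else 0 : ℕ) : ℝ) := by
  have e : ∀ j i, Tr κ j i = κ ↔ i = κ none := fun j i =>
    ⟨fun e => by rw [← e, Tr_none], fun e => by rw [e, Tr_eq]⟩
  rw [xi_apply, X_mul_pderiv_monomial, coeff_add, coeff_smul, coeff_smul, coeff_monomial,
    if_pos rfl, coeff_sum, sub_eq_add_neg, Nat.cast_sum, ← Finset.sum_neg_distrib]
  congr 1
  · simp
  · refine Finset.sum_congr rfl fun j _ => ?_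
    rw [Dl_mono, coeff_sub, coeff_sum, coeff_sum]
    simp only [coeff_monomial, e, Finset.sum_ite_eq', Finset.mem_Ico]
    by_cases h : κ none < κ (some j) <;> simp [h]

theorem coeff_xi {κ : Option (Fin N) →₀ ℕ} {F : Av N}
    (h : coeff κ (xi α F) ≠ coeff κ (xi α (monomial κ 1)) * coeff κ F) :
    ∃ κ', coeff κ' F ≠ 0 ∧ κ ≠ κ' ∧ coeff κ (xi α (monomial κ' 1)) ≠ 0 := by
  by_contra hc
  push Not at hc
  refine h ?_
  have e : ∀ κ', coeff κ (xi α (monomial κ' (coeff κ' F))) =
      coeff κ (xi α (monomial κ' 1)) * coeff κ' F := fun κ' => by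
    rw [show (monomial κ' (coeff κ' F) : Av N) = coeff κ' F • monomial κ' 1 by
      simp [smul_monomial], map_smul, coeff_smul, smul_eq_mul, mul_comm]
  conv_lhs => rw [F.as_sum, map_sum, coeff_sum]
  simp only [e]
  refine Finset.sum_eq_single κ (fun κ' h1 h2 => ?_) fun h1 => ?_
  · rw [hc κ' (mem_support_iff.1 h1) h2.symm, zero_mul]
  · rw [notMem_support_iff.1 h1, mul_zero]

end Pool.Agent.Lib.MP_fcdd89_co
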