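import Pool.Agent.Lib.MP_fcdd89_co.Ops

/-!
Partitions with a marked row, written as multiplicity vectors.
-/

set_option autoImplicit false

open Finsupp

namespace Pool.Agent.Lib.MP_fcdd89_co

/-- Multiplicity vectors; the entry at `0` is the length of the marked row. -/
abbrev Ix : Type := ℕ →₀ ℕ

/-- Forget the marked row and insert a row of length `c`. -/
noncomputable def put (m : Ix) (c : ℕ) : Ix := erase 0 (erase 0 m + single c 1)

/-- The partition of a marked partition. -/
noncomputable def shape (m : Ix) : Ix := put m (m 0)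

/-- The partition with the marked row extended. -/
noncomputable def up (m : Ix) : Ix := put m (m 0 + 1)

/-- The sum of `(k - h)_+` over the parts. -/
noncomputable def E (h : ℕ) (m : Ix) : ℕ := weight (fun k => k - h) m

/-- The number of parts greater than `h`. -/
noncomputable def G (h : ℕ) (m : Ix) : ℕ := weight (fun k => if h < k then 1 else 0) m

/-- The sum of the squares of the parts. -/
noncomputable def Q (m : Ix) : ℕ := weight (fun k => k ^ 2) m

/-- The degrees of the variables. -/
def w0 (k : ℕ) : ℕ := if k = 0 then 1 else k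

/-- The size. -/
noncomputable def sz (m : Ix) : ℕ := weight w0 m

/-- Dominance. -/
def Le (k l : Ix) : Prop := ∀ h, E h k ≤ E h l

/-- A potential that is strictly monotone. -/
noncomputable def pot (m : Ix) : ℕ := Q (shape m) + Q (up m)

/-- The content of the box below column `j`. -/
noncomputable def yv (α : ℝ) (l : Ix) (j : ℕ) : ℝ := α * j - G j l

/-- The eigenvalue. -/
noncomputable def dd (α : ℝ) (m : Ix) : ℝ := yv α m (m 0)

theorem put_apply (m : Ix) (c k : ℕ) :
    put m c k = if k = 0 then 0 else m k + if c = k then 1 else 0 := by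
  by_cases h : k = 0
  · simp [put, h]
  · simp [put, h, erase_ne h, single_apply]

theorem put_zero (m : Ix) (c : ℕ) : put m c 0 = 0 := by simp [put_apply]

theorem shape_zero (m : Ix) : shape m 0 = 0 := put_zero _ _

theorem up_zero (m : Ix) : up m 0 = 0 := put_zero _ _

theorem weight_succ (φ : ℕ → ℕ) (m : Ix) (s : ℕ) :
    weight φ (m + single s 1) = weight φ m + φ s := by
  rw [map_add, weight_single, one_smul]

theorem weight_erase {φ : ℕ → ℕ} (h : φ 0 = 0) (m : Ix) : weight φ (erase 0 m) = weight φ m := by
  conv_rhs => rw [← single_add_erase 0 m]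
  rw [map_add, weight_single, h, smul_zero, zero_add]

theorem weight_put {φ : ℕ → ℕ} (h : φ 0 = 0) (m : Ix) (c : ℕ) :
    weight φ (put m c) = weight φ m + φ c := by
  rw [put, weight_erase h, weight_succ, weight_erase h]

theorem E_put (h : ℕ) (m : Ix) (c : ℕ) : E h (put m c) = E h m + (c - h) :=
  weight_put (by simp) m c

theorem G_put (h : ℕ) (m : Ix) (c : ℕ) : G h (put m c) = G h m + if h < c then 1 else 0 :=
  weight_put (by simp) m c

theorem Q_put (m : Ix) (c : ℕ) : Q (put m c) = Q m + c ^ 2 := weight_put (by simp) m c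

theorem E_succ (h : ℕ) (m : Ix) : E h m = E (h + 1) m + G h m := by
  induction m using mon_ind with
  | h0 => simp [E, G]
  | h1 m s ih =>
    simp only [E, G, weight_succ] at ih ⊢
    split_ifs <;> omega

theorem G_succ (h : ℕ) (m : Ix) : G h m = G (h + 1) m + m (h + 1) := by
  induction m using mon_ind with
  | h0 => simp [G]
  | h1 m s ih =>
    simp only [G, weight_succ, Finsupp.add_apply, single_apply] at ih ⊢
    split_ifs <;> omega

theorem G_anti (m : Ix) : Antitone fun h => G h m :=
  antitone_nat_of_succ_le fun h => by rw [G_succ h]; omega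

theorem sz_eq (m : Ix) : sz m = m 0 + E 0 m := by
  induction m using mon_ind with
  | h0 => simp [sz, E]
  | h1 m s ih =>
    simp only [sz, E, w0, weight_succ, Finsupp.add_apply, single_apply] at ih ⊢
    split_ifs <;> omega

theorem G_le_E (h : ℕ) (m : Ix) : G h m ≤ E h m := by rw [E_succ]; omega

theorem sz_shape (m : Ix) : sz (shape m) = sz m := by
  rw [sz_eq, sz_eq, shape_zero, shape, E_put]; omega

theorem sz_up (m : Ix) : sz (up m) = sz m + 1 := by
  rw [sz_eq, sz_eq, up_zero, up, E_put]; omega

theorem sz_succ (m : Ix) : sz (m + single 0 1) = sz m + 1 := weight_succ _ _ _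

theorem Le.refl (k : Ix) : Le k k := fun _ => le_rfl

theorem Le.trans {k l m : Ix} (h : Le k l) (h' : Le l m) : Le k m := fun i => (h i).trans (h' i)

theorem Le.antisymm {k l : Ix} (h : Le k l) (h' : Le l k) (h0 : k 0 = l 0) : k = l := by
  have h1 : ∀ i, E i k = E i l := fun i => (h i).antisymm (h' i)
  have h2 : ∀ i, G i k = G i l := fun i => by
    have a := E_succ i k
    have b := E_succ i l
    rw [h1, h1] at a
    omega
  ext i
  cases i with
  | zero => exact h0
  | succ i =>
    have a := G_succ i k
    have b := G_succ i l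
    rw [h2, h2] at a
    omega

theorem shape_succ (m : Ix) : shape (m + single 0 1) = up m := by
  ext k
  simp only [shape, up, put_apply, Finsupp.add_apply, single_apply]
  split_ifs <;> omega

theorem shape_of_zero {m : Ix} (h : m 0 = 0) : shape m = m := by
  ext k
  simp only [shape, put_apply]
  split_ifs <;> simp_all

theorem eq_of_put {m m' : Ix} {c : ℕ} (h : put m c = put m' c) (h0 : m 0 = m' 0) : m = m' := by
  ext k
  have := DFunLike.congr_fun h k
  simp only [put_apply] at this
  split_ifs at this with h1 <;> [skip; omega; omega]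
  rw [h1, h0]

theorem eq_of_shape {m m' : Ix} (h : shape m = shape m') (h0 : m 0 = m' 0) : m = m' :=
  eq_of_put (c := m 0) (h.trans (by rw [shape, h0])) h0

theorem eq_of_up {m m' : Ix} (h : up m = up m') (h0 : m 0 = m' 0) : m = m' :=
  eq_of_put (c := m 0 + 1) (h.trans (by rw [up, h0])) h0

theorem exists_shape {l : Ix} (h : l 0 = 0) {c : ℕ} (hc : c = 0 ∨ l c ≠ 0) :
    ∃ m, shape m = l ∧ m 0 = c := by
  refine ⟨l - single c 1 + single 0 c, ?_, by simp [h]⟩
  ext k
  simp only [shape, put_apply, Finsupp.add_apply, Finsupp.coe_tsub, Pi.sub_apply, single_apply, h]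
  split_ifs <;> subst_vars <;> omega

theorem pred_succ {m : Ix} (h : m 0 ≠ 0) : m - single 0 1 + single 0 1 = m :=
  sub_add_single_one_cancel h

theorem exists_up {l : Ix} (h : l 0 = 0) {c : ℕ} (hc : l (c + 1) ≠ 0) :
    ∃ m, up m = l ∧ m 0 = c := by
  obtain ⟨m, h1, h2⟩ := exists_shape h (Or.inr hc)
  refine ⟨m - single 0 1, ?_, by simp [h2]⟩
  rw [← shape_succ, pred_succ (by omega), h1]

theorem shape_mark (m : Ix) : m 0 = 0 ∨ shape m (m 0) ≠ 0 := by
  by_cases h : m 0 = 0
  · exact Or.inl h
  · simp [shape, put_apply, h]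

theorem up_mark (m : Ix) : up m (m 0 + 1) ≠ 0 := by simp [up, put_apply]

theorem exists_part {l : Ix} (h : l 0 = 0) (h1 : sz l ≠ 0) : ∃ c, l (c + 1) ≠ 0 := by
  by_contra h2
  push Not at h2
  refine h1 ?_
  have : l = 0 := by
    ext k
    cases k with
    | zero => exact h
    | succ k => exact h2 k
  simp [this, sz]

theorem dd_shape (α : ℝ) (m : Ix) : dd α m = yv α (shape m) (m 0) := by
  simp [dd, yv, shape, G_put]

theorem dd_up (α : ℝ) (m : Ix) : dd α m + (α - 1) = yv α (up m) (m 0) + α := by
  simp only [dd, yv, up, G_put, Nat.lt_succ_self, if_true]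
  push_cast
  ring

theorem yv_mono {α : ℝ} (hα : 0 < α) (l : Ix) : StrictMono (yv α l) :=
  strictMono_nat_of_lt_succ fun j => by
    have : (G (j + 1) l : ℝ) ≤ G j l := by exact_mod_cast G_anti l j.le_succ
    simp only [yv]
    push_cast
    linarith

theorem pot_eq (m : Ix) : pot m = 2 * Q (shape m) + 2 * m 0 + 1 := by
  simp only [pot, shape, up, Q_put]
  ring

/-- Separation of eigenvalues. -/
theorem dd_sep {α : ℝ} (hα : 0 < α) {m m' : Ix} (h : Le (shape m') (shape m))
    (h' : ¬ Le (up m') (up m)) : dd α m < dd α m' := by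
  simp only [Le, not_forall, not_le] at h'
  obtain ⟨i, hi⟩ := h'
  have a := h i
  simp only [shape, up, E_put] at a hi
  obtain ⟨j, rfl⟩ : ∃ j, i = j + 1 := ⟨i - 1, by omega⟩
  have b := h j
  have c1 := E_succ j (shape m)
  have c2 := E_succ j (shape m')
  have c3 : E (j + 1) (shape m) ≤ E (j + 1) (shape m') := by
    simp only [shape, E_put]; omega
  have c4 := G_anti (shape m) (show m 0 ≤ j by omega)
  have c5 := G_anti (shape m') (show j ≤ m' 0 by omega)
  have c6 : (G (m' 0) (shape m') : ℝ) ≤ G (m 0) (shape m) := by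
    dsimp only at c4 c5
    exact_mod_cast (by omega)
  have c7 : (m 0 : ℝ) < m' 0 := by exact_mod_cast (by omega)
  rw [dd_shape, dd_shape, yv, yv]
  nlinarith

theorem finite_sz (n : ℕ) : {m : Ix | sz m = n}.Finite := by
  refine (Set.finite_Icc (0 : Ix) (∑ k ∈ Finset.range (n + 1), single k n)).subset
    fun m hm => ⟨zero_le, fun k => ?_⟩
  have hm' : weight w0 m = n := hm
  by_cases h : m k = 0
  · simp [h]
  · have h1 := le_weight_of_ne_zero' w0 h
    have h2 := le_weight w0 (s := k) (by simp only [w0]; split_ifs <;> omega) m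
    have h3 : k < n + 1 := by
      simp only [w0] at h1
      split_ifs at h1 <;> omega
    rw [Finsupp.finsetSum_apply, Finset.sum_eq_single k (fun j _ hj => by simp [hj])
      (fun hk => absurd (Finset.mem_range.2 h3) hk), single_eq_same]
    omega

/-- Marked partitions of size `n`. -/
noncomputable def Idx (n : ℕ) : Finset Ix := (finite_sz n).toFinset

theorem mem_Idx {n : ℕ} {m : Ix} : m ∈ Idx n ↔ sz m = n := by simp [Idx]

theorem part_le {m : Ix} {k : ℕ} (h : m k ≠ 0) : k ≤ sz m := by
  have h1 := le_weight_of_ne_zero' w0 h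
  simp only [w0] at h1
  unfold sz
  split_ifs at h1 <;> omega

theorem G_big {m : Ix} {k : ℕ} (h : sz m ≤ k) : G k m = 0 := by
  rw [G, weight_apply]
  refine Finset.sum_eq_zero fun j hj => ?_
  have := part_le (mem_support_iff.1 hj)
  simp [show ¬ k < j by omega]

theorem sz_eq_zero {m : Ix} (h : sz m = 0) : m = 0 := by
  ext k
  have h2 := le_weight w0 (s := k) (by simp only [w0]; split_ifs <;> omega) m
  unfold sz at h
  simp only [Finsupp.coe_zero, Pi.zero_apply]
  omega

end Pool.Agent.Lib.MP_fcdd89_co
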