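import Pool.Agent.Lib.MP_fcdd89_co.Three

/-!
The connected series with three marked points and its equations.
-/

set_option autoImplicit false

open Finset MvPolynomial
open Finsupp (single weight mapDomain)

namespace Pool.Agent.Lib.MP_fcdd89_co

/-- The quotient of two sequences for the convolution product. -/
noncomputable def quo (T F : ℕ → Tri) : ℕ → Tri
  | n => T n - ∑ i : Fin n, quo T F i * F (n - i)
decreasing_by exact i.2

theorem quo_eq (T F : ℕ → Tri) (n : ℕ) :
    quo T F n = T n - ∑ i ∈ range n, quo T F i * F (n - i) := by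
  rw [quo, sum_range]

theorem quo_conv {T F : ℕ → Tri} (h : F 0 = 1) (n : ℕ) :
    T n = ∑ p ∈ antidiagonal n, quo T F p.1 * F p.2 := by
  rw [Nat.sum_antidiagonal_eq_sum_range_succ_mk, sum_range_succ, quo_eq T F n, Nat.sub_self, h]
  ring

theorem conv_cancel {A C F : ℕ → Tri} (h : F 0 = 1) {N : ℕ}
    (e : ∀ n ≤ N, ∑ p ∈ antidiagonal n, A p.1 * F p.2 = ∑ p ∈ antidiagonal n, C p.1 * F p.2) :
    ∀ n ≤ N, A n = C n := by
  intro n
  induction n using Nat.strong_induction_on with
  | _ n ih =>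
    intro hn
    have := e n hn
    rw [Nat.sum_antidiagonal_eq_sum_range_succ_mk, Nat.sum_antidiagonal_eq_sum_range_succ_mk,
      sum_range_succ, sum_range_succ, Nat.sub_self, h, mul_one, mul_one,
      sum_congr rfl fun i hi => by rw [ih i (mem_range.1 hi) (by have := mem_range.1 hi; omega)]]
      at this
    exact add_left_cancel this

/-- The shift of a sequence. -/
noncomputable def shf (A : ℕ → Tri) : ℕ → Tri
  | 0 => 0
  | n + 1 => A n

theorem conv_shf (A F : ℕ → Tri) (n : ℕ) :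
    ∑ p ∈ antidiagonal (n + 1), shf A p.1 * F p.2 = ∑ p ∈ antidiagonal n, A p.1 * F p.2 := by
  rw [Nat.sum_antidiagonal_succ]
  simp [shf]

theorem fst_le' {n : ℕ} {p : ℕ × ℕ} (h : p ∈ antidiagonal n) : p.1 ≤ n := by
  have := mem_antidiagonal.1 h
  omega

variable {n N : ℕ} {α : ℝ} {x y z : Fin 3} {ψ J : ℕ → Ix → R}

variable (α x y z ψ J) in
/-- The connected series with three marked points. -/
noncomputable def Ph : ℕ → Tri :=
  quo (fun n => T3 α x y z n (ψ n)) fun n => phi α x y z n (J n)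

theorem Ph_swap : Ph α y x z ψ J = Ph α x y z ψ J := by
  simp only [Ph, T3_swap (x := x), phi_swap (x := x)]

theorem Sys.T3_conv (s : Sys α N ψ J) (n : ℕ) : T3 α x y z n (ψ n) =
    ∑ p ∈ antidiagonal n, Ph α x y z ψ J p.1 * phi α x y z p.2 (J p.2) :=
  quo_conv (T := fun n => T3 α x y z n (ψ n)) (F := fun n => phi α x y z n (J n)) s.phi_zero n

theorem Sys.Ph_zero (s : Sys α N ψ J) : Ph α x y z ψ J 0 = 1 := by
  rw [Ph, quo_eq, s.T3_zero]
  simp

theorem Sys.free (s : Sys α N ψ J) (hn : n ≤ N) (a : Fin 3) :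
    Free (a, 0) (phi α x y z n (J n)) := (s.lev n hn).phi_free a

/-- The derivative of the logarithm. -/
noncomputable def Gx (x y z : Fin 3) (Φ : ℕ → Tri) : ℕ → Tri :=
  shf fun n => X (x, 0) * Cl y (Cl z (Φ n))

theorem Sys.Lx_phi (s : Sys α N ψ J) (hα : 0 < α) (hxy : y ≠ x) (hxz : z ≠ x) (hyz : z ≠ y)
    (hn : n ≤ N) : Lx α (Prod.mk x) (phi α x y z n (J n)) =
      ∑ p ∈ antidiagonal n, Gx x y z (Ph α x y z ψ J) p.1 * phi α x y z p.2 (J p.2) := by
  cases n with
  | zero =>
    rw [s.phi_zero, Lx_free α (Free.one _)]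
    simp [Gx, shf]
  | succ n =>
    rw [(s.link n hn).Lx_phi hα (s.lev n (by omega)) (s.lev _ hn) hxy hxz hyz, Gx,
      conv_shf _ fun n => phi α x y z n (J n), s.T3_conv, map_sum, map_sum, mul_sum]
    refine sum_congr rfl fun p hp => ?_
    have a : p.2 ≤ N := (snd_le' hp).trans (by omega)
    rw [Cl_mul_free _ _ (s.free a z), Cl_mul_free _ _ (s.free a y), mul_assoc]

theorem Sys.Lx_T3 (s : Sys α N ψ J) (hα : 0 < α) (hxy : y ≠ x) (hxz : z ≠ x) (hyz : z ≠ y)
    (hn : n ≤ N) : Lx α (Prod.mk x) (T3 α x y z n (ψ n)) =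
      ∑ p ∈ antidiagonal n, (Lx α (Prod.mk x) (Ph α x y z ψ J p.1) + ∑ q ∈ antidiagonal p.1,
        Ph α x y z ψ J q.1 * Gx x y z (Ph α x y z ψ J) q.2) * phi α x y z p.2 (J p.2) := by
  simp only [add_mul, sum_add_distrib]
  rw [← conv_assoc _ _ fun n => phi α x y z n (J n), s.T3_conv, map_sum, ← sum_add_distrib]
  refine sum_congr rfl fun p hp => ?_
  have a : p.2 ≤ N := (snd_le' hp).trans hn
  rw [Lx_mul_free _ _ (s.free a x), s.Lx_phi hα hxy hxz hyz a]

theorem Sys.Ph_eq (s : Sys α N ψ J) (hα : 0 < α) (hxy : y ≠ x) (hxz : z ≠ x) (hyz : z ≠ y)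
    (hn : n ≤ N) : Lx α (Prod.mk x) (Ph α x y z ψ J n) + ∑ q ∈ antidiagonal n,
        Ph α x y z ψ J q.1 * Gx x y z (Ph α x y z ψ J) q.2 =
      Lx α (Prod.mk y) (Ph α x y z ψ J n) + ∑ q ∈ antidiagonal n,
        Ph α x y z ψ J q.1 * Gx y x z (Ph α x y z ψ J) q.2 := by
  refine conv_cancel (F := fun n => phi α x y z n (J n)) s.phi_zero
    (A := fun n => Lx α (Prod.mk x) (Ph α x y z ψ J n) + ∑ q ∈ antidiagonal n,
        Ph α x y z ψ J q.1 * Gx x y z (Ph α x y z ψ J) q.2)
    (C := fun n => Lx α (Prod.mk y) (Ph α x y z ψ J n) + ∑ q ∈ antidiagonal n,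
        Ph α x y z ψ J q.1 * Gx y x z (Ph α x y z ψ J) q.2) (fun k hk => ?_) n hn
  have := s.Lx_T3 hα hxy.symm hyz hxz hk
  simp only [T3_swap (x := x), phi_swap (x := x), Ph_swap (x := x)] at this
  rw [← s.Lx_T3 hα hxy hxz hyz hk, ← this, (s.lev k hk).Lx_eq hxy hxz hyz]

theorem P0_mul_free {s : Fin 3 × ℕ} (f : Tri) {g : Tri} (hg : Free s g) :
    P0 s (f * g) = P0 s f * g := W_mul_free _ f hg

theorem Sys.Ph_P0 (s : Sys α N ψ J) (hα : 0 < α) (hxy : y ≠ x) (hxz : z ≠ x) (hn : n + 1 ≤ N) :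
    P0 (x, 0) (Ph α x y z ψ J (n + 1)) = X (y, 0) * (X (z, 0) * Cl x (Ph α x y z ψ J n)) := by
  have := conv_cancel (F := fun n => phi α x y z n (J n)) s.phi_zero
    (A := fun n => P0 (x, 0) (Ph α x y z ψ J n))
    (C := fun n => (if n = 0 then 1 else 0) +
      shf (fun n => X (y, 0) * (X (z, 0) * Cl x (Ph α x y z ψ J n))) n) (N := N) (fun k hk => by
      rw [sum_congr rfl fun p hp => (P0_mul_free _ (s.free ((snd_le' hp).trans hk) x)).symm,
        ← map_sum, ← s.T3_conv]
      cases k with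
      | zero =>
        rw [s.T3_zero, P0_free (Free.one _)]
        simp [shf, s.phi_zero]
      | succ k =>
        rw [(s.link k hk).P0_T3 hα (s.lev k (by omega)) (s.lev _ hk) hxy hxz]
        simp only [add_mul, sum_add_distrib]
        rw [conv_shf _ fun n => phi α x y z n (J n), Nat.sum_antidiagonal_succ, s.T3_conv, map_sum,
          mul_sum, mul_sum]
        congr 1
        · simp
        · refine sum_congr rfl fun p hp => ?_
          rw [Cl_mul_free _ _ (s.free ((snd_le' hp).trans (by omega)) x), mul_assoc, mul_assoc])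
    (n + 1) hn
  simpa [shf] using this

theorem Bt_Dr (a : Fin 3) {f : Tri} (hf : f ∈ Hz a n) :
    Bt (Prod.mk a) (Dr α (Prod.mk a) f) = (α * n) • f := by
  have key : ∀ m : Fin 3 × ℕ →₀ ℕ, m (a, 0) = 0 →
      Bt (Prod.mk a) (Dr α (Prod.mk a) (monomial m 1)) =
        (α * (weight (fun s : Fin 3 × ℕ => if s.1 = a then w0 s.2 else 0) m : ℕ)) •
          (monomial m 1 : Tri) := by
    intro m
    induction m using mon_ind with
    | h0 =>
      intro _
      rw [show (monomial 0 1 : Tri) = 1 from rfl, Derivation.map_one_eq_zero]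
      simp
    | h1 m s ih =>
      intro h0
      rw [Finsupp.add_apply, Nat.add_eq_zero_iff] at h0
      have hs : s ≠ (a, 0) := fun e => by simp [e] at h0
      rw [mon_succ, Derivation.leibniz, smul_eq_mul, smul_eq_mul, map_add, mul_comm (X s),
        Bt_mul_free _ (Free.X hs), ih h0.1, map_add, Finsupp.weight_single, one_smul, mul_comm,
        Bt_mul_free _ (Free.monomial h0.1 1)]
      obtain ⟨b, k⟩ := s
      by_cases e : b = a
      · subst e
        have hk : k ≠ 0 := fun e => hs (by rw [e])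
        rw [Dr_e α (mk_inj b), dv, if_neg hk, map_smul, Bt, W_pow, if_neg hk]
        simp only [if_true, w0, if_neg hk, smul_eq_C_mul, Nat.cast_add, map_mul, map_add]
        ring
      · rw [Dr_out α fun k' c => e (congrArg Prod.fst c).symm, map_zero]
        simp [e]
  refine lin_ind (P := fun f => Bt (Prod.mk a) (Dr α (Prod.mk a) f) = (α * n) • f) (by simp)
    (fun f g p q => by simp only [map_add, p, q, smul_add])
    (fun c f p => by rw [Derivation.map_smul, map_smul, p, smul_comm]) fun m hm => ?_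
  rw [key m (hf.1 m hm), hf.2 hm]

variable {θ : ∀ n : ℕ, n.Partition → n.Partition → ℝ}

theorem Sys.log_eq (s : Sys α N ψ J) (hα : 0 < α) (h : IsJack α θ) (hxy : y ≠ x) (hxz : z ≠ x)
    (hyz : z ≠ y) (hn : n + 1 ≤ N) :
    (α * (n + 1 : ℕ)) • PowerSeries.coeff (n + 1) (PowerSeries.logOf (series α θ)) =
      Cl x (Cl y (Cl z (Ph α x y z ψ J n))) := by
  have h1 := series_zero hα h
  have m := log_mem (Hz x) Hz_mul h1 (fun k => by
    obtain ⟨ψ, J, s⟩ := exists_sys hα k
    rw [s.series_phi hα h hyz hxy.symm hxz.symm le_rfl]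
    exact (s.lev k le_rfl).phi_mem hxy.symm hxz.symm) (n + 1)
  have a := log_der (Dr α (Prod.mk x)) h1
  have b := conv_cancel (F := fun n => phi α x y z n (J n)) s.phi_zero
    (A := fun n => Dr α (Prod.mk x) (PowerSeries.coeff n (PowerSeries.logOf (series α θ))))
    (C := Gx x y z (Ph α x y z ψ J)) (N := N) (fun k hk => by
      have c := congrArg (PowerSeries.coeff k) a
      rw [mul_comm, PowerSeries.coeff_mul, PowerSeries.coeff_mk,
        s.series_phi hα h hxy hxz hyz hk, ← Lx_free α (s.free hk x),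
        s.Lx_phi hα hxy hxz hyz hk] at c
      rw [← c]
      refine sum_congr rfl fun p hp => ?_
      rw [PowerSeries.coeff_mk, s.series_phi hα h hxy hxz hyz ((snd_le' hp).trans hk)])
    (n + 1) hn
  rw [← Bt_Dr x m, b]
  rfl

end Pool.Agent.Lib.MP_fcdd89_co
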