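import Pool.Agent.Lib.MP_fcdd89_co.Cher

/-!
Monomial coordinates and triangularity of the Lax operator.
-/

set_option autoImplicit false

open MvPolynomial Finsupp

namespace Pool.Agent.Lib.MP_fcdd89_co

variable {N : ℕ} {α : ℝ}

/-- The marked partition of an exponent vector. -/
noncomputable def ty (κ : Option (Fin N) →₀ ℕ) : Ix :=
  single 0 (κ none) + erase 0 (∑ j, single (κ (some j)) 1)

theorem ty_zero (κ : Option (Fin N) →₀ ℕ) : ty κ 0 = κ none := by simp [ty]

theorem weight_ty {φ : ℕ → ℕ} (h : φ 0 = 0) (κ : Option (Fin N) →₀ ℕ) :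
    weight φ (ty κ) = ∑ j, φ (κ (some j)) := by
  rw [ty, map_add, weight_single, h, smul_zero, zero_add, weight_erase h, map_sum]
  simp only [weight_single, one_smul]

theorem weight_ind (k : ℕ) (m : Ix) : weight (fun x => if x = k then 1 else 0) m = m k := by
  induction m using mon_ind with
  | h0 => simp
  | h1 m s ih => rw [weight_succ, ih, Finsupp.add_apply, single_apply]

theorem ty_ext {m m' : Ix} (h0 : m 0 = m' 0)
    (h : ∀ φ : ℕ → ℕ, φ 0 = 0 → weight φ m = weight φ m') : m = m' := by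
  ext k
  by_cases hk : k = 0
  · rw [hk, h0]
  · rw [← weight_ind, ← weight_ind]
    exact h _ (if_neg (Ne.symm hk))

theorem weight_ty_update {φ : ℕ → ℕ} (h : φ 0 = 0) {κ κ' : Option (Fin N) →₀ ℕ} (j : Fin N)
    (e : ∀ j', j' ≠ j → κ' (some j') = κ (some j')) :
    weight φ (ty κ') + φ (κ (some j)) = weight φ (ty κ) + φ (κ' (some j)) := by
  rw [weight_ty h, weight_ty h, ← Finset.add_sum_erase _ _ (Finset.mem_univ j),
    ← Finset.add_sum_erase _ (fun j => φ (κ (some j))) (Finset.mem_univ j),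
    Finset.sum_congr rfl fun j' hj => by rw [e j' (Finset.ne_of_mem_erase hj)]]
  ring

theorem ty_add_none (κ : Option (Fin N) →₀ ℕ) (s : ℕ) :
    ty (κ + single none s) = ty κ + single 0 s := by
  simp [ty, single_add, add_right_comm]

theorem dd_ty (κ : Option (Fin N) →₀ ℕ) : coeff κ (xi α (monomial κ 1)) = dd α (ty κ) := by
  rw [coeff_xi_self, dd, yv, ty_zero, G, weight_ty (by simp)]

theorem ty_Tr {κ : Option (Fin N) →₀ ℕ} {j : Fin N} {i : ℕ}
    (h : κ (some j) ≤ i ∧ i < κ none ∨ κ none < i ∧ i < κ (some j)) :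
    Le (shape (ty (Tr κ j i))) (shape (ty κ)) ∧ Le (up (ty (Tr κ j i))) (up (ty κ)) ∧
      pot (ty (Tr κ j i)) < pot (ty κ) := by
  have e : ∀ φ : ℕ → ℕ, φ 0 = 0 → weight φ (ty (Tr κ j i)) + φ (κ (some j)) =
      weight φ (ty κ) + φ (κ none + κ (some j) - i) := fun φ h0 => by
    rw [weight_ty_update h0 j fun j' hj => Tr_ne κ hj i, Tr_self]
  refine ⟨fun t => ?_, fun t => ?_, ?_⟩
  · have := e (fun k => k - t) (by simp)
    simp only [shape, E_put, ty_zero, Tr_none]
    simp only [E]
    omega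
  · have := e (fun k => k - t) (by simp)
    simp only [up, E_put, ty_zero, Tr_none]
    simp only [E]
    omega
  · have := e (fun k => k ^ 2) (by simp)
    simp only [pot, shape, up, Q_put, ty_zero, Tr_none]
    simp only [Q]
    rcases h with ⟨h1, h2⟩ | ⟨h1, h2⟩
    · obtain ⟨u, rfl⟩ := Nat.exists_eq_add_of_le h1
      obtain ⟨v, hv⟩ := Nat.exists_eq_add_of_lt h2
      rw [hv, show κ (some j) + u + v + 1 + κ (some j) - (κ (some j) + u) = κ (some j) + v + 1 by
        omega] at this
      rw [hv]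
      nlinarith [Nat.zero_le (u * v), Nat.zero_le u, Nat.zero_le v]
    · obtain ⟨u, rfl⟩ := Nat.exists_eq_add_of_lt h1
      obtain ⟨v, hv⟩ := Nat.exists_eq_add_of_lt h2
      rw [hv, show κ none + (κ none + u + 1 + v + 1) - (κ none + u + 1) = κ none + v + 1 by
        omega] at this
      nlinarith [Nat.zero_le (u * v), Nat.zero_le u, Nat.zero_le v]

theorem coeff_perm {F : Av N} {σ : Equiv.Perm (Option (Fin N))} (h : rename σ F = F)
    {κ κ' : Option (Fin N) →₀ ℕ} (e : ∀ v, κ' (σ v) = κ v) : coeff κ' F = coeff κ F := by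
  rw [← coeff_rename_mapDomain σ σ.injective F κ, h]
  congr 1
  ext v
  rw [mapDomain_equiv_apply, ← e, Equiv.apply_symm_apply]

theorem coeff_ty {κ κ' : Option (Fin N) →₀ ℕ} (h : ty κ = ty κ') (f : R) :
    coeff κ' (ev N f) = coeff κ (ev N f) := by
  have h1 : ∀ c, ∑ j, (if κ (some j) = c then 1 else 0) = ∑ j, if κ' (some j) = c then 1 else 0 := by
    intro c
    by_cases hc : c = 0
    · have a : ∀ κ : Option (Fin N) →₀ ℕ,
          ∑ j, (if κ (some j) = c then 1 else 0) + G 0 (ty κ) = N := fun κ => by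
        rw [G, weight_ty (by simp), ← Finset.sum_add_distrib,
          Finset.sum_congr rfl (g := fun _ => 1) fun j _ => by split_ifs <;> omega]
        simp
      have a1 := a κ
      have a2 := a κ'
      rw [h] at a1
      omega
    · rw [← weight_ty (φ := fun x => if x = c then 1 else 0) (if_neg (Ne.symm hc)),
        ← weight_ty (φ := fun x => if x = c then 1 else 0) (if_neg (Ne.symm hc)), h]
  have e : ∀ c, {j // κ (some j) = c} ≃ {j // κ' (some j) = c} := fun c =>
    Fintype.equivOfCardEq (by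
      rw [Fintype.card_subtype, Fintype.card_subtype, Finset.card_filter, Finset.card_filter, h1])
  refine coeff_perm (rename_ev (Equiv.optionCongr (Equiv.ofFiberEquiv e)) rfl f) fun v => ?_
  cases v with
  | none => exact (ty_zero κ').symm.trans (h ▸ ty_zero κ)
  | some j => exact Equiv.ofFiberEquiv_map e j

open Classical in
/-- The coefficient of the monomials of type `m`. -/
noncomputable def co (N : ℕ) (m : Ix) : R →ₗ[ℝ] ℝ :=
  if h : ∃ κ : Option (Fin N) →₀ ℕ, ty κ = m then lcoeff ℝ h.choose ∘ₗ (ev N).toLinearMap else 0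

theorem co_ty (κ : Option (Fin N) →₀ ℕ) (f : R) : co N (ty κ) f = coeff κ (ev N f) := by
  have h : ∃ κ' : Option (Fin N) →₀ ℕ, ty κ' = ty κ := ⟨κ, rfl⟩
  rw [co, dif_pos h]
  exact coeff_ty h.choose_spec.symm f

theorem co_none {m : Ix} (h : ¬ ∃ κ : Option (Fin N) →₀ ℕ, ty κ = m) (f : R) : co N m f = 0 := by
  rw [co, dif_neg h, LinearMap.zero_apply]

theorem co_LL {m : Ix} {f : R} (h : co N m (LL α f) ≠ dd α m * co N m f) :
    ∃ m', co N m' f ≠ 0 ∧ Le (shape m) (shape m') ∧ Le (up m) (up m') ∧ pot m < pot m' := by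
  by_cases h1 : ∃ κ : Option (Fin N) →₀ ℕ, ty κ = m
  · obtain ⟨κ, rfl⟩ := h1
    rw [co_ty, co_ty, ev_LL, ← dd_ty] at h
    obtain ⟨κ', a, b, c⟩ := coeff_xi h
    obtain ⟨j, i, rfl, hi⟩ := coeff_xi_ne b c
    exact ⟨ty κ', by rwa [co_ty], ty_Tr hi⟩
  · simp [co_none h1] at h

theorem co_w (m : Ix) (f : R) : co N (m + single 0 1) (X 0 * f) = co N m f := by
  by_cases h1 : ∃ κ : Option (Fin N) →₀ ℕ, ty κ = m
  · obtain ⟨κ, rfl⟩ := h1
    rw [← ty_add_none, co_ty, co_ty, map_mul, ev_w, add_comm, coeff_X_mul]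
  · rw [co_none h1, co_none]
    rintro ⟨κ, hκ⟩
    have h0 : κ none ≠ 0 := by rw [← ty_zero, hκ]; simp
    rw [← sub_add_single_one_cancel h0, ty_add_none] at hκ
    exact h1 ⟨_, add_right_cancel hκ⟩

theorem co_w_zero {m : Ix} (h : m 0 = 0) (f : R) : co N m (X 0 * f) = 0 := by
  by_cases h1 : ∃ κ : Option (Fin N) →₀ ℕ, ty κ = m
  · obtain ⟨κ, rfl⟩ := h1
    rw [co_ty, map_mul, ev_w, coeff_X_mul', if_neg (by simpa [ty_zero] using h)]
  · exact co_none h1 _

theorem exists_zero {κ : Option (Fin N) →₀ ℕ} (h : G 0 (ty κ) < N) : ∃ j, κ (some j) = 0 := by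
  by_contra hc
  push Not at hc
  rw [G, weight_ty (by simp), Finset.sum_congr rfl (g := fun _ => 1)
    fun j _ => if_pos (Nat.pos_of_ne_zero (hc j))] at h
  simp at h

theorem ty_add_some {κ : Option (Fin N) →₀ ℕ} {j : Fin N} (h : κ (some j) = 0) {s : ℕ}
    (hs : s ≠ 0) : ty (κ + single (some j) s) = ty κ + single s 1 :=
  ty_ext (by simp [ty_zero, hs]) fun φ h0 => by
    have := weight_ty_update h0 (κ := κ) (κ' := κ + single (some j) s) j fun j' hj => by simp [hj]
    rw [weight_succ]
    simpa [h, h0] using this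

theorem co_shape {m : Ix} (hm : sz m ≤ N) {f : R} (hf : Free 0 f) :
    co N m f = co N (shape m) f := by
  by_cases h0 : m 0 = 0
  · rw [shape_of_zero h0]
  have key : ∀ (κ : Option (Fin N) →₀ ℕ) (j : Fin N), κ none = 0 → κ (some j) = 0 →
      coeff (κ + single none (m 0)) (ev N f) = coeff (κ + single (some j) (m 0)) (ev N f) :=
    fun κ j a b => coeff_perm (rename_ev_free (Equiv.swap none (some j)) hf) fun v => by
      rw [Equiv.swap_apply_def]
      split_ifs with h1 h2
      · simp [h1, a, b]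
      · simp [h2, a, b]
      · simp [h1, h2]
  have e1 : m = erase 0 m + single 0 (m 0) := (erase_add_single 0 m).symm
  have e2 : shape m = erase 0 m + single (m 0) 1 := by
    rw [shape, put, erase_add, erase_single_ne (Ne.symm h0)]
    simp
  by_cases h1 : ∃ κ : Option (Fin N) →₀ ℕ, ty κ = erase 0 m
  · obtain ⟨κ, hκ⟩ := h1
    have a : κ none = 0 := by rw [← ty_zero, hκ]; simp
    obtain ⟨j, b⟩ := exists_zero (κ := κ) (by
      have a1 := G_le_E 0 (erase 0 m)
      have a2 := sz_eq m
      rw [E, weight_erase (by simp), ← E] at a1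
      rw [hκ]
      omega)
    rw [e2, ← hκ, ← ty_add_some b h0, co_ty, ← key κ j a b, ← co_ty, ty_add_none, hκ, ← e1]
  · rw [co_none, co_none]
    · rintro ⟨κ, hκ⟩
      have a : ∃ j, κ (some j) = m 0 := by
        by_contra hc
        push Not at hc
        have := weight_ty (φ := fun x => if x = m 0 then 1 else 0) (if_neg (Ne.symm h0)) κ
        rw [weight_ind, hκ, e2, Finset.sum_eq_zero fun j _ => if_neg (hc j)] at this
        simp at this
      obtain ⟨j, hj⟩ := a
      rw [← erase_add_single (some j) κ, ty_add_some (by simp) (hj ▸ h0), hj, e2] at hκ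
      exact h1 ⟨_, add_right_cancel hκ⟩
    · rintro ⟨κ, hκ⟩
      have a : κ none = m 0 := by rw [← ty_zero, hκ]
      rw [← erase_add_single none κ, ty_add_none, a] at hκ
      exact h1 ⟨_, add_right_cancel (hκ.trans e1)⟩

theorem ev_tri (m : Ix) (κ : Option (Fin N) →₀ ℕ) (h : coeff κ (ev N (monomial m 1)) ≠ 0) :
    sz (ty κ) = sz m ∧ G 0 (ty κ) ≤ G 0 m ∧ (G 0 (ty κ) = G 0 m → ty κ = m) := by
  induction m using mon_ind generalizing κ with
  | h0 =>
    have : κ = 0 := by
      by_contra h1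
      exact h (by rw [monomial_zero', C_1, map_one, coeff_one, if_neg (Ne.symm h1)])
    simp [this, ty]
  | h1 m s ih =>
    have hG : ∀ (m : Ix) (t : ℕ), G 0 (m + single 0 t) = G 0 m := fun m t => by
      simp [G, weight_single]
    rw [mon_succ, map_mul] at h
    by_cases hs : s = 0
    · subst hs
      rw [ev_w, coeff_mul_X'] at h
      split_ifs at h with h1
      · obtain ⟨a, b, c⟩ := ih _ h
        rw [← sub_add_single_one_cancel (Finsupp.mem_support_iff.1 h1), ty_add_none, sz_succ,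
          sz_succ, hG, hG, a]
        exact ⟨rfl, b, fun e => by rw [c e]⟩
      · exact absurd rfl h
    · rw [ev_p hs, Finset.mul_sum, coeff_sum] at h
      obtain ⟨v, -, h⟩ := Finset.exists_ne_zero_of_sum_ne_zero h
      rw [X_pow_eq_monomial, coeff_mul_monomial'] at h
      split_ifs at h with h1
      swap
      · exact absurd rfl h
      obtain ⟨a, b, c⟩ := ih _ (left_ne_zero_of_mul h)
      have e1 : sz (m + single s 1) = sz m + s := by rw [sz, weight_succ, w0, if_neg hs, sz]
      have e2 : G 0 (m + single s 1) = G 0 m + 1 := by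
        rw [G, weight_succ, if_pos (Nat.pos_of_ne_zero hs), G]
      rw [← tsub_add_cancel_of_le h1, e1, e2]
      generalize κ - single v s = κ0 at a b c
      cases v with
      | none =>
        rw [ty_add_none, hG]
        exact ⟨by rw [sz, map_add, weight_single, ← sz, a]; simp [w0], by omega, by omega⟩
      | some j =>
        have u := fun φ h0 => weight_ty_update (φ := φ) h0 (κ := κ0)
          (κ' := κ0 + single (some j) s) j fun j' hj => by simp [hj]
        have u1 := u (fun k => k - 0) rfl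
        have u2 := u (fun k => if 0 < k then 1 else 0) rfl
        simp only [Finsupp.add_apply, single_eq_same, ← E.eq_1, ← G.eq_1] at u1 u2
        refine ⟨?_, by split_ifs at u2 <;> omega, fun e => ?_⟩
        · rw [← a, sz_eq, sz_eq, ty_zero, ty_zero]
          simp only [Finsupp.add_apply, ne_eq, reduceCtorEq, not_false_eq_true, single_eq_of_ne]
          omega
        · have h2 : κ0 (some j) = 0 := by split_ifs at u2 <;> omega
          rw [ty_add_some h2 hs] at e ⊢
          rw [c (by rw [G, weight_succ, if_pos (Nat.pos_of_ne_zero hs), ← G] at e; omega)]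

theorem ev_nonneg (m : Ix) (κ : Option (Fin N) →₀ ℕ) : 0 ≤ coeff κ (ev N (monomial m 1)) := by
  induction m using mon_ind generalizing κ with
  | h0 => rw [monomial_zero', C_1, map_one, coeff_one]; split_ifs <;> simp
  | h1 m s ih =>
    rw [mon_succ, map_mul]
    by_cases hs : s = 0
    · rw [hs, ev_w, coeff_mul_X']
      split_ifs
      exacts [ih _, le_rfl]
    · rw [ev_p hs, Finset.mul_sum, coeff_sum]
      refine Finset.sum_nonneg fun v _ => ?_
      rw [X_pow_eq_monomial, coeff_mul_monomial', mul_one]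
      split_ifs
      exacts [ih _, le_rfl]

theorem ev_diag (m : Ix) (h : G 0 m ≤ N) :
    ∃ κ : Option (Fin N) →₀ ℕ, ty κ = m ∧ 0 < coeff κ (ev N (monomial m 1)) := by
  induction m using mon_ind with
  | h0 => exact ⟨0, by simp [ty], by simp⟩
  | h1 m s ih =>
    rw [G, weight_succ, ← G] at h
    obtain ⟨κ, rfl, h1⟩ := ih (by omega)
    rw [mon_succ, map_mul]
    by_cases hs : s = 0
    · exact ⟨κ + single none 1, by rw [ty_add_none, hs], by rwa [hs, ev_w, coeff_mul_X]⟩
    · rw [if_pos (Nat.pos_of_ne_zero hs)] at h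
      obtain ⟨j, hj⟩ := exists_zero (κ := κ) h
      refine ⟨κ + single (some j) s, ty_add_some hj hs, ?_⟩
      rw [ev_p hs, Finset.mul_sum, coeff_sum]
      refine Finset.sum_pos' (fun v _ => ?_) ⟨some j, Finset.mem_univ _, ?_⟩
      · rw [X_pow_eq_monomial, coeff_mul_monomial', mul_one]
        split_ifs
        exacts [ev_nonneg _ _, le_rfl]
      · rwa [X_pow_eq_monomial, coeff_mul_monomial, mul_one]

theorem co_sum (m : Ix) (f : R) :
    co N m f = ∑ m' ∈ f.support, coeff m' f * co N m (monomial m' 1) := by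
  conv_lhs => rw [f.as_sum, map_sum]
  refine Finset.sum_congr rfl fun m' _ => ?_
  rw [← smul_eq_mul, ← map_smul, smul_monomial, smul_eq_mul, mul_one]

theorem co_tri {m m' : Ix} (h : co N m (monomial m' 1) ≠ 0) :
    sz m = sz m' ∧ G 0 m ≤ G 0 m' ∧ (G 0 m = G 0 m' → m = m') := by
  by_cases h1 : ∃ κ : Option (Fin N) →₀ ℕ, ty κ = m
  · obtain ⟨κ, rfl⟩ := h1
    exact ev_tri m' κ (by rwa [co_ty] at h)
  · exact absurd (co_none h1 _) h

theorem co_hom {n : ℕ} {f : R} (hf : f ∈ H n) {m : Ix} (h : co N m f ≠ 0) : sz m = n := by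
  rw [co_sum] at h
  obtain ⟨m', -, h⟩ := Finset.exists_ne_zero_of_sum_ne_zero h
  exact (co_tri (right_ne_zero_of_mul h)).1.trans (mem_H.1 hf _ (left_ne_zero_of_mul h))

theorem co_inj {n : ℕ} (hn : n ≤ N) {f : R} (hf : f ∈ H n) (h : ∀ m, co N m f = 0) : f = 0 := by
  by_contra h0
  obtain ⟨m, hm, h1⟩ := f.support.exists_max_image (G 0) (support_nonempty.2 h0)
  have h2 := mem_H.1 hf _ (MvPolynomial.mem_support_iff.1 hm)
  obtain ⟨κ, hκ, h3⟩ := ev_diag (N := N) m (by
    have := G_le_E 0 m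
    have := sz_eq m
    omega)
  have h4 := h m
  rw [co_sum, Finset.sum_eq_single_of_mem m hm fun m' a b => by
    by_contra h5
    obtain ⟨-, c, d⟩ := co_tri (right_ne_zero_of_mul h5)
    exact b (d (c.antisymm (h1 _ a))).symm] at h4
  rw [← co_ty, hκ] at h3
  exact mul_ne_zero (MvPolynomial.mem_support_iff.1 hm) h3.ne' h4

end Pool.Agent.Lib.MP_fcdd89_co
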