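import Pool.Agent.Lib.MP_fcdd89_co.Comb

/-!
The scalar product, adjoints, homogeneity and orthogonal bases.
-/

set_option autoImplicit false

open MvPolynomial

namespace Pool.Agent.Lib.MP_fcdd89_co

/-- The ring generated by `w = X 0` and the power sums `X k`. -/
abbrev R : Type := MvPolynomial ℕ ℝ

/-- The Lax operator on `R`. -/
noncomputable def LL (α : ℝ) : R →ₗ[ℝ] R := Lx α id

/-- The closing operator on `R`. -/
noncomputable def BB : R →ₗ[ℝ] R := Bt id

variable {α : ℝ}

theorem LL_w (f : R) : LL α (X 0 * f) = BB (X 0 * f) + X 0 * (LL α f + (α - 1) • f) :=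
  Lx_X_mul α Function.injective_id f

theorem free_BB (f : R) : Free 0 (BB f) := free_Bt Function.injective_id f

theorem P0_LL (f : R) : P0 0 (LL α f) = BB f := P0_Lx α Function.injective_id f

theorem BB_free {g : R} (hg : Free 0 g) : BB g = 0 := Bt_free (e := id) hg

theorem BB_pow (a : ℕ) {g : R} (hg : Free 0 g) : BB (X 0 ^ (a + 1) * g) = X (a + 1) * g := by
  rw [BB, Bt, id, W_pow_mul _ (a + 1) hg, if_neg a.succ_ne_zero, id]

theorem LL_free {g : R} (hg : Free 0 g) : LL α g = X 0 * Sh 0 (LL α g) := by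
  conv_lhs => rw [← P0_add_Sh 0 (LL α g), P0_LL, BB_free hg, zero_add]

/-- Squared norms of monomials. -/
noncomputable def Z (α : ℝ) (m : Ix) : ℝ :=
  m.prod fun k a => if k = 0 then 1 else a.factorial * (α * k) ^ a

theorem Z_succ (m : Ix) (k : ℕ) :
    Z α (m + Finsupp.single k 1) = Z α m * if k = 0 then 1 else (m k + 1) * (α * k) := by
  rw [Z, Z, ← Finsupp.mul_prod_erase' _ k _ (by simp), ← Finsupp.mul_prod_erase' m k _ (by simp),
    Finsupp.erase_add, Finsupp.erase_single, add_zero]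
  split_ifs
  · ring
  · simp only [Finsupp.add_apply, Finsupp.single_eq_same, Nat.factorial_succ, pow_succ]
    push_cast
    ring

theorem Z_pos (hα : 0 < α) (m : Ix) : 0 < Z α m :=
  Finset.prod_pos fun k _ => by
    dsimp only
    split_ifs with h
    · exact one_pos
    · have : (0 : ℝ) < k := by exact_mod_cast Nat.pos_of_ne_zero h
      positivity

/-- The scalar product. -/
noncomputable def B (α : ℝ) : R →ₗ[ℝ] R →ₗ[ℝ] ℝ :=
  (basisMonomials ℕ ℝ).constr ℝ fun m => Z α m • lcoeff ℝ m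

theorem B_mono (m : Ix) (g : R) : B α (monomial m 1) g = Z α m * coeff m g := by
  have := (basisMonomials ℕ ℝ).constr_basis ℝ (fun m => Z α m • lcoeff ℝ m) m
  rw [coe_basisMonomials] at this
  rw [B, this]
  rfl

theorem B_symm (f g : R) : B α f g = B α g f := by
  have : B α = (B α).flip := lin_ext fun m => lin_ext fun m' => by
    rw [LinearMap.flip_apply, B_mono, B_mono, coeff_monomial, coeff_monomial]
    by_cases h : m = m'
    · rw [h]
    · rw [if_neg h, if_neg (Ne.symm h), mul_zero, mul_zero]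
  exact LinearMap.congr_fun (LinearMap.congr_fun this f) g

theorem B_eq (f g : R) : B α f g = ∑ m ∈ f.support, Z α m * (coeff m f * coeff m g) := by
  conv_lhs => rw [f.as_sum, map_sum, LinearMap.sum_apply]
  refine Finset.sum_congr rfl fun m _ => ?_
  rw [show (monomial m (coeff m f) : R) = coeff m f • monomial m 1 by simp [smul_monomial],
    map_smul, LinearMap.smul_apply, B_mono, smul_eq_mul]
  ring

theorem B_pos (hα : 0 < α) {f : R} (hf : f ≠ 0) : 0 < B α f f := by
  rw [B_eq]
  exact Finset.sum_pos (fun m hm => mul_pos (Z_pos hα m) (mul_self_pos.2 (mem_support_iff.1 hm)))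
    (support_nonempty.2 hf)

theorem eq_zero_of_B (hα : 0 < α) {f : R} (h : B α f f = 0) : f = 0 := by
  by_contra hf
  exact (B_pos hα hf).ne' h

theorem coeff_w (m : Ix) (f : R) : coeff (m + Finsupp.single 0 1) (X 0 * f) = coeff m f := by
  rw [add_comm, coeff_X_mul]

theorem coeff_Sh (m : Ix) (g : R) : coeff m (Sh 0 g) = coeff (m + Finsupp.single 0 1) g := by
  conv_rhs => rw [← P0_add_Sh 0 g, coeff_add, coeff_w]
  rw [show coeff (m + Finsupp.single 0 1) (P0 0 g) = 0 from
    not_not.1 fun h => by simpa using free_P0 0 g _ h, zero_add]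

theorem adj_w (f g : R) : B α (X 0 * f) g = B α f (Sh 0 g) := by
  have : (B α).flip g ∘ₗ LinearMap.mulLeft ℝ (X 0) = (B α).flip (Sh 0 g) := lin_ext fun m => by
    simp only [LinearMap.comp_apply, LinearMap.mulLeft_apply, LinearMap.flip_apply]
    rw [mul_comm, ← mon_succ, B_mono, B_mono, coeff_Sh, Z_succ, if_pos rfl, mul_one]
  exact LinearMap.congr_fun this f

theorem adj_p {k : ℕ} (hk : k ≠ 0) (f g : R) :
    B α (X k * f) g = α * k * B α f (pderiv k g) := by
  have : (B α).flip g ∘ₗ LinearMap.mulLeft ℝ (X k) = (α * k) • (B α).flip (pderiv k g) :=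
    lin_ext fun m => by
      simp only [LinearMap.comp_apply, LinearMap.mulLeft_apply, LinearMap.flip_apply,
        LinearMap.smul_apply, smul_eq_mul]
      rw [mul_comm, ← mon_succ, B_mono, B_mono, coeff_pderiv, Z_succ, if_neg hk]
      ring
  exact LinearMap.congr_fun this f

theorem B_w_free (f : R) {g : R} (hg : Free 0 g) : B α (X 0 * f) g = 0 := by
  rw [adj_w, Sh_free hg, map_zero]

theorem B_free_w {g : R} (hg : Free 0 g) (f : R) : B α g (X 0 * f) = 0 := by
  rw [B_symm, B_w_free f hg]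

theorem B_w_w (f g : R) : B α (X 0 * f) (X 0 * g) = B α f g := by rw [adj_w, Sh_X_mul]

theorem B_free_P0 {g : R} (hg : Free 0 g) (f : R) : B α g (P0 0 f) = B α g f := by
  conv_rhs => rw [← P0_add_Sh 0 f, map_add, B_free_w hg, add_zero]

theorem B_pow (a b : ℕ) {p q : R} (hp : Free 0 p) (hq : Free 0 q) :
    B α (X 0 ^ a * p) (X 0 ^ b * q) = if b = a then B α p q else 0 := by
  induction a generalizing b with
  | zero =>
    cases b with
    | zero => simp
    | succ b => rw [pow_zero, one_mul, pow_succ', mul_assoc, B_free_w hp]; simp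
  | succ a ih =>
    cases b with
    | zero => rw [pow_zero, one_mul, pow_succ', mul_assoc, B_w_free _ hq]; simp
    | succ b => rw [pow_succ', pow_succ', mul_assoc, mul_assoc, B_w_w, ih]; simp

/-- The coefficient of `w^a`. -/
noncomputable def Kw (a : ℕ) : R →ₗ[ℝ] R := W 0 fun j => if j = a then 1 else 0

theorem B_Kw (a : ℕ) {p : R} (hp : Free 0 p) (f : R) : B α (X 0 ^ a * p) f = B α p (Kw a f) := by
  have : B α (X 0 ^ a * p) = B α p ∘ₗ Kw a := lin_ext_free 0 fun b q hq => by
    rw [B_pow a b hp hq, LinearMap.comp_apply, Kw, W_pow_mul _ _ hq]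
    split_ifs <;> simp
  exact LinearMap.congr_fun this f

theorem free_pderiv (k : ℕ) {g : R} (hg : Free 0 g) : Free 0 (pderiv k g) := fun m h => by
  rw [coeff_pderiv] at h
  have := hg _ (left_ne_zero_of_mul h)
  rw [Finsupp.add_apply] at this
  omega

theorem Kw_LL {a : ℕ} (ha : a ≠ 0) {g : R} (hg : Free 0 g) :
    Kw a (LL α g) = (α * a) • pderiv a g := by
  refine free_ind (P := fun g => Kw a (LL α g) = (α * a) • pderiv a g) ?_ ?_ ?_ ?_ hg
  · rw [LL, Lx_free α (e := id) (Free.one _)]; simp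
  · intro f g h1 h2; simp [h1, h2]
  · intro c f h1; simp [h1, smul_comm c]
  · intro g t ht hg h1
    have e : LL α (X t) = (α * t) • X 0 ^ t := by
      rw [LL, Lx_free α (e := id) (Free.X ht)]
      exact (Dr_e α Function.injective_id t).trans (if_neg ht)
    rw [show LL α (g * X t) = LL α g * X t + g * LL α (X t) from
      Lx_mul_free α (e := id) g (Free.X ht), map_add, Kw, W_mul_free _ _ (Free.X ht), ← Kw, h1, e,
      mul_smul_comm, map_smul, mul_comm g, Kw, W_pow_mul _ _ hg, pderiv_mul, pderiv_X]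
    by_cases h : t = a
    · simp [h, mul_comm]
    · simp [h, mul_comm]

theorem adj_LL (f g : R) : B α (LL α f) g = B α f (LL α g) := by
  have k1 : ∀ (a : ℕ) (p q : R), Free 0 p → Free 0 q →
      B α (LL α (X 0 ^ (a + 1) * p)) q = B α (X 0 ^ (a + 1) * p) (LL α q) := by
    intro a p q hp hq
    rw [B_Kw _ hp, Kw_LL a.succ_ne_zero hq, B_symm, ← B_free_P0 hq, P0_LL, BB_pow _ hp, B_symm,
      adj_p a.succ_ne_zero, map_smul, smul_eq_mul]
  have k2 : ∀ (a b : ℕ) (p q : R), Free 0 p → Free 0 q →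
      B α (LL α (X 0 ^ a * p)) (X 0 ^ b * q) = B α (X 0 ^ a * p) (LL α (X 0 ^ b * q)) := by
    intro a b p q hp hq
    induction a generalizing b with
    | zero =>
      cases b with
      | zero =>
        simp only [pow_zero, one_mul]
        rw [LL_free hp, B_w_free _ hq, LL_free hq, B_free_w hp]
      | succ b => rw [pow_zero, one_mul, B_symm, ← k1 b q p hq hp, B_symm]
    | succ a ih =>
      cases b with
      | zero => rw [pow_zero, one_mul, k1 a p q hp hq]
      | succ b =>
        rw [pow_succ', pow_succ', mul_assoc, mul_assoc, LL_w, LL_w, map_add, map_add,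
          LinearMap.add_apply, B_free_w (free_BB _), B_w_free _ (free_BB _), B_w_w, B_w_w]
        simp [ih]
  have : B α ∘ₗ LL α = (B α).compl₂ (LL α) :=
    lin_ext_free 0 fun a p hp => lin_ext_free 0 fun b q hq => k2 a b p q hp hq
  exact LinearMap.congr_fun (LinearMap.congr_fun this f) g

/-- Homogeneous elements. -/
noncomputable def H (n : ℕ) : Submodule ℝ R := weightedHomogeneousSubmodule ℝ w0 n

theorem mem_H {n : ℕ} {f : R} : f ∈ H n ↔ ∀ m, coeff m f ≠ 0 → sz m = n := Iff.rfl

theorem H_mul {a b : ℕ} {f g : R} (hf : f ∈ H a) (hg : g ∈ H b) : f * g ∈ H (a + b) :=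
  IsWeightedHomogeneous.mul hf hg

theorem H_mono (m : Ix) : monomial m 1 ∈ H (sz m) := isWeightedHomogeneous_monomial _ _ _ rfl

theorem H_X (k : ℕ) : X k ∈ H (w0 k) := isWeightedHomogeneous_X _ _ _

theorem H_w_pow (a : ℕ) : X 0 ^ a ∈ H a := by
  have := IsWeightedHomogeneous.pow (H_X 0) a
  rwa [w0, if_pos rfl, smul_eq_mul, mul_one] at this

theorem H_w {n : ℕ} {f : R} (hf : f ∈ H n) : X 0 * f ∈ H (n + 1) := by
  rw [add_comm]; exact H_mul (H_X 0) hf

theorem H_Sh {n : ℕ} {f : R} (hf : f ∈ H (n + 1)) : Sh 0 f ∈ H n := fun m h => by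
  rw [coeff_Sh] at h
  have := mem_H.1 hf _ h
  rw [sz_succ] at this
  exact Nat.succ_injective this

theorem coeff_P0 (m : Ix) (f : R) : coeff m (P0 0 f) = if m 0 = 0 then coeff m f else 0 := by
  split_ifs with h
  · conv_rhs => rw [← P0_add_Sh 0 f, coeff_add, coeff_X_mul', if_neg (by simpa using h), add_zero]
  · exact not_not.1 fun h' => h (free_P0 0 f m h')

theorem H_P0 {n : ℕ} {f : R} (hf : f ∈ H n) : P0 0 f ∈ H n := fun m h => by
  rw [coeff_P0] at h
  split_ifs at h
  · exact hf h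
  · exact absurd rfl h

theorem H_LL {n : ℕ} {f : R} (hf : f ∈ H n) : LL α f ∈ H n := by
  refine lin_ind (P := fun f => LL α f ∈ H n) (by simp) (fun f g a b => ?_) (fun c f a => ?_)
    fun m hm => ?_
  · rw [map_add]; exact add_mem a b
  · rw [map_smul]; exact Submodule.smul_mem _ _ a
  rw [← mem_H.1 hf m hm, LL, Lx_apply]
  clear hm
  refine add_mem ?_ ?_
  · induction m using mon_ind with
    | h0 => simp
    | h1 m s ih =>
      rw [mon_succ, Derivation.leibniz, sz, weight_succ, smul_eq_mul, smul_eq_mul, mul_comm (X s)]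
      refine add_mem (H_mul (H_mono m) ?_) (H_mul ih (H_X s))
      rw [show Dr α id (X s) = dv α id s from Dr_e α Function.injective_id s, dv, w0]
      split_ifs
      · exact Submodule.smul_mem _ _ (H_X 0)
      · exact Submodule.smul_mem _ _ (H_w_pow s)
  · rw [W_mono, show sz m = m 0 + sz (m.erase 0) by
      rw [sz_eq, sz_eq, E, E, weight_erase (by simp)]; simp]
    refine H_mul (Submodule.sum_mem _ fun k hk => ?_) (H_mono _)
    have h1 := H_mul (H_X (k + 1)) (H_w_pow (m 0 - 1 - k))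
    rw [Finset.mem_range] at hk
    rwa [show w0 (k + 1) + (m 0 - 1 - k) = m 0 by simp only [w0, id] at hk ⊢; simp; omega] at h1

theorem H_BB {n : ℕ} {f : R} (hf : f ∈ H n) : BB f ∈ H n := by
  rw [← P0_LL (α := 0)]; exact H_P0 (H_LL hf)

/-- A dimension count. -/
theorem core {S : Type} [Fintype S] (V : Submodule ℝ R) (c : S → R →ₗ[ℝ] ℝ)
    (inj : ∀ f ∈ V, (∀ s, c s f = 0) → f = 0) (b : S → R) (hb : ∀ s, b s ∈ V)
    (li : LinearIndependent ℝ b) :
    (∀ f ∈ V, ∃ a : S → ℝ, f = ∑ s, a s • b s) ∧ ∀ y : S → ℝ, ∃ f ∈ V, ∀ s, c s f = y s := by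
  have hm : ∀ a : S → ℝ, ∑ s, a s • b s ∈ V := fun a =>
    V.sum_mem fun s _ => V.smul_mem _ (hb s)
  have h1 : Function.Injective (LinearMap.pi c ∘ₗ Fintype.linearCombination ℝ b) := by
    rw [injective_iff_map_eq_zero]
    intro a ha
    exact funext (Fintype.linearIndependent_iff.1 li a (inj _ (hm a) fun s => congrFun ha s))
  have h2 := LinearMap.injective_iff_surjective.1 h1
  refine ⟨fun f hf => ?_, fun y => ?_⟩
  · obtain ⟨a, ha⟩ := h2 fun s => c s f
    refine ⟨a, sub_eq_zero.1 (inj _ (V.sub_mem hf (hm a)) fun s => ?_)⟩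
    rw [map_sub]
    exact sub_eq_zero.2 (congrFun ha s).symm
  · obtain ⟨a, ha⟩ := h2 y
    exact ⟨_, hm a, fun s => congrFun ha s⟩

/-- Orthogonal families indexed by the marked partitions of size `n`. -/
structure OB (α : ℝ) (n : ℕ) (b : Ix → R) : Prop where
  hom : ∀ m, sz m = n → b m ∈ H n
  ne : ∀ m, sz m = n → b m ≠ 0
  orth : ∀ m m', sz m = n → sz m' = n → m ≠ m' → B α (b m) (b m') = 0

theorem OB.li (hα : 0 < α) {n : ℕ} {b : Ix → R} (h : OB α n b) (S : Finset Ix)
    (hS : ∀ m ∈ S, sz m = n) : LinearIndependent ℝ fun s : S => b s := by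
  classical
  rw [Fintype.linearIndependent_iff]
  intro a ha s
  have := congrArg (B α (b s)) ha
  rw [map_sum, Finset.sum_eq_single s (fun t _ ht => by
    rw [map_smul, h.orth _ _ (hS _ s.2) (hS _ t.2) fun e => ht (Subtype.ext e.symm), smul_zero])
    (by simp), map_smul, map_zero, smul_eq_mul] at this
  exact (mul_eq_zero.1 this).resolve_right (B_pos hα (h.ne _ (hS _ s.2))).ne'

theorem OB.expand (hα : 0 < α) {n : ℕ} {b : Ix → R} (h : OB α n b) {f : R} (hf : f ∈ H n) :
    f = ∑ m ∈ Idx n, (B α f (b m) / B α (b m) (b m)) • b m := by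
  classical
  obtain ⟨a, ha⟩ := (core (S := Idx n) (H n) (fun s => lcoeff ℝ s.1) (fun f hf h0 => by
    ext m
    by_contra hm
    exact hm (h0 ⟨m, mem_Idx.2 (hf hm)⟩)) (fun s => b s) (fun s => h.hom _ (mem_Idx.1 s.2))
    (h.li hα _ fun _ => mem_Idx.1)).1 f hf
  rw [← Finset.sum_coe_sort]
  refine ha.trans (Finset.sum_congr rfl fun s _ => ?_)
  rw [ha, map_sum, LinearMap.sum_apply, Finset.sum_eq_single s (fun t _ ht => by
    rw [map_smul, LinearMap.smul_apply, h.orth _ _ (mem_Idx.1 t.2) (mem_Idx.1 s.2)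
      fun e => ht (Subtype.ext e), smul_zero]) (by simp), map_smul, LinearMap.smul_apply,
    smul_eq_mul, mul_div_cancel_right₀ _ (B_pos hα (h.ne _ (mem_Idx.1 s.2))).ne']

end Pool.Agent.Lib.MP_fcdd89_co
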