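import Pool.Agent.Lib.MP_fcdd89_co.Norm

/-!
The norm of the Jack function is the product of the two hook polynomials.
-/

set_option autoImplicit false

open Finset
open Finsupp (single)

namespace Pool.Agent.Lib.MP_fcdd89_co

/-- The product of the two hooks of a box. -/
def AA (α x : ℝ) : ℝ := x * (x - α + 1)

/-- The product over the boxes of the first `L` rows. -/
noncomputable def Hk (α : ℝ) (r g : ℕ → ℕ) (L : ℕ) : ℝ :=
  ∏ i ∈ range L, ∏ j ∈ range (r i), AA α (α * (r i - j) + g j - i - 1)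

theorem AA_pos {α x : ℝ} (hα : 0 < α) (h : α ≤ x) : 0 < AA α x :=
  mul_pos (by linarith) (by linarith)

theorem path_tele {r g : ℕ → ℕ} (hg : ∀ i j, j < r i ↔ i < g j) (F : ℕ → ℕ → ℝ) (c K : ℕ)
    (h : c ≤ K) :
    (∏ j ∈ Ico c K, F (g (j + 1)) (j + 1)) * ∏ i ∈ Ico (g K) (g c), F (i + 1) (r i) =
      (∏ j ∈ Ico c K, F (g j) (j + 1)) * ∏ i ∈ Ico (g K) (g c), F i (r i) := by
  have an : Antitone g := antitone_nat_of_succ_le fun j => le_of_forall_lt fun i hi =>
    (hg i j).1 (Nat.lt_of_succ_lt ((hg i (j + 1)).2 hi))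
  induction K, h using Nat.le_induction with
  | base => simp
  | succ K h ih =>
    have a : g (K + 1) ≤ g K := an (Nat.le_succ K)
    have b : g K ≤ g c := an h
    have e : ∀ i ∈ Ico (g (K + 1)) (g K), r i = K + 1 := fun i hi => by
      have := (hg i K).2 (mem_Ico.1 hi).2
      have := mt (hg i (K + 1)).1 (not_lt.2 (mem_Ico.1 hi).1)
      omega
    have t : F (g (K + 1)) (K + 1) * ∏ i ∈ Ico (g (K + 1)) (g K), F (i + 1) (r i) =
        F (g K) (K + 1) * ∏ i ∈ Ico (g (K + 1)) (g K), F i (r i) := by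
      rw [prod_congr rfl (g := fun i => F (i + 1) (K + 1)) fun i hi => by rw [e i hi],
        prod_congr rfl (f := fun i => F i (r i)) (g := fun i => F i (K + 1))
          fun i hi => by rw [e i hi],
        prod_Ico_add' (fun i => F i (K + 1)), 
        ← prod_eq_prod_Ico_succ_bot (Nat.lt_add_one_of_le a) (fun i => F i (K + 1)),
        prod_Ico_succ_top a, mul_comm]
    rw [prod_Ico_succ_top h, prod_Ico_succ_top h, ← prod_Ico_consecutive _ a b,
      ← prod_Ico_consecutive _ a b]
    linear_combination (F (g (K + 1)) (K + 1) * ∏ i ∈ Ico (g (K + 1)) (g K), F (i + 1) (r i)) * ih +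
      ((∏ j ∈ Ico c K, F (g j) (j + 1)) * ∏ i ∈ Ico (g K) (g c), F i (r i)) * t

theorem prod_erase_range (f : ℕ → ℝ) {c K : ℕ} (h : c < K) :
    ∏ j ∈ (range K).erase c, f j = (∏ j ∈ range c, f j) * ∏ j ∈ Ico (c + 1) K, f j := by
  rw [prod_erase_ite, ← prod_range_mul_prod_Ico _ (Nat.succ_le_of_lt h), prod_range_succ,
    if_pos rfl, mul_one]
  congr 1
  · exact prod_congr rfl fun j hj => if_neg (mem_range.1 hj).ne
  · exact prod_congr rfl fun j hj => if_neg (Nat.lt_of_succ_le (mem_Ico.1 hj).1).ne'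

theorem hook_step {α : ℝ} (hα : 0 < α) {r g r' g' : ℕ → ℕ} (hg : ∀ i j, j < r i ↔ i < g j)
    (hg' : ∀ i j, j < r' i ↔ i < g' j) {c K L : ℕ} (e : ∀ j, g' j = g j + if j = c then 1 else 0)
    (hc : c < K) (hK : g K = 0) (hL : g c < L) {σ τ : ℝ}
    (h1 : τ * ∏ k ∈ (range (K + 1)).erase c, (α * c - g c - (α * k - g k)) =
      ∏ j ∈ range K, (α * c - g c - (α * j - g j + α)))
    (h2 : σ * ∏ j ∈ (range K).erase c, (α * c - g' c + α - (α * j - g' j + α)) =
      -∏ j ∈ range (K + 1), (α * c - g' c + α - (α * j - g' j))) :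
    σ * Hk α r g L = τ * Hk α r' g' L := by
  have an : Antitone g := antitone_nat_of_succ_le fun j => le_of_forall_lt fun i hi =>
    (hg i j).1 (Nat.lt_of_succ_lt ((hg i (j + 1)).2 hi))
  have ec : g' c = g c + 1 := by rw [e, if_pos rfl]
  have en : ∀ j, j ≠ c → g' j = g j := fun j hj => by rw [e, if_neg hj, add_zero]
  have r1 : ∀ i, i ≠ g c → r' i = r i := fun i hi => eq_of_forall_lt_iff fun j => by
    rw [hg, hg']
    by_cases a : j = c
    · rw [a, ec]
      omega
    · rw [en j a]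
  have r2 : r (g c) = c ∧ r' (g c) = c + 1 := by
    have a := hg (g c) c
    have b := hg' (g c) c
    have a1 := hg (g c) (r (g c))
    have b1 := hg' (g c) (r (g c))
    have a2 := hg (g c) (c + 1)
    have b2 := hg' (g c) (c + 1)
    have := en (r (g c))
    have := en (c + 1)
    omega
  set x : ℝ := α * c - g c with hx
  have t := path_tele hg (fun i j => AA α (α * j - i - x)) c K hc.le
  rw [prod_eq_prod_Ico_succ_bot hc (fun j => AA α (α * ((j + 1 : ℕ) : ℝ) - g j - x)), hK,
    prod_Ico_add' (fun j => AA α (α * j - g j - x)), ← range_eq_Ico] at t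
  rw [← mul_prod_erase _ _ (mem_range.2 hc)] at h1
  rw [← mul_prod_erase _ _ (mem_range.2 (Nat.lt_succ_of_lt hc)),
    prod_congr rfl (s₁ := (range K).erase c) (g := fun j : ℕ => x - (α * j - g j) - 1) fun j hj => by
      rw [en j (mem_erase.1 hj).1, ec, hx]
      push_cast
      ring,
    prod_congr rfl (s₁ := (range (K + 1)).erase c) (g := fun j : ℕ => x - (α * j - g j) + α - 1)
      fun j hj => by
      rw [en j (mem_erase.1 hj).1, ec, hx]
      push_cast
      ring] at h2
  have h3 : σ * ∏ j ∈ (range K).erase c, AA α (x - (α * j - g j) - 1) =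
      τ * ∏ j ∈ (range (K + 1)).erase c, AA α (x - (α * j - g j) + α - 1) := by
    simp only [AA, prod_mul_distrib]
    rw [prod_congr rfl (g := fun j : ℕ => x - (α * j - g j + α)) (f := fun j : ℕ =>
        x - (α * j - g j) - 1 - α + 1) fun j _ => by ring,
      prod_congr rfl (g := fun j : ℕ => x - (α * j - g j)) (f := fun j : ℕ =>
        x - (α * j - g j) + α - 1 - α + 1) fun j _ => by ring]
    refine mul_left_cancel₀ hα.ne' ?_
    linear_combination (σ * ∏ j ∈ (range K).erase c, (x - (α * j - g j) - 1)) * h1 -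
      (τ * ∏ k ∈ (range (K + 1)).erase c, (x - (α * k - g k))) * h2
  rw [prod_erase_range _ hc, prod_erase_range _ (Nat.lt_succ_of_lt hc),
    prod_congr rfl (s₁ := Ico (c + 1) K) (g := fun j => AA α (α * ((j + 1 : ℕ) : ℝ) - g j - x))
      fun j _ => by
        simp only [AA]
        push_cast
        ring,
    prod_congr rfl (s₁ := Ico (c + 1) (K + 1)) (g := fun j => AA α (α * j - g j - x))
      fun j _ => by
        simp only [AA]
        ring] at h3
  have u : (∏ i ∈ range (g c), ∏ j ∈ range (r' i), AA α (α * (r' i - j) + g' j - i - 1)) *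
      ∏ i ∈ range (g c), AA α (α * r i - ((i + 1 : ℕ) : ℝ) - x) =
      (∏ i ∈ range (g c), ∏ j ∈ range (r i), AA α (α * (r i - j) + g j - i - 1)) *
      ∏ i ∈ range (g c), AA α (α * r i - i - x) := by
    rw [← prod_mul_distrib, ← prod_mul_distrib]
    refine prod_congr rfl fun i hi => ?_
    have a := mem_range.2 ((hg i c).2 (mem_range.1 hi))
    rw [r1 i (mem_range.1 hi).ne, ← mul_prod_erase _ _ a, ← mul_prod_erase _ _ a,
      prod_congr rfl (g := fun j => AA α (α * (r i - j) + g j - i - 1))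
        fun j hj => by rw [en j (mem_erase.1 hj).1], ec, hx]
    simp only [AA]
    push_cast
    ring
  have d : ∏ i ∈ Ico (g c + 1) L, ∏ j ∈ range (r' i), AA α (α * (r' i - j) + g' j - i - 1) =
      ∏ i ∈ Ico (g c + 1) L, ∏ j ∈ range (r i), AA α (α * (r i - j) + g j - i - 1) :=
    prod_congr rfl fun i hi => by
      have a := (mem_Ico.1 hi).1
      rw [r1 i (by omega)]
      refine prod_congr rfl fun j hj => ?_
      have b := hg i c
      have := mem_range.1 hj
      rw [en j (by omega)]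
  have n1 : 0 < ∏ j ∈ Ico (c + 1) K, AA α (α * ((j + 1 : ℕ) : ℝ) - g j - x) :=
    prod_pos fun j hj => AA_pos hα (by
      have a : c ≤ j := Nat.le_of_succ_le (mem_Ico.1 hj).1
      have b : (g j : ℝ) ≤ g c := Nat.cast_le.2 (an a)
      have := mul_le_mul_of_nonneg_left (Nat.cast_le.2 a : (c : ℝ) ≤ j) hα.le
      push_cast
      linarith)
  have n2 : 0 < ∏ i ∈ range (g c), AA α (α * r i - ((i + 1 : ℕ) : ℝ) - x) :=
    prod_pos fun i hi => AA_pos hα (by
      have a : ((c + 1 : ℕ) : ℝ) ≤ r i := Nat.cast_le.2 ((hg i c).2 (mem_range.1 hi))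
      have b : ((i + 1 : ℕ) : ℝ) ≤ g c := Nat.cast_le.2 (mem_range.1 hi)
      have := mul_le_mul_of_nonneg_left a hα.le
      push_cast at this b ⊢
      linarith)
  have ea : AA α (α * ((c + 1 : ℕ) : ℝ) - g c - x) = α := by
    simp only [AA, hx]
    push_cast
    ring
  rw [ea] at t
  rw [Hk, Hk, ← prod_range_mul_prod_Ico _ (Nat.succ_le_of_lt hL),
    ← prod_range_mul_prod_Ico _ (Nat.succ_le_of_lt hL), prod_range_succ, prod_range_succ, d,
    r2.1, r2.2, prod_range_succ,
    prod_congr rfl (s₁ := range c) (g := fun j => AA α (x - (α * j - g j) - 1)) fun j _ => by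
      rw [hx]
      congr 1
      ring,
    prod_congr rfl (s₁ := range c) (g := fun j => AA α (x - (α * j - g j) + α - 1))
      (f := fun j => AA α (α * (((c + 1 : ℕ) : ℝ) - j) + g' j - g c - 1)) fun j hj => by
      rw [hx, en j (mem_range.1 hj).ne]
      congr 1
      push_cast
      ring,
    show AA α (α * (((c + 1 : ℕ) : ℝ) - c) + g' c - g c - 1) = α by
      simp only [AA, ec]
      push_cast
      ring]
  refine mul_left_cancel₀ (mul_pos n1 n2).ne' ?_
  generalize ∏ j ∈ Ico (c + 1) K, AA α (α * ((j + 1 : ℕ) : ℝ) - g j - x) = b1 at *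
  generalize ∏ j ∈ Ico (c + 1) (K + 1), AA α (α * j - g j - x) = b2 at *
  generalize ∏ i ∈ range (g c), AA α (α * r i - ((i + 1 : ℕ) : ℝ) - x) = p1 at *
  generalize ∏ i ∈ range (g c), AA α (α * r i - i - x) = p2 at *
  generalize ∏ j ∈ range c, AA α (x - (α * j - g j) - 1) = a1 at *
  generalize ∏ j ∈ range c, AA α (x - (α * j - g j) + α - 1) = a2 at *
  generalize ∏ i ∈ range (g c), ∏ j ∈ range (r i), AA α (α * (r i - j) + g j - i - 1) = U at *
  generalize ∏ i ∈ range (g c), ∏ j ∈ range (r' i), AA α (α * (r' i - j) + g' j - i - 1) = U' at *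
  generalize ∏ i ∈ Ico (g c).succ L, ∏ j ∈ range (r i), AA α (α * (r i - j) + g j - i - 1) = D at *
  linear_combination (U * D * p1) * h3 + (τ * a2 * U * D) * t - (τ * a2 * α * b1 * D) * u

theorem exists_row (l : Ix) : ∃ r : ℕ → ℕ, ∀ i j, j < r i ↔ i < G j l := by
  have ex : ∀ i, ∃ j, G j l ≤ i := fun i => ⟨sz l, by rw [G_big le_rfl]; omega⟩
  refine ⟨fun i => Nat.find (ex i), fun i j => ?_⟩
  rw [Nat.lt_find_iff]
  exact ⟨fun h => not_le.1 (h j le_rfl), fun h m hm => not_le.2 (h.trans_le (G_anti l hm))⟩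

theorem G_up (m : Ix) (j : ℕ) : G j (up m) = G j (shape m) + if j = m 0 then 1 else 0 := by
  rw [up, shape, G_put, G_put]
  split_ifs <;> omega

theorem Sys.norm {α : ℝ} {N : ℕ} {ψ J : ℕ → Ix → R} (s : Sys α N ψ J) (hα : 0 < α) {n : ℕ}
    (hn : n ≤ N) {l : Ix} (hl : sz l = n) (h0 : l 0 = 0) {r : ℕ → ℕ}
    (hr : ∀ i j, j < r i ↔ i < G j l) {L : ℕ} (hL : G 0 l ≤ L) :
    B α (J n l) (J n l) = Hk α r (fun j => G j l) L := by
  induction n generalizing l r with
  | zero =>
    obtain rfl := sz_eq_zero hl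
    have e : ∀ i, r i = 0 := fun i => by
      have := hr i 0
      rw [G_big (by rw [hl])] at this
      omega
    rw [(s.lev 0 hn).J_eq hl h0, s.zero, P0_free (Free.one 0), Hk]
    simp only [e, range_zero, prod_empty, prod_const_one]
    rw [← MvPolynomial.C_1, MvPolynomial.C_apply, B_mono]
    simp [Z]
  | succ n ih =>
    obtain ⟨m, hm, rfl⟩ := exists_up' h0 hl
    obtain ⟨r', hr'⟩ := exists_row (shape m)
    have h := s.lev n (Nat.le_of_succ_le hn)
    have p := B_pos hα (h.ob.ne m hm)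
    have c : m 0 < n + 1 := by
      have := sz_eq m
      omega
    have a : G (m 0) (up m) ≤ G 0 (up m) := G_anti (up m) (Nat.zero_le (m 0))
    have b := G_up m (m 0)
    have b' := G_up m 0
    rw [if_pos rfl] at b
    have i := ih (Nat.le_of_succ_le hn) ((sz_shape m).trans hm) (shape_zero m) hr' (by omega)
    have t := s.tau hα (Nat.le_of_succ_le hn) hm (Nat.le_succ n)
    rw [dd_shape] at t
    have := hook_step hα hr' hr (G_up m) c (G_big (by rw [sz_shape, hm]; omega)) (L := L) (by omega) t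
      ((s.link n hn).sig hα h (s.lev _ hn) hm (Nat.lt_succ_self n))
    have q := h.J_pos hα ((sz_shape m).trans hm) (shape_zero m)
    rw [← i] at this
    field_simp at this
    exact this

end Pool.Agent.Lib.MP_fcdd89_co
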