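import Pool.Agent.Lib.MP_fcdd89_co.Conn

/-!
Integrality of the connected series.
-/

set_option autoImplicit false

open Finset MvPolynomial
open Finsupp (single weight mapDomain)

namespace Pool.Agent.Lib.MP_fcdd89_co

/-- Integer combinations of `(α - 1) ^ i * α ^ j` with `i + 2 j = d`. -/
inductive IW : ℤ → (ℝ → ℝ) → Prop
  | zero (d : ℤ) : IW d fun _ => 0
  | mono (i j : ℕ) : IW (i + 2 * j) fun α => (α - 1) ^ i * α ^ j
  | sub {d : ℤ} {f g : ℝ → ℝ} : IW d f → IW d g → IW d fun α => f α - g α
  | congr {d : ℤ} {f g : ℝ → ℝ} : IW d f → (∀ α, 0 < α → g α = f α) → IW d g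

section IW

variable {d e : ℤ} {f g : ℝ → ℝ}

theorem IW.cast (h : IW d f) (e : ℤ) (he : e = d) : IW e f := he ▸ h

theorem IW.neg (h : IW d f) : IW d fun α => -f α :=
  ((IW.zero d).sub h).congr fun α _ => by simp

theorem IW.add (h : IW d f) (h' : IW d g) : IW d fun α => f α + g α :=
  (h.sub h'.neg).congr fun α _ => by simp

theorem IW.one : IW 0 fun _ => 1 := (IW.mono 0 0).congr fun α _ => by simp

theorem IW.nat (k : ℕ) : IW 0 fun _ => (k : ℝ) := by
  induction k with
  | zero => exact (IW.zero 0).congr fun α _ => by simp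
  | succ k ih => exact (ih.add IW.one).congr fun α _ => by simp

theorem IW.mul (h : IW d f) (h' : IW e g) : IW (d + e) fun α => f α * g α := by
  induction h with
  | zero d => exact (IW.zero _).congr fun α _ => by simp
  | sub _ _ a b => exact (a.sub b).congr fun α _ => sub_mul _ _ _
  | congr _ c a => exact a.congr fun α hα => by rw [c α hα]
  | mono i j =>
    induction h' with
    | zero d => exact (IW.zero _).congr fun α _ => by simp
    | sub _ _ a b => exact (a.sub b).congr fun α _ => mul_sub _ _ _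
    | congr _ c a => exact a.congr fun α hα => by rw [c α hα]
    | mono i' j' =>
      exact ((IW.mono (i + i') (j + j')).cast _ (by push_cast; ring)).congr fun α _ => by ring

theorem IW.sum {ι : Type} (t : Finset ι) {f : ι → ℝ → ℝ} (h : ∀ i ∈ t, IW d (f i)) :
    IW d fun α => ∑ i ∈ t, f i α := by
  classical
  induction t using Finset.induction_on with
  | empty => exact IW.zero d
  | insert a s ha ih =>
    exact ((h a (mem_insert_self _ _)).add (ih fun i hi => h i (mem_insert_of_mem hi))).congr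
      fun α _ => sum_insert ha

theorem IW.extract (h : IW d f) (K s : ℕ) (hd : d = K - s) : ∃ a : ℕ → ℤ, ∀ α : ℝ, 0 < α →
    f α = ∑ j ∈ range (K + 1) with 2 * j + s ≤ K, a j * (α - 1) ^ (K - s - 2 * j) * α ^ j := by
  induction h with
  | zero d => exact ⟨0, by simp⟩
  | sub _ _ a b =>
    obtain ⟨a, ha⟩ := a hd
    obtain ⟨b, hb⟩ := b hd
    refine ⟨a - b, fun α hα => ?_⟩
    dsimp only
    rw [ha α hα, hb α hα, ← sum_sub_distrib]
    exact sum_congr rfl fun j _ => by simp [sub_mul]
  | congr _ c a =>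
    obtain ⟨a, ha⟩ := a hd
    exact ⟨a, fun α hα => (c α hα).trans (ha α hα)⟩
  | mono i j =>
    refine ⟨fun k => if k = j then 1 else 0, fun α _ => ?_⟩
    rw [sum_eq_single_of_mem j (mem_filter.2 ⟨mem_range.2 (by omega), by omega⟩)
      fun k _ hk => by simp [hk], show K - s - 2 * j = i by omega]
    simp

end IW

/-- Exponent vectors. -/
abbrev Mo : Type := Fin 3 × ℕ →₀ ℕ

/-- The number of power sums in a monomial. -/
noncomputable def ell (m : Mo) : ℕ := weight (fun s : Fin 3 × ℕ => if s.2 = 0 then 0 else 1) m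

/-- The total degree in the marked variables. -/
noncomputable def vv (m : Mo) : ℕ := weight (fun s : Fin 3 × ℕ => if s.2 = 0 then 1 else 0) m

theorem ell_add (m m' : Mo) : ell (m + m') = ell m + ell m' := map_add _ _ _

theorem vv_add (m m' : Mo) : vv (m + m') = vv m + vv m' := map_add _ _ _

theorem ell_w (a : Fin 3) (k : ℕ) : ell (single (a, 0) k) = 0 := by
  simp [ell, Finsupp.weight_single]

theorem ell_p (a : Fin 3) (k : ℕ) : ell (single (a, k + 1) 1) = 1 := by
  simp [ell, Finsupp.weight_single]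

theorem vv_w (a : Fin 3) (k : ℕ) : vv (single (a, 0) k) = k := by
  simp [vv, Finsupp.weight_single]

theorem vv_p (a : Fin 3) (k : ℕ) : vv (single (a, k + 1) 1) = 0 := by
  simp [vv, Finsupp.weight_single]

theorem ell_erase (a : Fin 3) (m : Mo) : ell (m.erase (a, 0)) = ell m := by
  conv_rhs => rw [← Finsupp.single_add_erase (a, 0) m, ell_add, ell_w, zero_add]

theorem vv_erase (a : Fin 3) (m : Mo) : m (a, 0) + vv (m.erase (a, 0)) = vv m := by
  conv_rhs => rw [← Finsupp.single_add_erase (a, 0) m, vv_add, vv_w]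

/-- Integral families of a given weight, supported on exponents with the property `p`. -/
def GT (c : ℤ) (p : Mo → Prop) (f : ℝ → Tri) : Prop :=
  ∀ M, IW (c - ell M) (fun α => coeff M (f α)) ∧ (¬ p M → ∀ α, 0 < α → coeff M (f α) = 0)

/-- Integral families of a given weight. -/
def IT (c : ℤ) (f : ℝ → Tri) : Prop := ∀ M, IW (c - ell M) fun α => coeff M (f α)

section IT

variable {c e : ℤ} {p : Mo → Prop} {f g : ℝ → Tri}

theorem GT.it (h : GT c p f) : IT c f := fun M => (h M).1

theorem GT.congr (h : GT c p f) (e : ∀ α, 0 < α → g α = f α) : GT c p g := fun M =>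
  ⟨(h M).1.congr fun α hα => by rw [e α hα], fun a α hα => by rw [e α hα, (h M).2 a α hα]⟩

theorem GT.zero : GT c p fun _ => 0 := fun M => ⟨by simpa using IW.zero _, by simp⟩

theorem GT.add (h : GT c p f) (h' : GT c p g) : GT c p fun α => f α + g α := fun M =>
  ⟨((h M).1.add (h' M).1).congr fun α _ => coeff_add _ _ _, fun a α hα => by
    rw [coeff_add, (h M).2 a α hα, (h' M).2 a α hα, add_zero]⟩

theorem GT.sum {ι : Type} (t : Finset ι) {f : ι → ℝ → Tri} (h : ∀ i ∈ t, GT c p (f i)) :
    GT c p fun α => ∑ i ∈ t, f i α := fun M =>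
  ⟨(IW.sum t fun i hi => (h i hi M).1).congr fun α _ => coeff_sum _ _ _, fun a α hα => by
    rw [coeff_sum]
    exact sum_eq_zero fun i hi => (h i hi M).2 a α hα⟩

theorem GT.term {d : ℤ} {u : ℝ → ℝ} (hu : IW d u) {m : Mo} (hm : p m) (hc : c = d + ell m) :
    GT c p fun α => u α • monomial m 1 := fun M => by
  by_cases a : m = M
  · subst a
    exact ⟨(hu.cast _ (by omega)).congr fun α _ => by simp, fun a => absurd hm a⟩
  · exact ⟨(IW.zero _).congr fun α _ => by simp [coeff_monomial, a],
      fun _ α _ => by simp [coeff_monomial, a]⟩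

theorem GT.mon {m : Mo} (hm : p m) (hc : c = ell m) : GT c p fun _ => monomial m 1 :=
  (GT.term IW.one hm (by omega)).congr fun α _ => by simp

theorem IT.congr (h : IT c f) (e : ∀ α, 0 < α → g α = f α) : IT c g := fun M =>
  (h M).congr fun α hα => by rw [e α hα]

theorem IT.cast (h : IT c f) (e : ℤ) (he : e = c) : IT e f := he ▸ h

theorem IT.zero : IT c fun _ => 0 := (GT.zero (p := fun _ => True)).it

theorem IT.mon (m : Mo) : IT (ell m) fun _ => monomial m 1 :=
  (GT.mon (p := fun _ => True) trivial rfl).it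

theorem IT.w (a : Fin 3) : IT 0 fun _ => X (a, 0) :=
  (IT.mon (single (a, 0) 1)).cast _ (by simp [ell_w])

theorem IT.sub (h : IT c f) (h' : IT c g) : IT c fun α => f α - g α := fun M =>
  ((h M).sub (h' M)).congr fun α _ => coeff_sub _ _ _ _

theorem IT.sum {ι : Type} (t : Finset ι) {f : ι → ℝ → Tri} (h : ∀ i ∈ t, IT c (f i)) :
    IT c fun α => ∑ i ∈ t, f i α := fun M =>
  (IW.sum t fun i hi => h i hi M).congr fun α _ => coeff_sum _ _ _

theorem IT.mul (h : IT c f) (h' : IT e g) : IT (c + e) fun α => f α * g α := fun M =>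
  (IW.sum (antidiagonal M) fun q hq => ((h q.1).mul (h' q.2)).cast _ (by
    rw [← mem_antidiagonal.1 hq, ell_add]
    push_cast
    ring)).congr fun α _ => coeff_mul _ _ _

/-- Families with a common finite support. -/
def Fn (f : ℝ → Tri) : Prop := ∃ S : Finset Mo, ∀ α, 0 < α → (f α).support ⊆ S

theorem Fn.congr (h : Fn f) (e : ∀ α, 0 < α → g α = f α) : Fn g := by
  obtain ⟨S, h⟩ := h
  exact ⟨S, fun α hα => e α hα ▸ h α hα⟩

theorem Fn.const (f : Tri) : Fn fun _ => f := ⟨f.support, fun _ _ => Subset.rfl⟩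

theorem Fn.add (h : Fn f) (h' : Fn g) : Fn fun α => f α + g α := by
  obtain ⟨S, h⟩ := h
  obtain ⟨S', h'⟩ := h'
  exact ⟨S ∪ S', fun α hα => support_add.trans (union_subset_union (h α hα) (h' α hα))⟩

theorem Fn.smul (h : Fn f) (u : ℝ → ℝ) : Fn fun α => u α • f α := by
  obtain ⟨S, h⟩ := h
  exact ⟨S, fun α hα => support_smul.trans (h α hα)⟩

theorem Fn.sub (h : Fn f) (h' : Fn g) : Fn fun α => f α - g α :=
  (h.add (h'.smul fun _ => -1)).congr fun α _ => by simp [sub_eq_add_neg]

theorem Fn.sum {ι : Type} (t : Finset ι) {f : ι → ℝ → Tri} (h : ∀ i ∈ t, Fn (f i)) :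
    Fn fun α => ∑ i ∈ t, f i α := by
  classical
  induction t using Finset.induction_on with
  | empty => exact Fn.const 0
  | insert a s ha ih =>
    exact ((h a (mem_insert_self _ _)).add (ih fun i hi => h i (mem_insert_of_mem hi))).congr
      fun α _ => sum_insert ha

open Pointwise in
theorem Fn.mul (h : Fn f) (h' : Fn g) : Fn fun α => f α * g α := by
  obtain ⟨S, h⟩ := h
  obtain ⟨S', h'⟩ := h'
  exact ⟨S + S', fun α hα => (support_mul _ _).trans (add_subset_add (h α hα) (h' α hα))⟩

theorem Fn.rename (a : Fin 3) {n : ℕ} {u : ℝ → R} (h : ∀ α, 0 < α → u α ∈ H n) :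
    Fn fun α => rename (Prod.mk a) (u α) :=
  ⟨(Idx n).image (mapDomain (Prod.mk a)), fun α hα m hm => by
    obtain ⟨v, rfl, hv⟩ := coeff_rename_ne_zero _ _ m (mem_support_iff.1 hm)
    exact mem_image_of_mem _ (mem_Idx.2 (mem_H.1 (h α hα) v hv))⟩

theorem expand {S : Finset Mo} {f : Tri} (h : f.support ⊆ S) (D : Tri →ₗ[ℝ] Tri) :
    D f = ∑ m ∈ S, coeff m f • D (monomial m 1) := by
  conv_lhs => rw [f.as_sum, sum_subset h fun m _ a => by rw [notMem_support_iff.1 a, map_zero],
    map_sum]
  exact sum_congr rfl fun m _ => by rw [← map_smul, smul_monomial, smul_eq_mul, mul_one]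

theorem Fn.lin (h : Fn f) (D : Tri →ₗ[ℝ] Tri) : Fn fun α => D (f α) := by
  obtain ⟨S, h⟩ := h
  exact (Fn.sum S fun m _ => (Fn.const (D (monomial m 1))).smul fun α => coeff m (f α)).congr
    fun α hα => expand (h α hα) D

theorem Cl_mono (a : Fin 3) (m : Mo) :
    ∃ m', Cl a (monomial m 1) = monomial m' 1 ∧ ell m' = ell m + 1 := by
  refine ⟨single (a, m (a, 0) + 1) 1 + m.erase (a, 0), ?_, by
    rw [ell_add, ell_p, ell_erase, add_comm]⟩
  rw [Cl_apply, mono_split (a, 0) m, ← mul_assoc, ← pow_succ', Bt, W_pow_mul _ _ (free_erase _ m),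
    if_neg (Nat.succ_ne_zero _), X, monomial_mul, one_mul]

theorem IT.cl (h : IT c f) (h' : Fn f) (a : Fin 3) : IT (c + 1) fun α => Cl a (f α) := by
  obtain ⟨S, h'⟩ := h'
  refine (IT.sum S (f := fun m α => coeff m (f α) • Cl a (monomial m 1)) fun m _ => ?_).congr
    fun α hα => expand (h' α hα) _
  obtain ⟨m', p, q⟩ := Cl_mono a m
  rw [p]
  exact (GT.term (p := fun _ => True) (h m) trivial (by rw [q]; push_cast; ring)).it

end IT

/-- The leading term of the Lax operator. -/
noncomputable def pr (a : Fin 3) (m : Mo) : Tri :=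
  if m (a, 0) = 0 then 0 else monomial (m - single (a, 0) 1 + single (a, 1) 1) 1

theorem gt_Dr (a : Fin 3) (m : Mo) :
    GT (ell m + 1) (fun M => ell M ≤ ell m) fun α => Dr α (Prod.mk a) (monomial m 1) := by
  refine (GT.sum m.support (f := fun s α => (m s : ℝ) •
    (monomial (m - single s 1) 1 * Dr α (Prod.mk a) (X s))) fun s hs => ?_).congr fun α _ => ?_
  · have e : ell m = ell (m - single s 1) + ell (single s 1) := by
      rw [← ell_add, Finsupp.sub_add_single_one_cancel (Finsupp.mem_support_iff.1 hs)]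
    obtain ⟨b, k⟩ := s
    by_cases hb : a = b
    · subst hb
      cases k with
      | zero =>
        rw [ell_w] at e
        refine (GT.term (m := m - single (a, 0) 1 + single (a, 0) 1)
          ((IW.nat (m (a, 0))).mul (IW.mono 1 0)) (by rw [ell_add, ell_w]; omega)
          (by rw [ell_add, ell_w]; push_cast; omega)).congr fun α _ => ?_
        rw [Dr_e α (mk_inj a), dv, if_pos rfl, mul_smul_comm, smul_smul, mon_succ]
        simp
      | succ k =>
        rw [ell_p] at e
        refine (GT.term (m := m - single (a, k + 1) 1 + single (a, 0) (k + 1))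
          (((IW.nat (m (a, k + 1))).mul (IW.mono 0 1)).mul (IW.nat (k + 1)))
          (by rw [ell_add, ell_w]; omega)
          (by rw [ell_add, ell_w]; push_cast; omega)).congr fun α _ => ?_
        rw [Dr_e α (mk_inj a), dv, if_neg k.succ_ne_zero, mul_smul_comm, smul_smul,
          X_pow_eq_monomial, monomial_mul]
        simp [mul_assoc]
    · exact GT.zero.congr fun α _ => by
        rw [Dr_out α fun k' c => hb (congrArg Prod.fst c)]
        simp
  · conv_lhs => rw [Dr, mkDerivation_monomial, one_smul, Finsupp.sum]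
    refine sum_congr rfl fun s _ => ?_
    rw [Dr, mkDerivation_X, smul_eq_mul, ← smul_mul_assoc, smul_monomial, smul_eq_mul, mul_one]

theorem gt_Lx (a : Fin 3) (m : Mo) :
    GT (ell m + 1) (fun M => ell M ≤ ell m ∨ ell M = ell m + 1 ∧ vv M + 2 ≤ vv m)
      fun α => Lx α (Prod.mk a) (monomial m 1) - pr a m := by
  have h1 : GT (ell m + 1) (fun M => ell M ≤ ell m ∨ ell M = ell m + 1 ∧ vv M + 2 ≤ vv m)
      fun α => Dr α (Prod.mk a) (monomial m 1) := fun M =>
    ⟨(gt_Dr a m M).1, fun b => (gt_Dr a m M).2 fun c => b (Or.inl c)⟩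
  cases e : m (a, 0) with
  | zero =>
    refine h1.congr fun α _ => ?_
    rw [pr, if_pos e, sub_zero, Lx_free α (Free.monomial e 1)]
  | succ k =>
    have e' := vv_erase a m
    refine (h1.add (GT.sum (range k) (f := fun j _ => monomial (single (a, j + 1 + 1) 1 +
      single (a, 0) (k - (j + 1)) + m.erase (a, 0)) 1) fun j hj => GT.mon (Or.inr ⟨?_, ?_⟩)
        ?_)).congr fun α _ => ?_
    · rw [ell_add, ell_add, ell_p, ell_w, ell_erase]
      omega
    · rw [vv_add, vv_add, vv_p, vv_w]
      have := mem_range.1 hj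
      omega
    · rw [ell_add, ell_add, ell_p, ell_w, ell_erase]
      push_cast
      omega
    · rw [Lx_apply, W_mono, e, uq, sum_range_succ', add_mul, sum_mul, pr, if_neg (by omega),
        ← add_assoc, sub_eq_iff_eq_add]
      congr 1
      · congr 1
        refine sum_congr rfl fun j _ => ?_
        rw [X_pow_eq_monomial, X, monomial_mul, monomial_mul, one_mul, one_mul,
          Nat.add_sub_cancel]
      · rw [X_pow_eq_monomial, X, monomial_mul, monomial_mul, one_mul, one_mul]
        congr 2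
        conv_rhs => rw [← Finsupp.single_add_erase (a, 0) m, e, Finsupp.single_add, add_right_comm,
          add_tsub_cancel_right]
        simp only [Nat.add_sub_cancel, Nat.sub_zero, zero_add]
        abel

theorem coeff_pr {a : Fin 3} {m M : Mo} (h : coeff M (pr a m) ≠ 0) :
    coeff M (pr a m) = 1 ∧ M + single (a, 0) 1 = m + single (a, 1) 1 := by
  rw [pr] at h ⊢
  split_ifs at h ⊢ with e
  · simp at h
  · rw [coeff_monomial] at h ⊢
    split_ifs at h ⊢ with e'
    · refine ⟨rfl, ?_⟩
      rw [← e', add_right_comm, Finsupp.sub_add_single_one_cancel e]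
    · simp at h

theorem coeff_P0' {s : Fin 3 × ℕ} {m : Mo} (h : m s = 0) (f : Tri) :
    coeff m (P0 s f) = coeff m f := by
  conv_rhs => rw [← P0_add_Sh s f, coeff_add, coeff_X_mul', if_neg (by simpa using h), add_zero]

theorem it_step {x y : Fin 3} (hxy : y ≠ x) {c : ℤ} {Φ Q : ℝ → Tri} (hF : Fn Φ)
    (h0 : IT c fun α => P0 (x, 0) (Φ α)) (hQ : IT (c + 1) Q)
    (he : ∀ α, 0 < α → Lx α (Prod.mk x) (Φ α) - Lx α (Prod.mk y) (Φ α) = Q α) : IT c Φ := by
  obtain ⟨S, hS⟩ := hF
  obtain ⟨K, hK⟩ : ∃ K, ∀ m ∈ S, ell m ≤ K ∧ vv m ≤ K :=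
    ⟨S.sup fun m => ell m + vv m, fun m hm => by
      have := le_sup (f := fun m => ell m + vv m) hm
      omega⟩
  have out : ∀ m, m ∉ S → IW (c - ell m) fun α => coeff m (Φ α) := fun m hm =>
    (IW.zero _).congr fun α hα => notMem_support_iff.1 fun a => hm (hS α hα a)
  suffices key : ∀ i j k m, m ∈ S → K - ell m = i → K - vv m = j → m (x, 0) = k →
      IW (c - ell m) fun α => coeff m (Φ α) from fun m => by
    by_cases hm : m ∈ S
    exacts [key _ _ _ m hm rfl rfl rfl, out m hm]
  intro i
  induction i using Nat.strong_induction_on with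
  | _ i ihi =>
  intro j
  induction j using Nat.strong_induction_on with
  | _ j ihj =>
  intro k
  induction k using Nat.strong_induction_on with
  | _ k ihk =>
  intro m0 hm0 hi hj hk
  by_cases hz : m0 (x, 0) = 0
  · exact (h0 m0).congr fun α _ => (coeff_P0' hz _).symm
  obtain ⟨M, hM⟩ : ∃ M, M = m0 - single (x, 0) 1 + single (x, 1) 1 := ⟨_, rfl⟩
  have hM' : M + single (x, 0) 1 = m0 + single (x, 1) 1 := by
    rw [hM, add_right_comm, Finsupp.sub_add_single_one_cancel hz]
  have l0 : ell M = ell m0 + 1 := by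
    have := congrArg ell hM'
    rwa [ell_add, ell_add, ell_w, ell_p x 0, add_zero] at this
  have v0 : vv M + 1 = vv m0 := by
    have := congrArg vv hM'
    rwa [vv_add, vv_add, vv_w, vv_p x 0, add_zero] at this
  have rest : ∀ a : Fin 3, IW (c - ell m0) fun α => ∑ m ∈ S, coeff m (Φ α) *
      coeff M (Lx α (Prod.mk a) (monomial m 1) - pr a m) := fun a => IW.sum S fun m hm => by
    have g := gt_Lx a m M
    have b := hK m hm
    have b0 := hK m0 hm0
    by_cases p : ell M ≤ ell m ∨ ell M = ell m + 1 ∧ vv M + 2 ≤ vv m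
    · refine (IW.mul (?_ : IW (c - ell m) _) g.1).cast _ (by rw [l0]; push_cast; ring)
      rcases p with p | p
      · exact ihi _ (by omega) _ _ m hm rfl rfl rfl
      · exact ihj _ (by omega) _ m hm (by omega) rfl rfl
    · exact (IW.zero _).congr fun α hα => by rw [g.2 p α hα, mul_zero]
  have py : IW (c - ell m0) fun α => ∑ m ∈ S, coeff m (Φ α) * coeff M (pr y m) :=
    IW.sum S fun m hm => by
      by_cases p : coeff M (pr y m) = 0
      · exact (IW.zero _).congr fun α _ => by rw [p, mul_zero]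
      · obtain ⟨p, q⟩ := coeff_pr p
        have l1 := congrArg ell q
        have v1 := congrArg vv q
        have x1 := DFunLike.congr_fun q (x, 0)
        have x0 := DFunLike.congr_fun hM' (x, 0)
        rw [ell_add, ell_add, ell_w, ell_p y 0] at l1
        rw [vv_add, vv_add, vv_w, vv_p y 0] at v1
        simp only [Finsupp.add_apply, Finsupp.single_apply, Prod.mk.injEq, hxy, false_and, if_false,
          one_ne_zero, and_false, if_true] at x1 x0
        exact ((ihk _ (by omega) m hm (by omega) (by omega) rfl).cast _ (by omega)).congr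
          fun α _ => by rw [p, mul_one]
  refine (((((hQ M).cast _ (by rw [l0]; push_cast; ring)).add (rest y)).add py).sub
    (rest x)).congr fun α hα => ?_
  have px : ∑ m ∈ S, coeff m (Φ α) * coeff M (pr x m) = coeff m0 (Φ α) := by
    rw [sum_eq_single_of_mem m0 hm0 fun m _ hm => by
      rw [not_not.1 fun p => hm (add_right_cancel ((coeff_pr p).2.symm.trans hM')), mul_zero],
      pr, if_neg hz, ← hM, coeff_monomial, if_pos rfl, mul_one]
  rw [← he α hα, ← px, coeff_sub, expand (hS α hα) (Lx α (Prod.mk x)),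
    expand (hS α hα) (Lx α (Prod.mk y))]
  simp only [coeff_sum, coeff_smul, coeff_sub, smul_eq_mul, mul_sub, sum_sub_distrib]
  ring

variable {N : ℕ} {ψ J : ℝ → ℕ → Ix → R} {x y z : Fin 3}

theorem fn_Ph (s : ∀ α, 0 < α → Sys α N (ψ α) (J α)) {n : ℕ} (hn : n ≤ N) :
    Fn fun α => Ph α x y z (ψ α) (J α) n := by
  have hT : ∀ n ≤ N, Fn fun α => T3 α x y z n (ψ α n) := fun n hn => Fn.sum _ fun m hm => by
    have a := fun α hα => ((s α hα).lev n hn).ob.hom m (mem_Idx.1 hm)
    exact (((Fn.rename x a).mul (Fn.rename y a)).mul (Fn.rename z a)).smul _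
  have hF : ∀ n ≤ N, Fn fun α => phi α x y z n (J α n) := fun n hn => Fn.sum _ fun m hm => by
    have a := fun α hα => ((s α hα).lev n hn).J_hom (mem_Idx.1 (mem_filter.1 hm).1)
      (mem_filter.1 hm).2
    exact (((Fn.rename x a).mul (Fn.rename y a)).mul (Fn.rename z a)).smul _
  induction n using Nat.strong_induction_on with
  | _ n ih =>
    refine ((hT n hn).sub (Fn.sum (range n) fun i hi => (ih i (mem_range.1 hi) ?_).mul
      (hF (n - i) (by omega)))).congr fun α _ => quo_eq _ _ n
    have := mem_range.1 hi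
    omega

theorem it_Ph (s : ∀ α, 0 < α → Sys α N (ψ α) (J α)) (hxy : y ≠ x) (hxz : z ≠ x) (hyz : z ≠ y)
    {n : ℕ} (hn : n ≤ N) : IT n fun α => Ph α x y z (ψ α) (J α) n := by
  induction n using Nat.strong_induction_on with
  | _ n ih =>
    cases n with
    | zero => exact ((IT.mon 0).cast _ (by simp [ell])).congr fun α hα => (s α hα).Ph_zero
    | succ n =>
      have g : ∀ a b : Fin 3, IT ((n + 1 : ℕ) + 1) fun α => ∑ q ∈ antidiagonal (n + 1),
          Ph α x y z (ψ α) (J α) q.1 * Gx a b z (Ph α x y z (ψ α) (J α)) q.2 := fun a b =>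
        IT.sum _ fun ⟨i, j⟩ hq => by
          have e : i + j = n + 1 := mem_antidiagonal.1 hq
          cases j with
          | zero => exact IT.zero.congr fun α _ => by simp [Gx, shf]
          | succ j =>
            have f := fn_Ph (x := x) (y := y) (z := z) s (n := j) (by omega)
            exact ((ih i (by omega) (by omega)).mul ((IT.w a).mul
              (((ih j (by omega) (by omega)).cl f z).cl (f.lin _) b))).cast _ (by omega)
      refine it_step hxy (fn_Ph s hn) ?_ ((g y x).sub (g x y)) fun α hα => ?_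
      · exact (((IT.w y).mul ((IT.w z).mul ((ih n (by omega) (by omega)).cl
          (fn_Ph s (by omega)) x))).cast _ (by omega)).congr
          fun α hα => (s α hα).Ph_P0 hα hxy hxz hn
      · rw [sub_eq_sub_iff_add_eq_add, (s α hα).Ph_eq hα hxy hxz hyz hn, add_comm]

theorem ell_E3 {n : ℕ} (μ ν τ : n.Partition) :
    ell (expo3 μ ν τ) = μ.parts.card + ν.parts.card + τ.parts.card := by
  have : ∀ (a : Fin 3) (l : n.Partition), ell (mapDomain (Prod.mk a) (toF l)) = l.parts.card :=
    fun a l => by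
      rw [ell, weight_mapDomain, ← G_zero_toF, G]
      congr 2
      funext k
      cases k <;> simp
  rw [expo3_eq, E3, ell_add, ell_add, this, this, this]

theorem integral (n : ℕ) (μ ν τ : n.Partition) : ∃ a : ℕ → ℤ, ∀ α : ℝ, 0 < α →
    ∀ θ, IsJack α θ → hcoef α θ μ ν τ =
      ∑ j ∈ range (n + 2 + 1) with 2 * j + (μ.parts.card + ν.parts.card + τ.parts.card) ≤ n + 2,
        a j * (α - 1) ^ (n + 2 - (μ.parts.card + ν.parts.card + τ.parts.card) - 2 * j) * α ^ j := by
  cases n with
  | zero => exact ⟨0, by simp [hcoef]⟩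
  | succ n =>
    have ex : ∀ α : ℝ, ∃ ψ J, 0 < α → Sys α (n + 1) ψ J := fun α => by
      by_cases hα : 0 < α
      · obtain ⟨ψ, J, s⟩ := exists_sys hα (n + 1)
        exact ⟨ψ, J, fun _ => s⟩
      · exact ⟨0, 0, fun a => absurd a hα⟩
    choose ψ J s using ex
    have f := fn_Ph (x := 0) (y := 1) (z := 2) s n.le_succ
    have i := (((it_Ph (x := 0) (y := 1) (z := 2) s (by decide) (by decide) (by decide)
      n.le_succ).cl f 2).cl (f.lin _) 1).cl ((f.lin _).lin _) 0 (expo3 μ ν τ)
    obtain ⟨a, ha⟩ := i.extract (n + 1 + 2) (μ.parts.card + ν.parts.card + τ.parts.card)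
      (by rw [ell_E3]; push_cast; ring)
    refine ⟨a, fun α hα θ h => ?_⟩
    rw [← ha α hα]
    dsimp only
    rw [← (s α hα).log_eq (x := 0) (y := 1) (z := 2) hα h (by decide) (by decide) (by decide)
      le_rfl, coeff_smul, hcoef, smul_eq_mul]

end Pool.Agent.Lib.MP_fcdd89_co
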