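import Pool.Agent.Lib.MP_fcdd89_co.Bridge

/-!
Existence and uniqueness of the Jack functions.
-/

set_option autoImplicit false

open Finset MvPolynomial
open Finsupp (single weight)

namespace Pool.Agent.Lib.MP_fcdd89_co

variable {n N : ℕ} {α : ℝ} {ψ J f g : Ix → R}

/-- Orthogonal, triangular and normalised families. -/
structure Fam (α : ℝ) (N n : ℕ) (f : Ix → R) : Prop where
  hom : ∀ l, sz l = n → l 0 = 0 → f l ∈ H n
  free : ∀ l, sz l = n → l 0 = 0 → Free 0 (f l)
  nrm : ∀ l, sz l = n → l 0 = 0 → coeff (single 1 n) (f l) = 1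
  orth : ∀ l l', sz l = n → sz l' = n → l 0 = 0 → l' 0 = 0 → l ≠ l' → B α (f l) (f l') = 0
  sup : ∀ l, sz l = n → l 0 = 0 → f l ∈ U N fun m => Le (shape m) l

theorem Lev.fam (h : Lev α N n ψ J) : Fam α N n J :=
  ⟨fun _ => h.J_hom, fun _ => h.J_free, h.nrm, h.Jorth, h.Jsup⟩

theorem bas_cases' (ψ f : Ix → R) {M : Ix} (hM : sz M = n + 1) :
    M 0 = 0 ∧ bas ψ f M = f M ∨ ∃ m, sz m = n ∧ M = m + single 0 1 ∧ bas ψ f M = X 0 * ψ m := by
  by_cases a : M 0 = 0
  · exact Or.inl ⟨a, if_pos a⟩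
  · refine Or.inr ⟨M - single 0 1, ?_, (pred_succ a).symm, if_neg a⟩
    rw [← pred_succ a, sz_succ] at hM
    omega

theorem Fam.bas_ob (F : Fam α N (n + 1) f) (h : Lev α N n ψ J) : OB α (n + 1) (bas ψ f) := by
  refine ⟨fun M hM => ?_, fun M hM => ?_, fun M M' hM hM' e => ?_⟩
  · obtain ⟨a, b⟩ | ⟨m, a, -, b⟩ := bas_cases' ψ f hM <;> rw [b]
    exacts [F.hom M hM a, H_w (h.ob.hom m a)]
  · obtain ⟨a, b⟩ | ⟨m, a, -, b⟩ := bas_cases' ψ f hM <;> rw [b]
    · intro c
      simpa [c] using F.nrm M hM a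
    · exact mul_ne_zero (X_ne_zero _) (h.ob.ne m a)
  · obtain ⟨a, b⟩ | ⟨m, a, c, b⟩ := bas_cases' ψ f hM <;>
      obtain ⟨a', b'⟩ | ⟨m', a', c', b'⟩ := bas_cases' ψ f hM' <;> rw [b, b']
    · exact F.orth _ _ hM hM' a a' e
    · exact B_free_w (F.free M hM a) _
    · exact B_w_free _ (F.free M' hM' a')
    · rw [B_w_w]
      exact h.ob.orth _ _ a a' fun d => e (by rw [c, c', d])

theorem Fam.dl (F : Fam α N (n + 1) f) (F' : Fam α N (n + 1) g) (h : Lev α N n ψ J) (hα : 0 < α)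
    (hn : n < N) {k l : Ix} (hk : sz k = n + 1) (hl : sz l = n + 1) (k0 : k 0 = 0) (l0 : l 0 = 0)
    (e : ¬ Le k l) : B α (g l) (f k) = 0 := by
  have := (F.bas_ob h).dl hα hn (p := fun m => Le (shape m) l) (fun M hM p => by
    obtain ⟨a, b⟩ | ⟨m, a, c, b⟩ := bas_cases' ψ f hM <;> rw [b]
    · exact U_mono (fun m q => q.trans (shape_of_zero a ▸ p)) (F.sup M hM a)
    · rw [c, shape_succ] at p
      exact (U_w (T := fun k => Le k l)).2 (U_mono (fun m q => q.trans p) (h.sup m a)))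
    (F'.hom l hl l0) (F'.sup l hl l0) hk (by rwa [shape_of_zero k0])
  rwa [bas, if_pos k0] at this

theorem Fam.uniq (F : Fam α N (n + 1) f) (F' : Fam α N (n + 1) g) (h : Lev α N n ψ J) (hα : 0 < α)
    (hn : n < N) {l : Ix} (hl : sz l = n + 1) (l0 : l 0 = 0) : g l = f l := by
  have ex := (F.bas_ob h).expand hα (F'.hom l hl l0)
  rw [sum_eq_single_of_mem l (mem_Idx.2 hl) fun M hM e => by
    obtain ⟨a, b⟩ | ⟨m, a, c, b⟩ := bas_cases' ψ f (mem_Idx.1 hM) <;> rw [b]
    · have : B α (g l) (f M) = 0 := by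
        by_cases p : Le M l
        · rw [B_symm]
          exact F'.dl F h hα hn hl (mem_Idx.1 hM) l0 a fun q => e (p.antisymm q (a.trans l0.symm))
        · exact F.dl F' h hα hn (mem_Idx.1 hM) hl a l0 p
      rw [this, zero_div, zero_smul]
    · rw [B_free_w (F'.free l hl l0), zero_div, zero_smul], bas, if_pos l0] at ex
  have := congrArg (coeff (single 1 (n + 1))) ex
  rw [coeff_smul, F.nrm l hl l0, F'.nrm l hl l0, smul_eq_mul, mul_one] at this
  rw [ex, ← this, one_smul]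

theorem Fam.zero (F : Fam α N 0 f) : f 0 = 1 := by
  ext m
  by_cases a : m = 0
  · simpa [a] using F.nrm 0 (by simp [sz]) rfl
  · rw [coeff_one, if_neg (Ne.symm a)]
    exact not_not.1 fun b => a (sz_eq_zero (mem_H.1 (F.hom 0 (by simp [sz]) rfl) m b))

variable {θ : ∀ n : ℕ, n.Partition → n.Partition → ℝ}

theorem IsJack.fam (h : IsJack α θ) (hn : n ≤ N) :
    Fam α N n (Function.extend toF (fun l => poly (θ n l)) 0) := by
  refine ⟨fun l a b => ?_, fun l a b => ?_, fun l a b => ?_, fun l l' a a' b b' e => ?_,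
    fun l a b => ?_⟩ <;> obtain ⟨l, rfl⟩ := exists_toF b a <;> rw [toF_inj.extend_apply]
  · exact poly_hom _
  · exact poly_free _
  · have := h.norm n l
    rw [coeff_ones] at this
    exact (mul_eq_left₀ (Nat.cast_ne_zero.2 n.factorial_ne_zero)).1 this
  · obtain ⟨l', rfl⟩ := exists_toF b' a'
    rw [toF_inj.extend_apply, B_poly]
    exact h.orth n l l' fun c => e (c ▸ rfl)
  · refine fun m hm => not_not.1 fun c => hm ?_
    have d := co_hom (poly_hom _) c
    obtain ⟨k, hk⟩ := exists_toF (shape_zero m) ((sz_shape m).trans d)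
    rw [co_shape (d ▸ hn) (poly_free _), ← hk, ← coeff_expo hn] at c
    change Le (shape m) (toF l)
    exact hk ▸ (dom_iff k l).1 (h.tri n l k c)

theorem Sys.jack {ψ J : ℕ → Ix → R} (s : Sys α N ψ J) (hα : 0 < α) (h : IsJack α θ) (hn : n ≤ N)
    (l : n.Partition) : poly (θ n l) = J n (toF l) := by
  have F := h.fam hn
  rw [← toF_inj.extend_apply (fun l => poly (θ n l)) 0 l]
  cases n with
  | zero => rw [sz_eq_zero (sz_toF l), F.zero, (s.lev 0 hn).fam.zero]
  | succ n =>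
    exact (s.lev _ hn).fam.uniq F (s.lev n (Nat.le_of_succ_le hn)) hα hn (sz_toF l) (toF_zero l)

theorem exists_jack (hα : 0 < α) : ∃ θ, IsJack α θ := by
  choose ψ J s using exists_sys hα
  have F : ∀ n, Fam α n n (J n n) := fun n => ((s n).lev n le_rfl).fam
  have e : ∀ (n : ℕ) (l : n.Partition),
      (poly fun m : n.Partition => coeff (toF m) (J n n (toF l))) = J n n (toF l) := fun n l =>
    poly_coeff ((F n).free _ (sz_toF l) (toF_zero l)) ((F n).hom _ (sz_toF l) (toF_zero l))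
  refine ⟨fun n l m => coeff (toF m) (J n n (toF l)), fun n l k a => ?_, fun n l k a => ?_,
    fun n l => ?_⟩
  · rw [← B_poly, e, e]
    exact (F n).orth _ _ (sz_toF l) (sz_toF k) (toF_zero l) (toF_zero k) (toF_inj.ne a)
  · rw [coeff_expo le_rfl, e] at a
    refine (dom_iff k l).2 (not_not.1 fun b => a ((F n).sup _ (sz_toF l) (toF_zero l) _ ?_))
    change ¬ Le (shape (toF k)) (toF l)
    rwa [shape_of_zero (toF_zero k)]
  · rw [coeff_ones, e, (F n).nrm _ (sz_toF l) (toF_zero l), mul_one]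

theorem Sys.series_eq {ψ J : ℕ → Ix → R} (s : Sys α N ψ J) (hα : 0 < α) (h : IsJack α θ)
    (hn : n ≤ N) : PowerSeries.coeff n (series α θ) = ∑ l ∈ (Idx n).filter (· 0 = 0),
      (B α (J n l) (J n l))⁻¹ • (rename (Prod.mk 0) (J n l) * rename (Prod.mk 1) (J n l) *
        rename (Prod.mk 2) (J n l)) := by
  have e : ∀ (a : Fin 3) (l : n.Partition), fn a (θ n l) = rename (Prod.mk a) (J n (toF l)) :=
    fun a l => by
      rw [← s.jack hα h hn, rename_eq_aeval, ← aeval_poly]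
      rfl
  rw [series, PowerSeries.coeff_mk, ← sum_toF]
  refine sum_congr rfl fun l _ => ?_
  rw [e, e, e, hook_eq, s.norm hα hn (sz_toF l) (toF_zero l) (galois l) (G_zero_toF l).le]

end Pool.Agent.Lib.MP_fcdd89_co
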