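import Pool.Agent.Lib.MP_fcdd89_co.Jack

/-!
The two point kernel and its recursion.
-/

set_option autoImplicit false

open Finset MvPolynomial
open Finsupp (single weight)

namespace Pool.Agent.Lib.MP_fcdd89_co

section Gen

variable {σ : Type} [DecidableEq σ] {e : ℕ → σ} {α : ℝ}

theorem free_rename {τ : Type} {e : τ → σ} {s : σ} {f : MvPolynomial τ ℝ}
    (h : ∀ k, e k = s → ∀ m, coeff m f ≠ 0 → m k = 0) : Free s (rename e f) := fun m hm => by
  obtain ⟨u, rfl, hu⟩ := coeff_rename_ne_zero e f m hm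
  refine Finsupp.notMem_support_iff.1 fun a => ?_
  obtain ⟨k, b, c⟩ := mem_image.1 (Finsupp.mapDomain_support a)
  exact Finsupp.mem_support_iff.1 b (h k c u hu)

theorem W_rename (he : Function.Injective e) {q : ℕ → R} {q' : ℕ → MvPolynomial σ ℝ}
    (hq : ∀ a, q' a = rename e (q a)) (f : R) : W (e 0) q' (rename e f) = rename e (W 0 q f) := by
  have : W (e 0) q' ∘ₗ (rename e).toLinearMap = (rename e).toLinearMap ∘ₗ W 0 q :=
    lin_ext_free 0 fun a p hp => by
      simp only [LinearMap.comp_apply, AlgHom.toLinearMap_apply, map_mul, map_pow, rename_X,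
        W_pow_mul q a hp]
      rw [W_pow_mul _ _ (free_rename fun k hk => by
        obtain rfl := he hk
        exact hp), hq]
  exact LinearMap.congr_fun this f

theorem Dr_rename (he : Function.Injective e) (f : R) :
    Dr α e (rename e f) = rename e (Dr α id f) := by
  induction f using MvPolynomial.induction_on with
  | C a => simp
  | add f g a b => simp only [map_add, a, b]
  | mul_X f k a =>
    have := Dr_e α (e := id) Function.injective_id k
    simp only [id] at this
    simp only [map_mul, rename_X, Derivation.leibniz, a, Dr_e α he, smul_eq_mul, map_add, this]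
    congr 2
    simp only [dv]
    split_ifs <;> simp

theorem der_zero {D : Derivation ℝ (MvPolynomial σ ℝ) (MvPolynomial σ ℝ)} {g : MvPolynomial σ ℝ}
    (h : ∀ s, Free s g ∨ D (X s) = 0) : D g = 0 :=
  derivation_eq_zero_of_forall_mem_vars fun s hs => (h s).resolve_left fun a => by
    obtain ⟨d, b, c⟩ := (mem_vars_iff_mem_support s).1 hs
    exact Finsupp.mem_support_iff.1 c (a d (mem_support_iff.1 b))

theorem Lx_emb (he : Function.Injective e) (f : R) {g : MvPolynomial σ ℝ} (hg : ∀ k, Free (e k) g) :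
    Lx α e (rename e f * g) = rename e (LL α f) * g := by
  rw [Lx_mul_free α _ (hg 0), Lx_free α (hg 0), der_zero (g := g) fun s => by
    by_cases a : ∃ k, e k = s
    · obtain ⟨k, rfl⟩ := a
      exact Or.inl (hg k)
    · exact Or.inr (Dr_out α (not_exists.1 a)), mul_zero, add_zero, Lx_apply, Dr_rename he,
    W_rename he (q := uq id) (fun a => by simp [uq]), ← map_add]
  rfl

theorem Bt_mul_free (f : MvPolynomial σ ℝ) {g : MvPolynomial σ ℝ} (hg : Free (e 0) g) :
    Bt e (f * g) = Bt e f * g := W_mul_free _ f hg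

theorem Bt_emb (he : Function.Injective e) (f : R) {g : MvPolynomial σ ℝ} (hg : Free (e 0) g) :
    Bt e (rename e f * g) = rename e (BB f) * g := by
  rw [Bt_mul_free _ hg, Bt, W_rename he (q := fun a => if a = 0 then 0 else X a)
    fun a => by split_ifs <;> simp]
  rfl

theorem P0_emb (he : Function.Injective e) (f : R) {g : MvPolynomial σ ℝ} (hg : Free (e 0) g) :
    P0 (e 0) (rename e f * g) = rename e (P0 0 f) * g := by
  rw [P0, W_mul_free _ _ hg, W_rename he (q := fun a => if a = 0 then 1 else 0)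
    fun a => by split_ifs <;> simp]
  rfl

theorem eps_BB (s : σ) (f : R) : rename (fun _ => s) (BB (X 0 * f)) =
    X s * rename (fun _ => s) (P0 0 f) + rename (fun _ => s) (BB f) := by
  have : (rename fun _ => s).toLinearMap ∘ₗ BB ∘ₗ LinearMap.mulLeft ℝ (X 0) =
      LinearMap.mulLeft ℝ (X s) ∘ₗ (rename fun _ => s).toLinearMap ∘ₗ P0 0 +
        (rename fun _ => s).toLinearMap ∘ₗ BB := lin_ext_free 0 fun a p hp => by
    simp only [LinearMap.comp_apply, AlgHom.toLinearMap_apply, LinearMap.mulLeft_apply,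
      LinearMap.add_apply]
    rw [← mul_assoc, ← pow_succ', BB_pow a hp]
    cases a with
    | zero => simp [P0_free hp, BB_free hp]
    | succ a => rw [BB_pow a hp, pow_succ', mul_assoc, P0_X_mul]; simp
  exact LinearMap.congr_fun this f

end Gen

variable {n N : ℕ} {α : ℝ} {ψ J ψ' J' : Ix → R} {x y z : Fin 3}

theorem Kw_one (f : R) : Kw 1 f = P0 0 (Sh 0 f) := by
  have : Kw 1 = P0 0 ∘ₗ Sh 0 := lin_ext_free 0 fun a p hp => by
    rw [Kw, W_pow_mul _ _ hp, LinearMap.comp_apply]
    rcases a with _ | _ | a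
    · simp [Sh_free hp]
    · simp [Sh_X_mul, P0_free hp]
    · rw [pow_succ', mul_assoc, Sh_X_mul, pow_succ', mul_assoc, P0_X_mul]
      simp
  exact LinearMap.congr_fun this f

theorem Link.deriv (k : Link α n ψ ψ' J') (hα : 0 < α) (h : Lev α N n ψ J)
    (h' : Lev α N (n + 1) ψ' J') {l : Ix} (hl : sz l = n + 1) (h0 : l 0 = 0) :
    α • pderiv 1 (J' l) = ∑ m ∈ Idx n,
      (if up m = l then B α (J' l) (J' l) / B α (ψ m) (ψ m) else 0) • J (shape m) := by
  have := Kw_LL (α := α) one_ne_zero (h'.J_free hl h0)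
  rw [Nat.cast_one, mul_one] at this
  rw [← this, Kw_one, h.ob.expand hα (H_Sh (H_LL (α := α) (h'.J_hom hl h0))), map_sum]
  refine sum_congr rfl fun m hm => ?_
  have a := mem_Idx.1 hm
  rw [map_smul, h.p0 m a, B_symm, ← adj_w, ← adj_LL, h.LL_w a, map_add, map_smul,
    LinearMap.add_apply, LinearMap.smul_apply, B_w_free _ (h'.J_free hl h0), smul_zero, add_zero,
    ← k.up_eq m a]
  split_ifs with e
  · rw [e]
  · rw [h'.Jorth _ _ (by rw [sz_up, a]) hl (up_zero m) h0 e, zero_div]

theorem OB.kernel {A : Type} [CommRing A] [Algebra ℝ A] {b b' : Ix → R} (hα : 0 < α)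
    (h : OB α n b) (h' : OB α n b') (p q : R →ₗ[ℝ] A) {g g' : Ix → A}
    (hg : ∀ M M', sz M = n → sz M' = n → B α (b M) (b' M') ≠ 0 → g M = g' M') :
    ∑ M ∈ Idx n, (B α (b M) (b M))⁻¹ • (p (b M) * q (b M) * g M) =
      ∑ M ∈ Idx n, (B α (b' M) (b' M))⁻¹ • (p (b' M) * q (b' M) * g' M) := by
  rw [sum_congr rfl (g := fun M => ∑ M' ∈ Idx n, (B α (b M) (b' M') / B α (b M) (b M) /
      B α (b' M') (b' M')) • (p (b M) * q (b' M') * g' M')) fun M hM => by
    conv_lhs => rw [congrArg q (h'.expand hα (h.hom M (mem_Idx.1 hM)))]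
    rw [map_sum, mul_sum, sum_mul, smul_sum]
    refine sum_congr rfl fun M' hM' => ?_
    by_cases a : B α (b M) (b' M') = 0
    · simp [a]
    · rw [hg M M' (mem_Idx.1 hM) (mem_Idx.1 hM') a, map_smul, mul_smul_comm, smul_mul_assoc,
        smul_smul]
      congr 1
      ring, sum_comm]
  refine sum_congr rfl fun M' hM' => ?_
  conv_rhs => rw [congrArg p (h.expand hα (h'.hom M' (mem_Idx.1 hM')))]
  rw [map_sum, sum_mul, sum_mul, smul_sum]
  refine sum_congr rfl fun M hM => ?_
  rw [map_smul, smul_mul_assoc, smul_mul_assoc, smul_smul, B_symm (b' M') (b M)]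
  congr 1
  ring

theorem sum_Idx_succ {M : Type} [AddCommMonoid M] (F : Ix → M) : ∑ m ∈ Idx (n + 1), F m =
    ∑ m ∈ (Idx (n + 1)).filter (· 0 = 0), F m + ∑ m ∈ Idx n, F (m + single 0 1) := by
  rw [← sum_filter_add_sum_filter_not _ (· 0 = 0)]
  congr 1
  refine (sum_bij (fun m _ => m + single 0 1) (fun m hm => mem_filter.2
    ⟨mem_Idx.2 (by rw [sz_succ, mem_Idx.1 hm]), by simp⟩) (fun _ _ _ _ h => add_right_cancel h)
    (fun m hm => ⟨m - single 0 1, mem_Idx.2 ?_, pred_succ (mem_filter.1 hm).2⟩) fun _ _ => rfl).symm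
  have := mem_Idx.1 (mem_filter.1 hm).1
  rw [← pred_succ (mem_filter.1 hm).2, sz_succ] at this
  omega

theorem mk_inj (a : Fin 3) : Function.Injective (Prod.mk a : ℕ → Fin 3 × ℕ) := Prod.mk_right_injective a

/-- Specialisation of all the power sums to one variable. -/
noncomputable def eps (z : Fin 3) : R →ₐ[ℝ] Tri := rename fun _ => (z, 0)

theorem free_em {a b : Fin 3} (h : a ≠ b) (k : ℕ) (f : R) : Free (b, k) (rename (Prod.mk a) f) :=
  free_rename fun _ c => absurd (congrArg Prod.fst c) h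

theorem free_em0 (a b : Fin 3) {f : R} (hf : Free 0 f) : Free (b, 0) (rename (Prod.mk a) f) :=
  free_rename fun k c => by
    obtain rfl : k = 0 := congrArg Prod.snd c
    exact hf

theorem free_eps {a b : Fin 3} (h : a ≠ b) (k : ℕ) (f : R) : Free (b, k) (eps a f) :=
  free_rename fun _ c => absurd (congrArg Prod.fst c) h

variable (x y z α) in
/-- The kernel with two marked points. -/
noncomputable def Phi (n : ℕ) (ψ J : Ix → R) : Tri := ∑ m ∈ Idx n, (B α (ψ m) (ψ m))⁻¹ •
  (rename (Prod.mk x) (ψ m) * rename (Prod.mk y) (ψ m) * eps z (J (shape m)))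

variable (x y z α) in
/-- The specialised series. -/
noncomputable def taus (n : ℕ) (J : Ix → R) : Tri := ∑ l ∈ (Idx n).filter (· 0 = 0),
  (B α (J l) (J l))⁻¹ • (rename (Prod.mk x) (J l) * rename (Prod.mk y) (J l) * eps z (J l))

theorem Lev.tau_free (h : Lev α N n ψ J) {a : Fin 3} (ha : z ≠ a) :
    Free (a, 0) (taus α x y z n J) :=
  Free.sum _ fun l hl => by
    have := h.J_free (mem_Idx.1 (mem_filter.1 hl).1) (mem_filter.1 hl).2
    exact (((free_em0 _ _ this).mul (free_em0 _ _ this)).mul (free_eps ha _ _)).smul _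

theorem Link.Phi_succ (k : Link α n ψ ψ' J') (hα : 0 < α) (h : Lev α N n ψ J)
    (h' : Lev α N (n + 1) ψ' J') (hxy : y ≠ x) (hxz : z ≠ x) :
    Phi α x y z (n + 1) ψ' J' = taus α x y z (n + 1) J' + X (x, 0) * (X (y, 0) *
      (Lx α (Prod.mk x) (Phi α x y z n ψ J) + X (z, 0) * Phi α x y z n ψ J)) := by
  have := h'.ob.kernel hα (h'.fam.bas_ob h) (rename (Prod.mk x)).toLinearMap
    (rename (Prod.mk y)).toLinearMap (g := fun M => eps z (J' (shape M)))
    (g' := fun M => eps z (J' (shape M))) fun M M' a a' b => by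
      obtain ⟨c, d⟩ | ⟨m, c, d, f⟩ := bas_cases' ψ J' a'
      · rw [d, B_symm, h'.B_J a' c a] at b
        rw [shape_of_zero c, (ite_ne_right_iff.1 b).1]
      · rw [d, shape_succ, not_not.1 fun g => b (f ▸ k.blk M m a c g)]
  rw [sum_Idx_succ (n := n) fun M => (B α (bas ψ J' M) (bas ψ J' M))⁻¹ • _] at this
  refine this.trans (congrArg₂ _ (sum_congr rfl fun l hl => ?_) ?_)
  · rw [bas, if_pos (mem_filter.1 hl).2, shape_of_zero (mem_filter.1 hl).2]
    rfl
  · rw [Phi, map_sum, mul_sum, ← sum_add_distrib, mul_sum, mul_sum]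
    refine sum_congr rfl fun m hm => ?_
    have a := mem_Idx.1 hm
    rw [bas_succ, B_w_w, shape_succ, map_smul, mul_assoc (rename _ (ψ m)),
      Lx_emb (mk_inj x) _ fun k => (free_em hxy k _).mul (free_eps hxz k _), k.up_eq m a, eps,
      eps_BB, ← P0_LL (α := α), h.eig m a]
    simp only [map_smul, h.p0 m a, AlgHom.toLinearMap_apply, map_mul, rename_X]
    simp only [smul_eq_C_mul]
    ring

theorem Lev.Lx_P0 (h : Lev α N n ψ J) (hxy : y ≠ x) (hxz : z ≠ x) (hyz : z ≠ y) :
    Lx α (Prod.mk x) (P0 (y, 0) (Phi α x y z n ψ J)) = Bt (Prod.mk y) (Phi α x y z n ψ J) := by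
  rw [Phi, map_sum, map_sum, map_sum]
  refine sum_congr rfl fun m hm => ?_
  have a := mem_Idx.1 hm
  have b := (free_em hxy.symm 0 (ψ m)).mul (free_eps hyz 0 (J (shape m)))
  rw [map_smul, map_smul, map_smul, mul_comm (rename _ (ψ m)), mul_assoc, P0_emb (mk_inj y) _ b,
    Bt_emb (mk_inj y) _ b, mul_left_comm,
    Lx_emb (mk_inj x) _ fun k => (free_em hxy k _).mul (free_eps hxz k _), ← P0_LL (α := α),
    h.eig m a]
  simp only [map_smul, smul_mul_assoc, mul_smul_comm, mul_left_comm, mul_assoc]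

theorem Sys.P0_Phi {ψ J : ℕ → Ix → R} (s : Sys α N ψ J) (hα : 0 < α) (hn : n ≤ N) (hxy : y ≠ x)
    (hxz : z ≠ x) (hyz : z ≠ y) :
    P0 (y, 0) (Phi α x y z n (ψ n) (J n)) = taus α x y z n (J n) := by
  cases n with
  | zero =>
    have e : Idx 0 = {0} := by
      ext m
      rw [mem_Idx, mem_singleton]
      exact ⟨sz_eq_zero, fun a => by simp [a, sz]⟩
    rw [Phi, taus, e, filter_singleton, if_pos (by simp), sum_singleton, sum_singleton,
      shape_of_zero rfl, (s.lev 0 hn).fam.zero, s.zero]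
    exact P0_free (Free.smul _ (by simpa using Free.one _))
  | succ n =>
    rw [(s.link n hn).Phi_succ hα (s.lev n (Nat.le_of_succ_le hn)) (s.lev _ hn) hxy hxz, map_add,
      P0_free ((s.lev _ hn).tau_free hyz), mul_left_comm, P0_X_mul, add_zero]

/-- Specialisation of the alphabet `z`. -/
noncomputable def sp (z : Fin 3) : Tri →ₐ[ℝ] Tri := rename fun s => if s.1 = z then (z, 0) else s

theorem sp_em {a : Fin 3} (h : a ≠ z) (f : R) :
    sp z (rename (Prod.mk a) f) = rename (Prod.mk a) f := by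
  rw [sp, rename_rename]
  congr 2
  exact funext fun k => if_neg h

theorem sp_self (f : R) : sp z (rename (Prod.mk z) f) = eps z f := by
  rw [sp, rename_rename, eps]
  congr 2
  exact funext fun k => if_pos rfl

variable (x y z α) in
/-- The unspecialised series. -/
noncomputable def phi (n : ℕ) (J : Ix → R) : Tri := ∑ l ∈ (Idx n).filter (· 0 = 0),
  (B α (J l) (J l))⁻¹ •
    (rename (Prod.mk x) (J l) * rename (Prod.mk y) (J l) * rename (Prod.mk z) (J l))

theorem sp_phi (hxz : z ≠ x) (hyz : z ≠ y) : sp z (phi α x y z n J) = taus α x y z n J := by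
  simp only [phi, taus, map_sum, map_smul, map_mul, sp_em hxz.symm, sp_em hyz.symm, sp_self]

theorem Link.sp_deriv (k : Link α n ψ ψ' J') (hα : 0 < α) (h : Lev α N n ψ J)
    (h' : Lev α N (n + 1) ψ' J') (hxy : y ≠ x) (hxz : z ≠ x) (hyz : z ≠ y) :
    α • sp z (pderiv (z, 1) (phi α x y z (n + 1) J')) =
      Bt (Prod.mk x) (X (x, 0) * Bt (Prod.mk y) (X (y, 0) * Phi α x y z n ψ J)) := by
  rw [phi, map_sum, map_sum, smul_sum, sum_congr rfl (g := fun l => ∑ m ∈ Idx n,
      if up m = l then (B α (ψ m) (ψ m))⁻¹ • (rename (Prod.mk x) (J' l) * rename (Prod.mk y) (J' l) *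
        eps z (J (shape m))) else 0) fun l hl => by
    have a := mem_Idx.1 (mem_filter.1 hl).1
    have b := (mem_filter.1 hl).2
    rw [Derivation.map_smul, Derivation.leibniz, der_zero (g := _ * _) fun s => by
      by_cases c : s = (z, 1)
      · exact Or.inl (c ▸ (free_em hxz.symm 1 _).mul (free_em hyz.symm 1 _))
      · exact Or.inr (pderiv_X_of_ne c), smul_zero, add_zero, pderiv_rename (mk_inj z), map_smul,
      smul_eq_mul, map_mul, map_mul, sp_em hxz.symm, sp_em hyz.symm, sp_self, smul_comm,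
      ← mul_smul_comm α, ← map_smul, k.deriv hα h h' a b, map_sum, mul_sum, smul_sum]
    refine sum_congr rfl fun m _ => ?_
    split_ifs
    · rw [map_smul, mul_smul_comm, smul_smul, ← mul_div_assoc, inv_mul_cancel₀ (h'.J_pos hα a b).ne',
        one_div]
    · simp, sum_comm, Phi, mul_sum, map_sum, mul_sum, map_sum]
  refine sum_congr rfl fun m hm => ?_
  have a := mem_Idx.1 hm
  rw [sum_ite_eq, if_pos (mem_filter.2 ⟨mem_Idx.2 (by rw [sz_up, a]), up_zero m⟩), k.up_eq m a,
    mul_smul_comm, map_smul, mul_smul_comm, map_smul, mul_comm (rename _ (ψ m)),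
    mul_assoc (rename _ (ψ m)), ← mul_assoc (X (y, 0)), ← rename_X (Prod.mk y), ← map_mul,
    Bt_emb (mk_inj y) _ ((free_em hxy.symm 0 _).mul (free_eps hyz 0 _)), mul_left_comm _ (rename _ (ψ m)),
    ← mul_assoc (X (x, 0)), ← rename_X (Prod.mk x), ← map_mul,
    Bt_emb (mk_inj x) _ ((free_em hxy 0 _).mul (free_eps hxz 0 _)), mul_assoc]

end Pool.Agent.Lib.MP_fcdd89_co
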