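import Pool.Agent.Lib.MP_fcdd89_co.Pos

/-!
The logarithm and the extraction of coefficients.
-/

set_option autoImplicit false

open Finset MvPolynomial
open Finsupp (single weight mapDomain)

namespace Pool.Agent.Lib.MP_fcdd89_co

section Log

open PowerSeries

variable {A : Type} [CommRing A] [Algebra ℚ A] {φ : A⟦X⟧}

theorem mul_dlog (h : constantCoeff φ = 1) : φ * d⁄dX A (logOf φ) = d⁄dX A φ := by
  have hs : HasSubst (φ - 1) := HasSubst.of_constantCoeff_zero' (by simp [h])
  have e : (1 + PowerSeries.X) * d⁄dX A (log A) = 1 := by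
    ext n
    rw [deriv_log, add_mul, one_mul, map_add]
    cases n with
    | zero => simp
    | succ n =>
      rw [coeff_succ_X_mul, coeff_mk, coeff_mk, ← map_add, PowerSeries.coeff_one, if_neg n.succ_ne_zero,
        pow_succ]
      simp
  have := congrArg (substAlgHom hs) e
  rw [map_mul, map_add, map_one, substAlgHom_X, add_sub_cancel, coe_substAlgHom] at this
  rw [logOf_eq, derivative_subst hs, ← mul_assoc, this, map_sub, derivative_one, sub_zero, one_mul]

theorem log_der [IsDomain A] [CharZero A] [Algebra ℝ A] (D : Derivation ℝ A A)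
    (h : constantCoeff φ = 1) :
    (φ * mk fun n => D (PowerSeries.coeff n (logOf φ))) = mk fun n => D (PowerSeries.coeff n φ) := by
  let δ : A⟦X⟧ → A⟦X⟧ := fun f => mk fun n => D (PowerSeries.coeff n f)
  have l : ∀ f g, δ (f * g) = f * δ g + δ f * g := fun f g => by
    ext n
    simp only [δ, coeff_mk, PowerSeries.coeff_mul, map_sum, map_add, Derivation.leibniz, smul_eq_mul,
      sum_add_distrib]
    exact congrArg _ (sum_congr rfl fun p _ => mul_comm _ _)
  have c : ∀ f, d⁄dX A (δ f) = δ (d⁄dX A f) := fun f => by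
    ext n
    simp only [δ, coeff_mk, coeff_derivative, Derivation.leibniz, map_add, Derivation.map_natCast,
      Derivation.map_one_eq_zero, add_zero, smul_eq_mul]
    ring
  have e : d⁄dX A (φ * δ (logOf φ) - δ φ) = d⁄dX A (logOf φ) * (φ * δ (logOf φ) - δ φ) := by
    rw [map_sub, Derivation.leibniz, c, c, ← mul_dlog h, l, smul_eq_mul, smul_eq_mul]
    ring
  refine sub_eq_zero.1 (PowerSeries.ext fun n => ?_)
  change PowerSeries.coeff n (φ * δ (logOf φ) - δ φ) = 0
  induction n using Nat.strong_induction_on with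
  | _ n ih =>
    cases n with
    | zero => simp [δ, h, constantCoeff_logOf h]
    | succ n =>
      have := congrArg (PowerSeries.coeff n) e
      rw [coeff_derivative, PowerSeries.coeff_mul, sum_eq_zero fun p hp => by
        rw [ih p.2 (Nat.lt_succ_of_le (snd_le' hp)), mul_zero]] at this
      exact (mul_eq_zero.1 this).resolve_right (Nat.cast_add_one_ne_zero n)

theorem log_mem [Algebra ℝ A] (S : ℕ → Submodule ℝ A)
    (hS : ∀ a b f g, f ∈ S a → g ∈ S b → f * g ∈ S (a + b)) (h : constantCoeff φ = 1)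
    (h1 : ∀ n, PowerSeries.coeff n φ ∈ S n) (n : ℕ) : PowerSeries.coeff n (logOf φ) ∈ S n := by
  have nat : ∀ (k : ℕ) (f : A), f * (k + 1) = ((k : ℝ) + 1) • f := fun k f => by
    rw [Algebra.smul_def, mul_comm]
    simp
  induction n using Nat.strong_induction_on with
  | _ n ih =>
    cases n with
    | zero => simp [constantCoeff_logOf h]
    | succ n =>
      have := congrArg (PowerSeries.coeff n) (mul_dlog h)
      rw [PowerSeries.coeff_mul, ← add_sum_erase _ _ (a := (0, n)) (by simp), coeff_derivative,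
        coeff_derivative, coeff_zero_eq_constantCoeff_apply, h, one_mul, nat, nat] at this
      refine (Submodule.smul_mem_iff _ (show (n : ℝ) + 1 ≠ 0 by positivity)).1 ?_
      rw [eq_sub_of_add_eq this]
      refine sub_mem (Submodule.smul_mem _ _ (h1 _)) (Submodule.sum_mem _ fun p hp => ?_)
      have a := mem_antidiagonal.1 (mem_erase.1 hp).2
      have b : p.1 ≠ 0 := fun e => (mem_erase.1 hp).1 (Prod.ext e (by simpa [e] using a))
      rw [coeff_derivative, nat, ← a, add_assoc]
      exact hS _ _ _ _ (h1 _) (Submodule.smul_mem _ _ (ih _ (by omega)))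

end Log

variable {n N : ℕ} {α : ℝ} {x y z : Fin 3}

/-- Homogeneous elements in the power sums of the alphabet `z`. -/
noncomputable def Hz (z : Fin 3) (n : ℕ) : Submodule ℝ Tri where
  carrier := {f | Free (z, 0) f ∧
    f ∈ weightedHomogeneousSubmodule ℝ (fun s : Fin 3 × ℕ => if s.1 = z then w0 s.2 else 0) n}
  zero_mem' := ⟨Free.zero _, zero_mem _⟩
  add_mem' hf hg := ⟨hf.1.add hg.1, add_mem hf.2 hg.2⟩
  smul_mem' c _ hf := ⟨hf.1.smul c, Submodule.smul_mem _ _ hf.2⟩

theorem Hz_mul (a b : ℕ) (f g : Tri) (hf : f ∈ Hz z a) (hg : g ∈ Hz z b) : f * g ∈ Hz z (a + b) :=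
  ⟨hf.1.mul hg.1, IsWeightedHomogeneous.mul hf.2 hg.2⟩

theorem weight_mapDomain {σ τ : Type} (e : τ → σ) (w : σ → ℕ) (m : τ →₀ ℕ) :
    weight w (mapDomain e m) = weight (w ∘ e) m :=
  mon_ind (P := fun m => weight w (mapDomain e m) = weight (w ∘ e) m) (by simp) (fun m s ih => by
    simp [Finsupp.mapDomain_add, ih, Finsupp.weight_single]) m

theorem Hz_out {a : Fin 3} (h : a ≠ z) (f : R) : rename (Prod.mk a) f ∈ Hz z 0 :=
  ⟨free_em h 0 f, fun m hm => by
    obtain ⟨u, rfl, -⟩ := coeff_rename_ne_zero _ f m hm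
    rw [weight_mapDomain]
    simp [Finsupp.weight_apply, h]⟩

theorem Hz_self {f : R} (h : f ∈ H n) (hf : Free 0 f) : rename (Prod.mk z) f ∈ Hz z n :=
  ⟨free_em0 _ _ hf, fun m hm => by
    obtain ⟨u, rfl, hu⟩ := coeff_rename_ne_zero _ f m hm
    rw [weight_mapDomain, ← mem_H.1 h u hu, sz]
    congr 2
    exact funext fun k => if_pos rfl⟩

theorem Lev.phi_mem {ψ J : Ix → R} (h : Lev α N n ψ J) (hxz : z ≠ x) (hyz : z ≠ y) :
    phi α x y z n J ∈ Hz z n :=
  Submodule.sum_mem _ fun l hl => Submodule.smul_mem _ _ (by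
    have a := mem_Idx.1 (mem_filter.1 hl).1
    simpa using Hz_mul _ _ _ _ (Hz_mul _ _ _ _ (Hz_out hxz.symm (J l)) (Hz_out hyz.symm (J l)))
      (Hz_self (h.J_hom a (mem_filter.1 hl).2) (h.J_free a (mem_filter.1 hl).2)))

theorem mapDomain_ms {σ : Type} [DecidableEq σ] (e : ℕ → σ) (s : Multiset ℕ) :
    mapDomain e (Multiset.toFinsupp s) = Multiset.toFinsupp (s.map e) := by
  induction s using Multiset.induction_on with
  | empty => simp
  | cons a s ih =>
    rw [Multiset.map_cons, ← Multiset.singleton_add, ← Multiset.singleton_add,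
      Multiset.toFinsupp_add, Multiset.toFinsupp_add, Finsupp.mapDomain_add, ih]
    simp

variable (x y z) in
/-- The exponent with prescribed parts in the three alphabets. -/
noncomputable def E3 (a b c : Ix) : Fin 3 × ℕ →₀ ℕ :=
  mapDomain (Prod.mk x) a + mapDomain (Prod.mk y) b + mapDomain (Prod.mk z) c

theorem E3_apply (a b c : Ix) (t : Fin 3) (k : ℕ) : E3 x y z a b c (t, k) =
    ((if x = t then a k else 0) + if y = t then b k else 0) + if z = t then c k else 0 := by
  have : ∀ (s : Fin 3) (m : Ix), mapDomain (Prod.mk s) m (t, k) = if s = t then m k else 0 :=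
    fun s m => by
      split_ifs with e
      · rw [e, Finsupp.mapDomain_apply (mk_inj t)]
      · exact Finsupp.mapDomain_of_notMem_range _ _ fun ⟨_, c⟩ => e (congrArg Prod.fst c)
  simp only [E3, Finsupp.add_apply, this]

theorem E3_inj (hxy : y ≠ x) (hxz : z ≠ x) (hyz : z ≠ y) {a b c a' b' c' : Ix} :
    E3 x y z a b c = E3 x y z a' b' c' ↔ (a = a' ∧ b = b') ∧ c = c' := by
  refine ⟨fun h => ⟨⟨Finsupp.ext fun k => ?_, Finsupp.ext fun k => ?_⟩, Finsupp.ext fun k => ?_⟩,
    fun h => by rw [h.1.1, h.1.2, h.2]⟩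
  · simpa [E3_apply, hxy, hxz] using DFunLike.congr_fun h (x, k)
  · simpa [E3_apply, hxy.symm, hyz] using DFunLike.congr_fun h (y, k)
  · simpa [E3_apply, hxz.symm, hyz.symm] using DFunLike.congr_fun h (z, k)

theorem E3_surj (hxy : y ≠ x) (hxz : z ≠ x) (hyz : z ≠ y) (m : Fin 3 × ℕ →₀ ℕ) :
    ∃ a b c, m = E3 x y z a b c := by
  refine ⟨m.comapDomain _ (mk_inj x).injOn, m.comapDomain _ (mk_inj y).injOn,
    m.comapDomain _ (mk_inj z).injOn, Finsupp.ext fun ⟨t, k⟩ => ?_⟩
  have : t = x ∨ t = y ∨ t = z := by omega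
  rw [E3_apply]
  obtain rfl | rfl | rfl := this <;> simp [*, hxy.symm, hxz.symm, hyz.symm]

theorem extract (hxy : y ≠ x) (hxz : z ≠ x) (hyz : z ≠ y) (a b : Ix) (l : ℕ) {f : Tri}
    (hf : f ∈ Hz z n) :
    ∑ ν : n.Partition with ν.parts.card = l,
      (ν.parts.count 1 : ℝ) * coeff (E3 x y z a b (toF ν)) f =
      coeff (E3 x y z a b (single 0 l)) (X (z, 0) * sp z (pderiv (z, 1) f)) := by
  have e : ∀ f, X (z, 0) * sp z (pderiv (z, 1) f) = sp z (X (z, 1) * pderiv (z, 1) f) := fun f => by
    simp [sp]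
  refine lin_ind (P := fun f => ∑ ν : n.Partition with ν.parts.card = l,
      (ν.parts.count 1 : ℝ) * coeff (E3 x y z a b (toF ν)) f =
      coeff (E3 x y z a b (single 0 l)) (X (z, 0) * sp z (pderiv (z, 1) f))) (by simp)
    (fun f g p q => by simp only [coeff_add, mul_add, sum_add_distrib, map_add, p, q])
    (fun c f p => by
      simp only [coeff_smul, Derivation.map_smul, map_smul, mul_smul_comm, ← smul_sum, p])
    fun m hm => ?_
  obtain ⟨a', b', c', rfl⟩ := E3_surj hxy hxz hyz m
  have c0 : c' 0 = 0 := by simpa [E3_apply, hxz.symm, hyz.symm] using hf.1 _ hm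
  have c1 : sz c' = n := by
    have := hf.2 hm
    simp only [E3, map_add, weight_mapDomain] at this
    simpa [Finsupp.weight_apply, hxz.symm, hyz.symm, sz] using this
  obtain ⟨ν, rfl⟩ := exists_toF c0 c1
  have s : mapDomain (fun s : Fin 3 × ℕ => if s.1 = z then (z, 0) else s) (E3 x y z a' b' (toF ν)) =
      E3 x y z a' b' (single 0 ν.parts.card) := by
    simp only [E3, Finsupp.mapDomain_add, ← Finsupp.mapDomain_comp, Function.comp_def, hxz.symm,
      hyz.symm, if_false, if_true, Finsupp.mapDomain_single]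
    rw [toF, mapDomain_ms, Multiset.map_const']
    congr 1
    ext s
    simp [Multiset.count_replicate, Finsupp.single_apply]
  rw [e, X_mul_pderiv_monomial, map_nsmul, sp, rename_monomial, s, E3_apply]
  simp only [coeff_monomial, coeff_smul, E3_inj hxy hxz hyz, toF_inj.eq_iff, hxz.symm, hyz.symm,
    if_false, if_true, zero_add, (Finsupp.single_injective 0).eq_iff]
  by_cases p : a' = a ∧ b' = b
  · simp [p, toF]
  · simp [p]

variable {θ : ∀ n : ℕ, n.Partition → n.Partition → ℝ}

theorem Sys.series_phi {ψ J : ℕ → Ix → R} (s : Sys α N ψ J) (hα : 0 < α) (h : IsJack α θ)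
    (hxy : y ≠ x) (hxz : z ≠ x) (hyz : z ≠ y) (hn : n ≤ N) :
    PowerSeries.coeff n (series α θ) = phi α x y z n (J n) := by
  have key : ∀ f : Fin 3 → Tri, f 0 * f 1 * f 2 = f x * f y * f z := fun f => by
    have c : ∀ t : Fin 3, t = 0 ∨ t = 1 ∨ t = 2 := fun t => by omega
    obtain rfl | rfl | rfl := c x <;> obtain rfl | rfl | rfl := c y <;>
      obtain rfl | rfl | rfl := c z <;>
      first
      | exact absurd rfl hxy
      | exact absurd rfl hxz
      | exact absurd rfl hyz
      | ring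
  rw [s.series_eq hα h hn, phi]
  exact sum_congr rfl fun l _ => congrArg _ (key fun a => rename (Prod.mk a) (J n l))

theorem series_zero (hα : 0 < α) (h : IsJack α θ) :
    PowerSeries.constantCoeff (series α θ) = 1 := by
  obtain ⟨ψ, J, s⟩ := exists_sys hα 0
  have e : (Idx 0).filter (· 0 = 0) = {0} := by
    ext m
    rw [mem_filter, mem_Idx, mem_singleton]
    exact ⟨fun a => sz_eq_zero a.1, fun a => by simp [a, sz]⟩
  rw [← PowerSeries.coeff_zero_eq_constantCoeff_apply, s.series_eq hα h le_rfl, e, sum_singleton,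
    (s.lev 0 le_rfl).fam.zero, show B α 1 1 = 1 from (B_mono 0 1).trans (by simp [Z])]
  simp

theorem log_deriv (hα : 0 < α) (h : IsJack α θ) (hxy : y ≠ x) (hxz : z ≠ x) (hyz : z ≠ y) (n : ℕ) :
    α • sp z (pderiv (z, 1) (PowerSeries.coeff (n + 1) (PowerSeries.logOf (series α θ)))) =
      GG α x y z n := by
  have h1 := series_zero hα h
  have a := congrArg (fun f => α • PowerSeries.map (sp z).toRingHom f) (log_der (pderiv (z, 1)) h1)
  have b : α • PowerSeries.map (sp z).toRingHom (PowerSeries.mk fun n =>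
      pderiv (z, 1) (PowerSeries.coeff n (series α θ))) = PowerSeries.map (sp z).toRingHom
        (series α θ) * (PowerSeries.X * PowerSeries.mk (GG α x y z)) := by
    ext1 k
    rw [mul_left_comm, mul_comm _ (PowerSeries.mk _)]
    cases k with
    | zero => simp [h1]
    | succ k =>
      obtain ⟨ψ, J, s⟩ := exists_sys hα (k + 1)
      rw [PowerSeries.coeff_succ_X_mul, PowerSeries.coeff_mul, LinearMap.map_smul_of_tower,
        PowerSeries.coeff_map,
        PowerSeries.coeff_mk, s.series_phi hα h hxy hxz hyz le_rfl]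
      refine (s.sp_deriv hα hxy hxz hyz (Nat.lt_succ_self k)).trans (sum_congr rfl fun p hp => ?_)
      rw [PowerSeries.coeff_mk, PowerSeries.coeff_map,
        s.series_phi hα h hxy hxz hyz ((snd_le' hp).trans k.le_succ)]
      rfl
  simp only [map_mul] at a
  rw [b, ← mul_smul_comm] at a
  have := congrArg (PowerSeries.coeff (n + 1)) (mul_left_cancel₀ (fun c => by
    have := congrArg (PowerSeries.coeff 0) c
    rw [PowerSeries.coeff_map, PowerSeries.coeff_zero_eq_constantCoeff_apply, h1] at this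
    simp at this) a)
  rwa [PowerSeries.coeff_succ_X_mul, LinearMap.map_smul_of_tower, PowerSeries.coeff_map,
    PowerSeries.coeff_mk,
    PowerSeries.coeff_mk] at this

theorem main (hxy : y ≠ x) (hxz : z ≠ x) (hyz : z ≠ y) (n l : ℕ) (a b : Ix) :
    ∃ P : Polynomial ℕ, ∀ α : ℝ, 0 < α → ∀ θ, IsJack α θ →
      ∑ ν : n.Partition with ν.parts.card = l, (ν.parts.count 1 : ℝ) * (α * n *
        coeff (E3 x y z a b (toF ν)) (PowerSeries.coeff n (PowerSeries.logOf (series α θ)))) =
      n * Polynomial.aeval (α - 1) P := by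
  cases n with
  | zero => exact ⟨0, by simp⟩
  | succ n =>
    obtain ⟨P, hP⟩ := ((Pos.X (z, 0)).mul (pos_GG (x := x) (y := y) (z := z) n)).coeff
      (E3 x y z a b (single 0 l))
    refine ⟨P, fun α hα θ h => ?_⟩
    have m := log_mem (Hz z) Hz_mul (series_zero hα h) (fun k => by
      obtain ⟨ψ, J, s⟩ := exists_sys hα k
      rw [s.series_phi hα h hxy hxz hyz le_rfl]
      exact (s.lev k le_rfl).phi_mem hxz hyz) (n + 1)
    rw [← hP, ← log_deriv hα h hxy hxz hyz, mul_smul_comm, coeff_smul, ← extract hxy hxz hyz a b l m,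
      smul_eq_mul, mul_sum, mul_sum]
    exact sum_congr rfl fun ν _ => by ring

theorem expo3_eq (μ ν τ : n.Partition) : expo3 μ ν τ = E3 0 1 2 (toF μ) (toF ν) (toF τ) := by
  simp only [expo3, E3, toF, mapDomain_ms, Multiset.toFinsupp_add]

end Pool.Agent.Lib.MP_fcdd89_co
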