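import Pool.Agent.Lib.MP_fcdd89_co.Step

/-!
Transition and cotransition weights.
-/

set_option autoImplicit false

open Finsupp Finset

namespace Pool.Agent.Lib.MP_fcdd89_co

section Lagrange

open Polynomial Lagrange

theorem coeff_nodal_ge (s : Finset ℕ) (v : ℕ → ℝ) {k : ℕ} (h : #s ≤ k) :
    (nodal s v).coeff k = if k = #s then 1 else 0 := by
  split_ifs with e
  · rw [e, ← natDegree_nodal (v := v)]
    exact nodal_monic.coeff_natDegree
  · exact coeff_eq_zero_of_natDegree_lt (by rw [natDegree_nodal]; omega)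

variable {A T : Finset ℕ} {x e : ℕ → ℝ}

theorem lag_tau (hT : Set.InjOn e T) (hc : #A = #T + 1) (hne : ∀ a ∈ A, ∀ t ∈ T, x a ≠ e t)
    {τ : ℕ → ℝ} (h1 : ∑ a ∈ A, τ a = 1) (h2 : ∀ t ∈ T, ∑ a ∈ A, τ a / (x a - e t) = 0) {a : ℕ}
    (ha : a ∈ A) : τ a * ∏ b ∈ A.erase a, (x a - x b) = ∏ t ∈ T, (x a - e t) := by
  have key : ∑ a ∈ A, C (τ a) * nodal (A.erase a) x = nodal T e := by
    refine eq_of_degree_sub_lt_of_eval_index_eq T hT ?_ fun t ht => ?_
    · rw [degree_lt_iff_coeff_zero]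
      intro k hk
      rw [coeff_sub, finsetSum_coeff, coeff_nodal_ge _ _ hk, sum_congr rfl fun b hb => by
        rw [coeff_C_mul, coeff_nodal_ge _ _ (by rw [card_erase_of_mem hb]; omega),
          card_erase_of_mem hb, hc, Nat.add_sub_cancel], ← Finset.sum_mul, h1, one_mul, sub_self]
    · rw [eval_nodal_at_node ht, eval_finsetSum, ← mul_zero (-∏ b ∈ A, (e t - x b)), ← h2 t ht,
        Finset.mul_sum]
      refine sum_congr rfl fun b hb => ?_
      have := sub_ne_zero.2 (hne b hb t ht)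
      rw [eval_mul, eval_C, eval_nodal, ← mul_prod_erase A _ hb]
      field_simp
      ring
  have := congrArg (eval (x a)) key
  rwa [eval_finsetSum, sum_eq_single_of_mem a ha fun b hb e => by
    rw [eval_mul, eval_nodal_at_node (mem_erase.2 ⟨e.symm, ha⟩), mul_zero], eval_mul, eval_C,
    eval_nodal, eval_nodal] at this

theorem lag_sig (hA : Set.InjOn x A) (hc : #A = #T + 1) (hne : ∀ a ∈ A, ∀ t ∈ T, x a ≠ e t)
    {σ : ℕ → ℝ} (h2 : ∀ a ∈ A, ∑ t ∈ T, σ t / (x a - e t) = x a) {t : ℕ}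
    (ht : t ∈ T) : σ t * ∏ b ∈ T.erase t, (e t - e b) = -∏ a ∈ A, (e t - x a) := by
  have key : X * nodal T e - ∑ t ∈ T, C (σ t) * nodal (T.erase t) e = nodal A x := by
    refine eq_of_degree_sub_lt_of_eval_index_eq A hA ?_ fun a ha => ?_
    · rw [degree_lt_iff_coeff_zero]
      intro k hk
      obtain ⟨j, rfl⟩ : ∃ j, k = j + 1 := ⟨k - 1, by omega⟩
      rw [coeff_sub, coeff_sub, finsetSum_coeff, coeff_nodal_ge _ _ hk, coeff_X_mul,
        coeff_nodal_ge _ _ (by omega), sum_eq_zero fun b hb => by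
          have := card_pos.2 ⟨b, hb⟩
          rw [coeff_C_mul, coeff_nodal_ge _ _ (by rw [card_erase_of_mem hb]; omega),
            card_erase_of_mem hb, if_neg (by omega), mul_zero], hc]
      simp
    · rw [eval_nodal_at_node ha, eval_sub, eval_mul, eval_X, eval_finsetSum, eval_nodal,
        sub_eq_zero]
      nth_rewrite 1 [← h2 a ha]
      rw [Finset.sum_mul]
      refine sum_congr rfl fun b hb => ?_
      have := sub_ne_zero.2 (hne a ha b hb)
      rw [eval_mul, eval_C, eval_nodal, ← mul_prod_erase T _ hb]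
      field_simp
  have := congrArg (eval (e t)) key
  rw [eval_sub, eval_mul, eval_nodal_at_node ht, eval_finsetSum,
    sum_eq_single_of_mem t ht fun b hb e => by
      rw [eval_mul, eval_nodal_at_node (mem_erase.2 ⟨e.symm, ht⟩), mul_zero], eval_mul, eval_C,
    eval_nodal, eval_nodal] at this
  linarith

end Lagrange

/-- Lengths of the rows that can be extended. -/
def As (l : Ix) (K : ℕ) : Finset ℕ := (range (K + 1)).filter fun k => k = 0 ∨ l k ≠ 0

/-- Columns of the removable boxes. -/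
def Ts (l : Ix) (K : ℕ) : Finset ℕ := (range K).filter fun j => l (j + 1) ≠ 0

theorem card_As (l : Ix) (K : ℕ) : #(As l K) = #(Ts l K) + 1 := by
  simp only [As, Ts, card_filter, sum_range_succ']
  simp

theorem ext_A {l : Ix} {K : ℕ} {f g : ℕ → ℝ} (h : ∀ j, l (j + 1) = 0 → f (j + 1) = g j) :
    ∏ k ∈ range (K + 1), f k =
      (∏ k ∈ As l K, f k) * ∏ j ∈ (range K).filter fun j => ¬ l (j + 1) ≠ 0, g j := by
  rw [← Finset.prod_filter_mul_prod_filter_not _ fun k => k = 0 ∨ l k ≠ 0, As]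
  congr 1
  rw [prod_filter, prod_filter, prod_range_succ', if_neg (by simp), mul_one]
  refine prod_congr rfl fun j _ => ?_
  by_cases e : l (j + 1) = 0 <;> simp [e, h j]

theorem ext_T (l : Ix) (K : ℕ) (g : ℕ → ℝ) : ∏ k ∈ range K, g k =
    (∏ k ∈ Ts l K, g k) * ∏ j ∈ (range K).filter fun j => ¬ l (j + 1) ≠ 0, g j :=
  (Finset.prod_filter_mul_prod_filter_not _ _ _).symm

theorem prod_erase_ite (s : Finset ℕ) (c : ℕ) (f : ℕ → ℝ) :
    ∏ k ∈ s.erase c, f k = ∏ k ∈ s, if k = c then 1 else f k := by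
  rw [← filter_ne', prod_filter]
  exact prod_congr rfl fun k _ => by by_cases e : k = c <;> simp [e]

theorem yv_step (α : ℝ) {l : Ix} {j : ℕ} (h : l (j + 1) = 0) : yv α l (j + 1) = yv α l j + α := by
  simp only [yv, G_succ j l, h]
  push_cast
  ring

variable {N n : ℕ} {α : ℝ} {ψ J ψ' J' : Ix → R}

theorem sum_A {l : Ix} (h0 : l 0 = 0) (hl : sz l = n) {K : ℕ} (hK : n ≤ K) :
    ∃ i : ℕ → Ix, (∀ k ∈ As l K, sz (i k) = n ∧ shape (i k) = l ∧ i k 0 = k) ∧
      ∀ F : Ix → ℝ, (∀ M, sz M = n → shape M ≠ l → F M = 0) →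
        ∑ M ∈ Idx n, F M = ∑ k ∈ As l K, F (i k) := by
  classical
  have : ∀ k, ∃ m, k = 0 ∨ l k ≠ 0 → shape m = l ∧ m 0 = k := fun k => by
    by_cases h : k = 0 ∨ l k ≠ 0
    · obtain ⟨m, hm⟩ := exists_shape h0 h
      exact ⟨m, fun _ => hm⟩
    · exact ⟨0, fun a => absurd a h⟩
  choose i hi using this
  have h1 : ∀ k ∈ As l K, sz (i k) = n ∧ shape (i k) = l ∧ i k 0 = k := fun k hk =>
    have a := hi k (mem_filter.1 hk).2
    ⟨by rw [← sz_shape, a.1, hl], a⟩
  refine ⟨i, h1, fun F hF => ?_⟩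
  rw [← sum_image (s := As l K) (g := i) fun a ha b hb e => by
    rw [← (h1 a ha).2.2, e, (h1 b hb).2.2]]
  refine (sum_subset (fun M hM => ?_) fun M hM hM' => hF M (mem_Idx.1 hM) fun e => hM' ?_).symm
  · obtain ⟨k, hk, rfl⟩ := mem_image.1 hM
    exact mem_Idx.2 (h1 k hk).1
  · have a : M 0 ∈ As l K := mem_filter.2 ⟨mem_range.2 (by
      have := sz_eq M
      have := mem_Idx.1 hM
      omega), e ▸ shape_mark M⟩
    exact mem_image.2 ⟨M 0, a, eq_of_shape ((h1 _ a).2.1.trans e.symm) (h1 _ a).2.2⟩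

theorem sum_T {l : Ix} (h0 : l 0 = 0) (hl : sz l = n + 1) {K : ℕ} (hK : n < K) :
    ∃ i : ℕ → Ix, (∀ k ∈ Ts l K, sz (i k) = n ∧ up (i k) = l ∧ i k 0 = k) ∧
      ∀ F : Ix → ℝ, (∀ M, sz M = n → up M ≠ l → F M = 0) →
        ∑ M ∈ Idx n, F M = ∑ k ∈ Ts l K, F (i k) := by
  classical
  have : ∀ k, ∃ m, l (k + 1) ≠ 0 → up m = l ∧ m 0 = k := fun k => by
    by_cases h : l (k + 1) ≠ 0
    · obtain ⟨m, hm⟩ := exists_up h0 h
      exact ⟨m, fun _ => hm⟩
    · exact ⟨0, fun a => absurd a h⟩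
  choose i hi using this
  have h1 : ∀ k ∈ Ts l K, sz (i k) = n ∧ up (i k) = l ∧ i k 0 = k := fun k hk =>
    have a := hi k (mem_filter.1 hk).2
    ⟨Nat.succ_injective ((sz_up _).symm.trans (a.1 ▸ hl)), a⟩
  refine ⟨i, h1, fun F hF => ?_⟩
  rw [← sum_image (s := Ts l K) (g := i) fun a ha b hb e => by
    rw [← (h1 a ha).2.2, e, (h1 b hb).2.2]]
  refine (sum_subset (fun M hM => ?_) fun M hM hM' => hF M (mem_Idx.1 hM) fun e => hM' ?_).symm
  · obtain ⟨k, hk, rfl⟩ := mem_image.1 hM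
    exact mem_Idx.2 (h1 k hk).1
  · have a : M 0 ∈ Ts l K := mem_filter.2 ⟨mem_range.2 (by
      have := sz_eq M
      have := mem_Idx.1 hM
      omega), e ▸ up_mark M⟩
    exact mem_image.2 ⟨M 0, a, eq_of_up ((h1 _ a).2.1.trans e.symm) (h1 _ a).2.2⟩

open MvPolynomial

theorem Lev.J_eq (h : Lev α N n ψ J) {l : Ix} (hl : sz l = n) (h0 : l 0 = 0) : J l = P0 0 (ψ l) := by
  rw [h.p0 l hl, shape_of_zero h0]

theorem Lev.J_free (h : Lev α N n ψ J) {l : Ix} (hl : sz l = n) (h0 : l 0 = 0) : Free 0 (J l) :=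
  h.J_eq hl h0 ▸ free_P0 _ _

theorem Lev.J_hom (h : Lev α N n ψ J) {l : Ix} (hl : sz l = n) (h0 : l 0 = 0) : J l ∈ H n :=
  h.J_eq hl h0 ▸ H_P0 (h.ob.hom l hl)

theorem Lev.J_pos (h : Lev α N n ψ J) (hα : 0 < α) {l : Ix} (hl : sz l = n) (h0 : l 0 = 0) :
    0 < B α (J l) (J l) :=
  B_pos hα fun e => by simpa [e] using h.nrm l hl h0

theorem Lev.B_J (h : Lev α N n ψ J) {l M : Ix} (hl : sz l = n) (h0 : l 0 = 0) (hM : sz M = n) :
    B α (J l) (ψ M) = if shape M = l then B α (J l) (J l) else 0 := by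
  rw [← B_free_P0 (h.J_free hl h0), h.p0 M hM]
  split_ifs with e
  · rw [e]
  · exact h.Jorth _ _ hl ((sz_shape M).trans hM) h0 (shape_zero M) (Ne.symm e)

theorem Link.coef (k : Link α n ψ ψ' J') (h : Lev α N n ψ J) (h' : Lev α N (n + 1) ψ' J')
    {M m : Ix} (hM : sz M = n + 1) (hm : sz m = n) (e : shape M = up m) :
    (yv α (up m) (M 0) - (yv α (up m) (m 0) + α)) * B α (ψ' M) (X 0 * ψ m) =
      B α (J' (up m)) (J' (up m)) := by
  have := adj_LL (α := α) (ψ' M) (X 0 * ψ m)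
  rw [h'.eig M hM, h.LL_w hm, map_add, map_smul, map_smul, LinearMap.smul_apply, dd_up, dd_shape,
    ← k.up_eq m hm, B_symm (ψ' M) (J' _), h'.B_J (by rw [sz_up, hm]) (up_zero m) hM, if_pos e, e,
    smul_eq_mul, smul_eq_mul] at this
  linarith

theorem tau_of (hα : 0 < α) (h : Lev α N n ψ J) {m : Ix} (hm : sz m = n) {K : ℕ} (hK : n ≤ K)
    (h1 : ∀ j, shape m (j + 1) ≠ 0 → ∃ g : R, ∀ M, sz M = n → shape M = shape m →
      (yv α (shape m) (M 0) - (yv α (shape m) j + α)) * B α (ψ M) (X 0 * g) =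
        B α (J (shape m)) (J (shape m))) :
    B α (J (shape m)) (J (shape m)) / B α (ψ m) (ψ m) *
      ∏ k ∈ (range (K + 1)).erase (m 0), (dd α m - yv α (shape m) k) =
      ∏ j ∈ range K, (dd α m - (yv α (shape m) j + α)) := by
  set l := shape m with hl
  have l1 : sz l = n := (sz_shape m).trans hm
  have l0 : l 0 = 0 := shape_zero m
  have jp := h.J_pos hα l1 l0
  obtain ⟨i, hi, hs⟩ := sum_A l0 l1 hK
  have ex := h.ob.expand hα (h.J_hom l1 l0)
  have hm' : m 0 ∈ As l K := mem_filter.2 ⟨mem_range.2 (by have := sz_eq m; omega), shape_mark m⟩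
  have e0 : i (m 0) = m := eq_of_shape (hi _ hm').2.1 (hi _ hm').2.2
  have := lag_tau (A := As l K) (T := Ts l K) (x := yv α l) (e := fun j => yv α l j + α)
    (τ := fun k => B α (J l) (J l) / B α (ψ (i k)) (ψ (i k)))
    (fun a _ b _ e => (yv_mono hα l).injective (add_right_cancel e)) (card_As l K)
    (fun a ha t ht e => by
      obtain ⟨g, hg⟩ := h1 t (mem_filter.1 ht).2
      have := hg _ (hi a ha).1 (hi a ha).2.1
      rw [(hi a ha).2.2, e, sub_self, zero_mul] at this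
      exact jp.ne this)
    (by
      have := congrArg (fun f => coeff (single 1 n) (P0 0 f)) ex
      simp only [map_sum, map_smul, coeff_sum, coeff_smul, P0_free (h.J_free l1 l0),
        h.nrm l l1 l0] at this
      rw [this, hs _ fun M a b => by rw [h.B_J l1 l0 a, if_neg b, zero_div, zero_smul]]
      refine sum_congr rfl fun k hk => ?_
      rw [h.B_J l1 l0 (hi k hk).1, if_pos (hi k hk).2.1, h.p0 _ (hi k hk).1, (hi k hk).2.1,
        h.nrm l l1 l0, smul_eq_mul, mul_one])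
    (fun t ht => by
      obtain ⟨g, hg⟩ := h1 t (mem_filter.1 ht).2
      have := congrArg (fun f => B α f (X 0 * g)) ex
      simp only [map_sum, map_smul, LinearMap.sum_apply, LinearMap.smul_apply,
        B_free_w (h.J_free l1 l0)] at this
      rw [hs _ fun M a b => by rw [h.B_J l1 l0 a, if_neg b, zero_div, zero_smul]] at this
      refine mul_left_cancel₀ jp.ne' ?_
      rw [mul_zero, this, Finset.mul_sum]
      refine sum_congr rfl fun k hk => ?_
      have e := hg _ (hi k hk).1 (hi k hk).2.1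
      rw [(hi k hk).2.2] at e
      have e' := left_ne_zero_of_mul (e.trans_ne jp.ne')
      rw [h.B_J l1 l0 (hi k hk).1, if_pos (hi k hk).2.1, smul_eq_mul,
        (eq_div_iff e').2 ((mul_comm _ _).trans e)]
      ring) hm'
  rw [e0, ← dd_shape] at this
  rw [ext_T l, ← this, prod_erase_ite, prod_erase_ite, ext_A (l := l)
    (g := fun j => dd α m - (yv α l j + α)) fun j hj => by
      rw [if_neg, yv_step α hj]
      intro e
      have := shape_mark m
      rw [← e, ← hl] at this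
      simp [hj] at this, mul_assoc]

theorem Sys.tau {ψ J : ℕ → Ix → R} (s : Sys α N ψ J) (hα : 0 < α) (hn : n ≤ N) {m : Ix}
    (hm : sz m = n) {K : ℕ} (hK : n ≤ K) :
    B α (J n (shape m)) (J n (shape m)) / B α (ψ n m) (ψ n m) *
      ∏ k ∈ (range (K + 1)).erase (m 0), (dd α m - yv α (shape m) k) =
      ∏ j ∈ range K, (dd α m - (yv α (shape m) j + α)) := by
  refine tau_of hα (s.lev n hn) hm hK fun j hj => ?_
  obtain ⟨m', a, b⟩ := exists_up (shape_zero m) hj
  have c : sz m' + 1 = n := by rw [← sz_up, a, sz_shape, hm]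
  subst c
  refine ⟨ψ (sz m') m', fun M d e => ?_⟩
  rw [← a, ← b]
  exact (s.link _ hn).coef (s.lev _ (by omega)) (s.lev _ hn) d rfl (e.trans a.symm)

theorem Link.sig (k : Link α n ψ ψ' J') (hα : 0 < α) (h : Lev α N n ψ J)
    (h' : Lev α N (n + 1) ψ' J') {m : Ix} (hm : sz m = n) {K : ℕ} (hK : n < K) :
    B α (J' (up m)) (J' (up m)) / B α (ψ m) (ψ m) *
      ∏ j ∈ (range K).erase (m 0), (yv α (up m) (m 0) + α - (yv α (up m) j + α)) =
      -∏ j ∈ range (K + 1), (yv α (up m) (m 0) + α - yv α (up m) j) := by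
  set l := up m with hl
  have l1 : sz l = n + 1 := by rw [sz_up, hm]
  have l0 : l 0 = 0 := up_zero m
  have jp := h'.J_pos hα l1 l0
  obtain ⟨i, hi, hs⟩ := sum_T l0 l1 hK
  have hm' : m 0 ∈ Ts l K := mem_filter.2 ⟨mem_range.2 (by have := sz_eq m; omega), up_mark m⟩
  have e0 : i (m 0) = m := eq_of_up (hi _ hm').2.1 (hi _ hm').2.2
  have co : ∀ M, sz M = n + 1 → shape M = l → ∀ t ∈ Ts l K,
      (yv α l (M 0) - (yv α l t + α)) * B α (ψ' M) (X 0 * ψ (i t)) = B α (J' l) (J' l) :=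
    fun M a b t ht => by
      have := k.coef h h' a (hi t ht).1 (b.trans (hi t ht).2.1.symm)
      rwa [(hi t ht).2.1, (hi t ht).2.2] at this
  have := lag_sig (A := As l K) (T := Ts l K) (x := yv α l) (e := fun j => yv α l j + α)
    (σ := fun k => B α (J' l) (J' l) / B α (ψ (i k)) (ψ (i k)))
    (fun a _ b _ e => (yv_mono hα l).injective e) (card_As l K)
    (fun a ha t ht e => by
      obtain ⟨M, b, c⟩ := exists_shape l0 (mem_filter.1 ha).2
      have := co M (by rw [← sz_shape, b, l1]) b t ht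
      rw [c, e, sub_self, zero_mul] at this
      exact jp.ne this)
    (fun a ha => by
      obtain ⟨M, b, c⟩ := exists_shape l0 (mem_filter.1 ha).2
      have d : sz M = n + 1 := by rw [← sz_shape, b, l1]
      have ex := h.ob.expand hα (H_Sh (h'.ob.hom M d))
      have e1 : BB (ψ' M) = dd α M • J' l := by
        rw [← P0_LL (α := α), h'.eig M d, map_smul, h'.p0 M d, b]
      rw [← P0_add_Sh 0 (ψ' M), map_add, BB_free (free_P0 _ _), zero_add, ex, Finset.mul_sum,
        map_sum] at e1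
      have := congrArg (coeff (single 1 (n + 1))) e1
      rw [coeff_smul, h'.nrm l l1 l0, coeff_sum, sum_congr rfl fun m' hm' => by
        rw [mul_smul_comm, map_smul, coeff_smul, h.v_nrm (mem_Idx.1 hm'), B_symm, ← adj_w, B_symm,
          smul_eq_mul, mul_one], hs _ fun m' p q => by
        rw [k.blk M m' d p (b ▸ q.symm), zero_div], dd_shape, b, c, smul_eq_mul, mul_one] at this
      rw [← this]
      refine sum_congr rfl fun t ht => ?_
      have e := co M d b t ht
      rw [c] at e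
      have e' := left_ne_zero_of_mul (e.trans_ne jp.ne')
      rw [(eq_div_iff e').2 ((mul_comm _ _).trans e), this]
      ring) hm'
  rw [e0] at this
  rw [ext_A (l := l) (g := fun j => yv α l (m 0) + α - (yv α l j + α))
    fun j hj => by rw [yv_step α hj], ← neg_mul, ← this, prod_erase_ite, prod_erase_ite, ext_T l,
    mul_assoc]
  congr 2
  refine prod_congr rfl fun j hj => if_neg fun e => ?_
  exact (mem_filter.1 hj).2 (e ▸ up_mark m)

end Pool.Agent.Lib.MP_fcdd89_co
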