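import Mathlib

/-!
The Nazarov-Sklyanin Lax operator on a polynomial ring with a distinguished family of variables
`e 0` (the spectral variable `w`) and `e k` (the power sums `p_k`).
-/

set_option autoImplicit false

open MvPolynomial

namespace Pool.Agent.Lib.MP_fcdd89_co

variable {σ : Type} [DecidableEq σ]

/-- Polynomials without the variable `s`. -/
def Free (s : σ) (g : MvPolynomial σ ℝ) : Prop := ∀ m, coeff m g ≠ 0 → m s = 0

theorem Free.zero (s : σ) : Free s 0 := fun m h => by simp at h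

theorem Free.monomial {s : σ} {m : σ →₀ ℕ} (h : m s = 0) (c : ℝ) : Free s (monomial m c) := by
  intro m' h'
  rw [coeff_monomial] at h'
  split_ifs at h' with h1
  · rw [← h1]; exact h
  · simp at h'

theorem Free.one (s : σ) : Free s 1 := Free.monomial (m := 0) rfl 1

theorem Free.C (s : σ) (c : ℝ) : Free s (C c) := Free.monomial (m := 0) rfl c

theorem Free.add {s : σ} {f g : MvPolynomial σ ℝ} (hf : Free s f) (hg : Free s g) :
    Free s (f + g) := by
  intro m h
  rw [coeff_add] at h
  by_cases h1 : coeff m f = 0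
  · exact hg m (by simpa [h1] using h)
  · exact hf m h1

theorem Free.smul {s : σ} {f : MvPolynomial σ ℝ} (c : ℝ) (hf : Free s f) : Free s (c • f) := by
  intro m h
  rw [coeff_smul] at h
  exact hf m (right_ne_zero_of_mul h)

theorem Free.mul {s : σ} {f g : MvPolynomial σ ℝ} (hf : Free s f) (hg : Free s g) :
    Free s (f * g) := by
  intro m h
  rw [coeff_mul] at h
  obtain ⟨x, hx, h1⟩ := Finset.exists_ne_zero_of_sum_ne_zero h
  rw [← Finset.HasAntidiagonal.mem_antidiagonal.mp hx, Finsupp.add_apply, hf _ (left_ne_zero_of_mul h1), hg _ (right_ne_zero_of_mul h1)]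

theorem Free.sum {s : σ} {ι : Type} (t : Finset ι) {f : ι → MvPolynomial σ ℝ}
    (h : ∀ i ∈ t, Free s (f i)) : Free s (∑ i ∈ t, f i) :=
  Finset.sum_induction f (Free s) (fun _ _ => Free.add) (Free.zero s) h

theorem Free.prod {s : σ} {ι : Type} (t : Finset ι) {f : ι → MvPolynomial σ ℝ}
    (h : ∀ i ∈ t, Free s (f i)) : Free s (∏ i ∈ t, f i) :=
  Finset.prod_induction f (Free s) (fun _ _ => Free.mul) (Free.one s) h

theorem Free.pow {s : σ} {f : MvPolynomial σ ℝ} (hf : Free s f) (n : ℕ) : Free s (f ^ n) := by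
  induction n with
  | zero => simpa using Free.one s
  | succ n ih => rw [pow_succ]; exact ih.mul hf

theorem Free.X {s t : σ} (h : t ≠ s) : Free s (X t : MvPolynomial σ ℝ) :=
  Free.monomial (by simp [h]) 1

theorem lin_ext {τ M : Type} [AddCommGroup M] [Module ℝ M] {f g : MvPolynomial τ ℝ →ₗ[ℝ] M}
    (h : ∀ m, f (monomial m 1) = g (monomial m 1)) : f = g :=
  (basisMonomials τ ℝ).ext fun m => by simpa using h m

theorem mono_split (s : σ) (m : σ →₀ ℕ) :
    (monomial m 1 : MvPolynomial σ ℝ) = X s ^ m s * monomial (m.erase s) 1 := by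
  rw [X_pow_eq_monomial, monomial_mul, one_mul, Finsupp.single_add_erase]

theorem free_erase (s : σ) (m : σ →₀ ℕ) : Free s (monomial (m.erase s) (1 : ℝ)) :=
  Free.monomial (by simp) 1

/-- Two linear maps agree when they agree on `w^a g` with `g` free of `w`. -/
theorem lin_ext_free {M : Type} [AddCommGroup M] [Module ℝ M] (s : σ)
    {f g : MvPolynomial σ ℝ →ₗ[ℝ] M}
    (h : ∀ a p, Free s p → f (X s ^ a * p) = g (X s ^ a * p)) : f = g :=
  lin_ext fun m => by rw [mono_split s m]; exact h _ _ (free_erase s m)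

theorem mon_ind {τ : Type} {P : (τ →₀ ℕ) → Prop} (h0 : P 0)
    (h1 : ∀ m s, P m → P (m + Finsupp.single s 1)) (m : τ →₀ ℕ) : P m := by
  induction m using Finsupp.induction_linear with
  | zero => exact h0
  | single s k =>
    induction k with
    | zero => simpa using h0
    | succ k ih => rw [Finsupp.single_add]; exact h1 _ _ ih
  | add f g hf hg =>
    clear hg
    induction g using Finsupp.induction_linear generalizing f with
    | zero => simpa using hf
    | single s k =>
      induction k with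
      | zero => simpa using hf
      | succ k ih => rw [Finsupp.single_add, ← add_assoc]; exact h1 _ _ ih
    | add g g' ih ih' => rw [← add_assoc]; exact ih' _ (ih _ hf)

theorem mon_succ {τ : Type} (m : τ →₀ ℕ) (s : τ) :
    (monomial (m + Finsupp.single s 1) 1 : MvPolynomial τ ℝ) = monomial m 1 * X s := by
  rw [X, monomial_mul, one_mul]

theorem lin_ind {τ : Type} {P : MvPolynomial τ ℝ → Prop} (h0 : P 0)
    (ha : ∀ f g, P f → P g → P (f + g)) (hs : ∀ (c : ℝ) f, P f → P (c • f))
    {f : MvPolynomial τ ℝ} (hm : ∀ m, coeff m f ≠ 0 → P (monomial m 1)) : P f := by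
  rw [f.as_sum]
  refine Finset.sum_induction _ P ha h0 fun m h => ?_
  have h1 : (monomial m (coeff m f) : MvPolynomial τ ℝ) = coeff m f • monomial m 1 := by
    simp [smul_monomial]
  rw [h1]
  exact hs _ _ (hm m (mem_support_iff.mp h))

theorem free_ind {s : σ} {P : MvPolynomial σ ℝ → Prop} (h1 : P 1)
    (ha : ∀ f g, P f → P g → P (f + g)) (hs : ∀ (c : ℝ) f, P f → P (c • f))
    (hX : ∀ g t, t ≠ s → Free s g → P g → P (g * X t)) {f : MvPolynomial σ ℝ} (hf : Free s f) :
    P f := by
  refine lin_ind (by simpa using hs 0 1 h1) ha hs fun m hm => ?_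
  have h0 := hf m hm
  clear hm
  induction m using mon_ind with
  | h0 => exact h1
  | h1 m t ih =>
    rw [Finsupp.add_apply, Nat.add_eq_zero_iff] at h0
    rw [mon_succ]
    exact hX _ t (fun h => by simp [h] at h0) (Free.monomial h0.1 1) (ih h0.1)

/-- Replace `w^a` by `q a`. -/
noncomputable def W (s : σ) (q : ℕ → MvPolynomial σ ℝ) :
    MvPolynomial σ ℝ →ₗ[ℝ] MvPolynomial σ ℝ :=
  (basisMonomials σ ℝ).constr ℝ fun m => q (m s) * monomial (m.erase s) 1

theorem W_mono (s : σ) (q : ℕ → MvPolynomial σ ℝ) (m : σ →₀ ℕ) :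
    W s q (monomial m 1) = q (m s) * monomial (m.erase s) 1 := by
  have := (basisMonomials σ ℝ).constr_basis ℝ
    (fun m => q (m s) * monomial (m.erase s) (1 : ℝ)) m
  simpa [W] using this

theorem W_mul_free {s : σ} (q : ℕ → MvPolynomial σ ℝ) (f : MvPolynomial σ ℝ)
    {g : MvPolynomial σ ℝ} (hg : Free s g) : W s q (f * g) = W s q f * g := by
  have key : ∀ m m' : σ →₀ ℕ, m' s = 0 →
      W s q (monomial m 1 * monomial m' 1) = W s q (monomial m 1) * monomial m' 1 := by
    intro m m' h
    rw [monomial_mul, one_mul, W_mono, W_mono, Finsupp.add_apply, h, add_zero, mul_assoc,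
      monomial_mul, one_mul, Finsupp.erase_add, Finsupp.erase_of_notMem_support (f := m') (by simpa using h)]
  have k2 : ∀ m' : σ →₀ ℕ, m' s = 0 → W s q (f * monomial m' 1) = W s q f * monomial m' 1 := by
    intro m' h
    have : (W s q).comp (LinearMap.mulRight ℝ (monomial m' (1:ℝ))) =
        (LinearMap.mulRight ℝ (monomial m' (1:ℝ))).comp (W s q) :=
      lin_ext fun m => by simpa using key m m' h
    simpa using LinearMap.congr_fun this f
  conv_lhs => rw [g.as_sum]
  conv_rhs => rw [g.as_sum]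
  rw [Finset.mul_sum, Finset.mul_sum, map_sum]
  refine Finset.sum_congr rfl fun m hm => ?_
  have h1 : (monomial m (coeff m g) : MvPolynomial σ ℝ) = coeff m g • monomial m 1 := by
    simp [smul_monomial]
  rw [h1, mul_smul_comm, mul_smul_comm, map_smul, k2 m (hg m (mem_support_iff.mp hm))]

theorem W_pow (s : σ) (q : ℕ → MvPolynomial σ ℝ) (a : ℕ) : W s q (X s ^ a) = q a := by
  rw [X_pow_eq_monomial, W_mono]; simp

theorem W_pow_mul {s : σ} (q : ℕ → MvPolynomial σ ℝ) (a : ℕ) {g : MvPolynomial σ ℝ}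
    (hg : Free s g) : W s q (X s ^ a * g) = q a * g := by
  rw [W_mul_free q _ hg, W_pow]

theorem W_free {s : σ} (q : ℕ → MvPolynomial σ ℝ) {g : MvPolynomial σ ℝ}
    (hg : Free s g) : W s q g = q 0 * g := by
  simpa using W_pow_mul q 0 hg

/-- The constant term in `w`. -/
noncomputable def P0 (s : σ) : MvPolynomial σ ℝ →ₗ[ℝ] MvPolynomial σ ℝ :=
  W s fun a => if a = 0 then 1 else 0

/-- The backward shift in `w`. -/
noncomputable def Sh (s : σ) : MvPolynomial σ ℝ →ₗ[ℝ] MvPolynomial σ ℝ :=
  W s fun a => if a = 0 then 0 else X s ^ (a - 1)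

theorem P0_free {s : σ} {g : MvPolynomial σ ℝ} (hg : Free s g) : P0 s g = g := by
  simp [P0, W_free _ hg]

theorem Sh_free {s : σ} {g : MvPolynomial σ ℝ} (hg : Free s g) : Sh s g = 0 := by
  simp [Sh, W_free _ hg]

theorem P0_X_mul (s : σ) (f : MvPolynomial σ ℝ) : P0 s (X s * f) = 0 := by
  have : (P0 s).comp (LinearMap.mulLeft ℝ (X s)) = 0 :=
    lin_ext_free s fun a p hp => by
      simp only [LinearMap.comp_apply, LinearMap.mulLeft_apply, LinearMap.zero_apply]
      rw [← mul_assoc, ← pow_succ', P0, W_pow_mul _ _ hp]; simp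
  simpa using LinearMap.congr_fun this f

theorem Sh_X_mul (s : σ) (f : MvPolynomial σ ℝ) : Sh s (X s * f) = f := by
  have : (Sh s).comp (LinearMap.mulLeft ℝ (X s)) = LinearMap.id :=
    lin_ext_free s fun a p hp => by
      simp only [LinearMap.comp_apply, LinearMap.mulLeft_apply, LinearMap.id_apply]
      rw [← mul_assoc, ← pow_succ', Sh, W_pow_mul _ _ hp]; simp
  simpa using LinearMap.congr_fun this f

theorem P0_add_Sh (s : σ) (f : MvPolynomial σ ℝ) : P0 s f + X s * Sh s f = f := by
  have : P0 s + (LinearMap.mulLeft ℝ (X s)).comp (Sh s) = LinearMap.id :=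
    lin_ext_free s fun a p hp => by
      simp only [LinearMap.add_apply, LinearMap.comp_apply, LinearMap.mulLeft_apply,
        LinearMap.id_apply]
      rw [Sh, P0, W_pow_mul _ _ hp, W_pow_mul _ _ hp]
      cases a with
      | zero => simp
      | succ a => simp [pow_succ]; ring
  simpa using LinearMap.congr_fun this f

theorem free_W {s t : σ} {q : ℕ → MvPolynomial σ ℝ} (hq : ∀ a, Free t (q a))
    {f : MvPolynomial σ ℝ} (hf : t = s ∨ Free t f) : Free t (W s q f) := by
  rw [f.as_sum, map_sum]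
  refine Free.sum _ fun m hm => ?_
  have h1 : (monomial m (coeff m f) : MvPolynomial σ ℝ) = coeff m f • monomial m 1 := by
    simp [smul_monomial]
  rw [h1, map_smul, W_mono]
  refine Free.smul _ ((hq _).mul (Free.monomial ?_ 1))
  rcases hf with h | h
  · simp [h]
  · by_cases h2 : t = s
    · simp [h2]
    · rw [Finsupp.erase_ne h2]; exact h m (mem_support_iff.mp hm)

theorem free_P0 (s : σ) (f : MvPolynomial σ ℝ) : Free s (P0 s f) :=
  free_W (fun a => by split_ifs; exacts [Free.one s, Free.zero s]) (Or.inl rfl)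

variable (α : ℝ) (e : ℕ → σ)

/-- Values of the derivation part on the variables. -/
noncomputable def dv (k : ℕ) : MvPolynomial σ ℝ :=
  if k = 0 then (α - 1) • X (e 0) else (α * k) • X (e 0) ^ k

/-- The derivation part of the Lax operator. -/
noncomputable def Dr : Derivation ℝ (MvPolynomial σ ℝ) (MvPolynomial σ ℝ) :=
  mkDerivation ℝ (Function.extend e (dv α e) 0)

/-- The sum of `p_k w^(a-k)`. -/
noncomputable def uq (a : ℕ) : MvPolynomial σ ℝ :=
  ∑ k ∈ Finset.range a, X (e (k + 1)) * X (e 0) ^ (a - 1 - k)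

/-- The Lax operator. -/
noncomputable def Lx : MvPolynomial σ ℝ →ₗ[ℝ] MvPolynomial σ ℝ :=
  (Dr α e).toLinearMap + W (e 0) (uq e)

/-- Closing the marked cycle. -/
noncomputable def Bt : MvPolynomial σ ℝ →ₗ[ℝ] MvPolynomial σ ℝ :=
  W (e 0) fun a => if a = 0 then 0 else X (e a)

variable {e}

theorem Dr_e (he : Function.Injective e) (k : ℕ) : Dr α e (X (e k)) = dv α e k := by
  rw [Dr, mkDerivation_X, he.extend_apply]

theorem Dr_out {s : σ} (hs : ∀ k, e k ≠ s) : Dr α e (X s) = 0 := by
  rw [Dr, mkDerivation_X, Function.extend_apply' _ _ _ (by simpa using hs)]; rfl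

theorem Lx_apply (f : MvPolynomial σ ℝ) : Lx α e f = Dr α e f + W (e 0) (uq e) f := rfl

theorem Dr_w_pow (he : Function.Injective e) (a : ℕ) :
    Dr α e (X (e 0) ^ a) = ((α - 1) * a) • X (e 0) ^ a := by
  rw [Derivation.leibniz_pow, Dr_e α he, dv]
  cases a with
  | zero => simp
  | succ a =>
    simp only [if_true, Nat.add_sub_cancel, smul_eq_mul, mul_smul_comm, nsmul_eq_mul, pow_succ]
    rw [mul_smul, ← nsmul_eq_mul, Nat.cast_smul_eq_nsmul, smul_comm]

theorem Lx_free {g : MvPolynomial σ ℝ} (hg : Free (e 0) g) : Lx α e g = Dr α e g := by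
  rw [Lx_apply, W_free _ hg]; simp [uq]

theorem Lx_mul_free (f : MvPolynomial σ ℝ) {g : MvPolynomial σ ℝ} (hg : Free (e 0) g) :
    Lx α e (f * g) = Lx α e f * g + f * Lx α e g := by
  rw [Lx_free α hg, Lx_apply, Lx_apply, W_mul_free _ _ hg, Derivation.leibniz]
  simp only [smul_eq_mul]; ring

theorem uq_succ (a : ℕ) : uq e (a + 1) = X (e 0) * uq e a + X (e (a + 1)) := by
  rw [uq, Finset.sum_range_succ, uq, Finset.mul_sum]
  congr 1
  · refine Finset.sum_congr rfl fun k hk => ?_
    rw [Finset.mem_range] at hk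
    rw [show a + 1 - 1 - k = (a - 1 - k) + 1 by omega, pow_succ]; ring
  · simp

theorem Lx_X_mul (he : Function.Injective e) (f : MvPolynomial σ ℝ) :
    Lx α e (X (e 0) * f) = Bt e (X (e 0) * f) + X (e 0) * (Lx α e f + (α - 1) • f) := by
  have : (Lx α e).comp (LinearMap.mulLeft ℝ (X (e 0))) =
      (Bt e).comp (LinearMap.mulLeft ℝ (X (e 0))) +
        (LinearMap.mulLeft ℝ (X (e 0))).comp (Lx α e + (α - 1) • LinearMap.id) :=
    lin_ext_free (e 0) fun a p hp => by
      simp only [LinearMap.add_apply, LinearMap.comp_apply, LinearMap.mulLeft_apply,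
        LinearMap.id_apply, LinearMap.smul_apply]
      rw [← mul_assoc, ← pow_succ', Lx_apply, Lx_apply, Bt, W_pow_mul _ _ hp, W_pow_mul _ _ hp,
        W_pow_mul _ _ hp, Derivation.leibniz, Derivation.leibniz, Dr_w_pow α he, Dr_w_pow α he,
        uq_succ]
      simp only [smul_eq_mul, Nat.succ_ne_zero, if_false, smul_eq_C_mul, Nat.cast_succ, map_mul,
        map_add, map_one, map_sub, pow_succ]
      ring
  simpa using LinearMap.congr_fun this f

theorem dvd_Dr (f : MvPolynomial σ ℝ) : X (e 0) ∣ Dr α e f := by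
  classical
  induction f using MvPolynomial.induction_on with
  | C a => simp
  | add p q hp hq => rw [map_add]; exact dvd_add hp hq
  | mul_X p s hp =>
    rw [Derivation.leibniz, smul_eq_mul, smul_eq_mul]
    refine dvd_add (Dvd.dvd.mul_left ?_ _) (hp.mul_left _)
    rw [Dr, mkDerivation_X]
    by_cases hs : ∃ k, e k = s
    · rw [Function.extend_def, dif_pos hs, dv]
      split_ifs with h
      · rw [smul_eq_C_mul]; exact Dvd.intro_left _ rfl
      · rw [smul_eq_C_mul]; exact Dvd.dvd.mul_left (dvd_pow_self _ h) _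
    · rw [Function.extend_apply' _ _ _ hs]; simp

theorem free_Bt (he : Function.Injective e) (f : MvPolynomial σ ℝ) : Free (e 0) (Bt e f) :=
  free_W (fun a => by
    split_ifs with h
    · exact Free.zero _
    · exact Free.X fun h' => h (he h')) (Or.inl rfl)

theorem Bt_free {g : MvPolynomial σ ℝ} (hg : Free (e 0) g) : Bt e g = 0 := by
  simp [Bt, W_free _ hg]

theorem P0_Lx (he : Function.Injective e) (f : MvPolynomial σ ℝ) :
    P0 (e 0) (Lx α e f) = Bt e f := by
  conv_lhs => rw [← P0_add_Sh (e 0) f]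
  conv_rhs => rw [← P0_add_Sh (e 0) f]
  rw [map_add, map_add, map_add, Lx_X_mul α he, map_add, P0_X_mul, P0_free (free_Bt he _),
    Bt_free (free_P0 _ _), Lx_free α (free_P0 _ _)]
  obtain ⟨c, hc⟩ := dvd_Dr α (e := e) (P0 (e 0) f)
  rw [hc, P0_X_mul, add_zero]

end Pool.Agent.Lib.MP_fcdd89_co
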