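import Pool.Agent.Lib.MP_fcdd89_co.Kern

/-!
The connected series, its positivity and the factorisation of the kernel.
-/

set_option autoImplicit false

open Finset MvPolynomial
open Finsupp (single weight)

namespace Pool.Agent.Lib.MP_fcdd89_co

section Pos

variable {σ : Type} [DecidableEq σ] {e : ℕ → σ} {f g : ℝ → MvPolynomial σ ℝ}

/-- Families whose coefficients are polynomials in `α - 1` with natural coefficients. -/
inductive Pos : (ℝ → MvPolynomial σ ℝ) → Prop
  | zero : Pos fun _ => 0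
  | mono (k : ℕ) (m : σ →₀ ℕ) : Pos fun α => (α - 1) ^ k • monomial m 1
  | add {f g : ℝ → MvPolynomial σ ℝ} : Pos f → Pos g → Pos fun α => f α + g α

theorem Pos.of_eq (h : Pos f) (e : ∀ α, g α = f α) : Pos g := funext e ▸ h

theorem Pos.mon (m : σ →₀ ℕ) : Pos fun _ => monomial m 1 := (Pos.mono 0 m).of_eq (by simp)

theorem Pos.one : Pos fun _ => (1 : MvPolynomial σ ℝ) := Pos.mon 0

theorem Pos.X (s : σ) : Pos fun _ => X s := Pos.mon _

theorem Pos.mul (hf : Pos f) (hg : Pos g) : Pos fun α => f α * g α := by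
  induction hf with
  | zero => exact Pos.zero.of_eq (by simp)
  | add _ _ a b => exact (a.add b).of_eq fun α => add_mul _ _ _
  | mono k m =>
    induction hg with
    | zero => exact Pos.zero.of_eq (by simp)
    | add _ _ a b => exact (a.add b).of_eq fun α => mul_add _ _ _
    | mono k' m' =>
      exact (Pos.mono (k + k') (m + m')).of_eq fun α => by
        rw [smul_mul_smul_comm, monomial_mul, pow_add, one_mul]

theorem Pos.sum {ι : Type} (t : Finset ι) {f : ι → ℝ → MvPolynomial σ ℝ} (h : ∀ i ∈ t, Pos (f i)) :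
    Pos fun α => ∑ i ∈ t, f i α := by
  classical
  induction t using Finset.induction_on with
  | empty => exact Pos.zero
  | insert a s ha ih =>
    exact ((h a (mem_insert_self _ _)).add (ih fun i hi => h i (mem_insert_of_mem hi))).of_eq
      fun α => sum_insert ha

theorem Pos.pow (hf : Pos f) (k : ℕ) : Pos fun α => f α ^ k := by
  induction k with
  | zero => exact Pos.one.of_eq (by simp)
  | succ k ih => exact (ih.mul hf).of_eq fun α => pow_succ _ _

theorem Pos.smul (hf : Pos f) (k : ℕ) : Pos fun α => (α - 1) ^ k • f α :=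
  ((Pos.mono k 0).mul hf).of_eq fun α => by simp

theorem Pos.lin {T : ℝ → MvPolynomial σ ℝ →ₗ[ℝ] MvPolynomial σ ℝ}
    (h : ∀ m, Pos fun α => T α (monomial m 1)) (hf : Pos f) : Pos fun α => T α (f α) := by
  induction hf with
  | zero => exact Pos.zero.of_eq (by simp)
  | add _ _ a b => exact (a.add b).of_eq fun α => map_add _ _ _
  | mono k m => exact ((h m).smul k).of_eq fun α => map_smul _ _ _

theorem Pos.W (s : σ) {q : ℕ → MvPolynomial σ ℝ} (hq : ∀ a, Pos fun _ => q a) (hf : Pos f) :
    Pos fun α => W s q (f α) :=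
  Pos.lin (T := fun _ => MP_fcdd89_co.W s q)
    (fun m => ((hq _).mul (Pos.mon _)).of_eq fun _ => W_mono s q m) hf

theorem Pos.Bt (hf : Pos f) : Pos fun α => Bt e (f α) :=
  hf.W _ fun a => by
    split_ifs
    exacts [Pos.zero, Pos.X _]

theorem pos_Dr_X (he : Function.Injective e) (s : σ) : Pos fun α => Dr α e (X s) := by
  by_cases a : ∃ k, e k = s
  · obtain ⟨k, rfl⟩ := a
    simp only [Dr_e _ he, dv]
    split_ifs
    · exact ((Pos.X (e 0)).smul 1).of_eq (by simp)
    · have p := (Pos.X (e 0)).pow k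
      refine (Pos.sum (range k) fun _ _ => (p.smul 1).add p).of_eq fun α => ?_
      rw [sum_const, card_range]
      module
  · exact Pos.zero.of_eq fun α => Dr_out α (not_exists.1 a)

theorem Pos.Lx (he : Function.Injective e) (hf : Pos f) : Pos fun α => Lx α e (f α) := by
  refine (Pos.lin (T := fun α => (Dr α e).toLinearMap) (fun m => ?_) hf).add
    (hf.W _ fun a => Pos.sum _ fun k _ => (Pos.X _).mul ((Pos.X _).pow _))
  refine mon_ind (P := fun m => Pos fun α => Dr α e (monomial m 1)) ?_ (fun m s ih => ?_) m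
  · exact Pos.zero.of_eq fun α => (Dr α e).map_one_eq_zero
  · exact (((Pos.mon m).mul (pos_Dr_X he s)).add ((Pos.X s).mul ih)).of_eq fun α => by
      rw [mon_succ, Derivation.leibniz]
      rfl

theorem Pos.coeff (hf : Pos f) (m : σ →₀ ℕ) :
    ∃ P : Polynomial ℕ, ∀ α : ℝ, coeff m (f α) = Polynomial.aeval (α - 1) P := by
  induction hf with
  | zero => exact ⟨0, by simp⟩
  | add _ _ a b =>
    obtain ⟨P, a⟩ := a
    obtain ⟨Q, b⟩ := b
    exact ⟨P + Q, fun α => by simp [a, b]⟩
  | mono k m' =>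
    refine ⟨if m' = m then Polynomial.X ^ k else 0, fun α => ?_⟩
    rw [coeff_smul, coeff_monomial]
    split_ifs <;> simp

end Pos

variable {n N : ℕ} {α : ℝ} {x y z : Fin 3}

variable (α x y z) in
/-- The connected series with two marked points. -/
noncomputable def FF : ℕ → Tri
  | 0 => 1
  | n + 1 => X (x, 0) * (X (y, 0) * (Lx α (Prod.mk x) (FF n) + X (z, 0) * FF n +
      ∑ i : Fin (n + 1), FF i * Bt (Prod.mk y) (FF (n - i))))
decreasing_by
  · omega
  · exact i.2
  · omega

theorem FF_succ (n : ℕ) : FF α x y z (n + 1) = X (x, 0) * (X (y, 0) *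
    (Lx α (Prod.mk x) (FF α x y z n) + X (z, 0) * FF α x y z n +
      ∑ p ∈ antidiagonal n, FF α x y z p.1 * Bt (Prod.mk y) (FF α x y z p.2))) := by
  rw [FF, Nat.sum_antidiagonal_eq_sum_range_succ_mk, sum_range]

theorem pos_FF (n : ℕ) : Pos fun α => FF α x y z n := by
  induction n using Nat.strong_induction_on with
  | _ n ih =>
    cases n with
    | zero => exact Pos.one.of_eq fun α => by rw [FF]
    | succ n =>
      have a := ih n (Nat.lt_succ_self n)
      refine ((Pos.X _).mul ((Pos.X _).mul (((a.Lx (mk_inj x)).add ((Pos.X _).mul a)).add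
        (Pos.sum _ fun p hp => (ih p.1 ?_).mul (ih p.2 ?_).Bt)))).of_eq fun α => FF_succ n <;>
      have := mem_antidiagonal.1 hp <;> omega

theorem snd_le' {p : ℕ × ℕ} (h : p ∈ antidiagonal n) : p.2 ≤ n := by
  have := mem_antidiagonal.1 h
  omega

theorem conv_assoc {A : Type} [CommRing A] (f g h : ℕ → A) (n : ℕ) :
    ∑ p ∈ antidiagonal n, f p.1 * ∑ q ∈ antidiagonal p.2, g q.1 * h q.2 =
      ∑ p ∈ antidiagonal n, (∑ q ∈ antidiagonal p.1, f q.1 * g q.2) * h p.2 := by
  simpa only [PowerSeries.coeff_mul, PowerSeries.coeff_mk] using (congrArg (PowerSeries.coeff n)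
    (mul_assoc (PowerSeries.mk f) (PowerSeries.mk g) (PowerSeries.mk h))).symm

variable {ψ J : ℕ → Ix → R}

theorem Sys.Phi_eq (s : Sys α N ψ J) (hα : 0 < α) (hxy : y ≠ x) (hxz : z ≠ x) (hyz : z ≠ y)
    (hn : n ≤ N) : Phi α x y z n (ψ n) (J n) =
      ∑ p ∈ antidiagonal n, FF α x y z p.1 * taus α x y z p.2 (J p.2) := by
  induction n using Nat.strong_induction_on with
  | _ n ih =>
    cases n with
    | zero =>
      rw [Nat.antidiagonal_zero, sum_singleton, FF, one_mul, ← s.P0_Phi hα hn hxy hxz hyz, P0_free]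
      refine Free.sum _ fun m hm => Free.smul _ (Free.mul ?_ (free_eps hyz _ _))
      rw [s.zero]
      simpa using Free.one _
    | succ n =>
      have c : ∀ p ∈ antidiagonal n, Lx α (Prod.mk x) (FF α x y z p.1 * taus α x y z p.2 (J p.2)) =
          Lx α (Prod.mk x) (FF α x y z p.1) * taus α x y z p.2 (J p.2) + FF α x y z p.1 *
            ∑ q ∈ antidiagonal p.2, Bt (Prod.mk y) (FF α x y z q.1) * taus α x y z q.2 (J q.2) :=
        fun p hp => by
          have a : p.2 ≤ n := snd_le' hp
          have b : p.2 ≤ N := by omega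
          rw [Lx_mul_free _ _ ((s.lev _ b).tau_free hxz)]
          congr 2
          rw [← s.P0_Phi hα b hxy hxz hyz, (s.lev _ b).Lx_P0 hxy hxz hyz, ih _ (by omega) b, map_sum]
          exact sum_congr rfl fun q hq => Bt_mul_free _
            ((s.lev _ ((snd_le' hq).trans b)).tau_free hyz)
      rw [(s.link n hn).Phi_succ hα (s.lev n (Nat.le_of_succ_le hn)) (s.lev _ hn) hxy hxz,
        Nat.sum_antidiagonal_succ, FF, one_mul, ih n (Nat.lt_succ_self n) (Nat.le_of_succ_le hn),
        map_sum, sum_congr rfl c, sum_add_distrib,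
        conv_assoc _ (fun i => Bt (Prod.mk y) (FF α x y z i)) (fun i => taus α x y z i (J i)),
        mul_sum, ← sum_add_distrib, ← sum_add_distrib, mul_sum, mul_sum]
      congr 1
      refine sum_congr rfl fun p _ => ?_
      rw [FF_succ]
      ring

variable (α x y z) in
/-- The connected series with both marked cycles closed. -/
noncomputable def GG (n : ℕ) : Tri :=
  Bt (Prod.mk x) (X (x, 0) * Bt (Prod.mk y) (X (y, 0) * FF α x y z n))

theorem pos_GG (n : ℕ) : Pos fun α => GG α x y z n :=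
  ((Pos.X _).mul ((Pos.X _).mul (pos_FF n)).Bt).Bt

theorem Sys.sp_deriv (s : Sys α N ψ J) (hα : 0 < α) (hxy : y ≠ x) (hxz : z ≠ x) (hyz : z ≠ y)
    (hn : n < N) : α • sp z (pderiv (z, 1) (phi α x y z (n + 1) (J (n + 1)))) =
      ∑ p ∈ antidiagonal n, GG α x y z p.1 * sp z (phi α x y z p.2 (J p.2)) := by
  rw [(s.link n hn).sp_deriv hα (s.lev n hn.le) (s.lev _ hn) hxy hxz hyz,
    s.Phi_eq hα hxy hxz hyz hn.le, mul_sum, map_sum, mul_sum, map_sum]
  refine sum_congr rfl fun p hp => ?_
  have h := s.lev _ ((snd_le' hp).trans hn.le)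
  rw [sp_phi hxz hyz, ← mul_assoc, Bt_mul_free _ (h.tau_free hyz), ← mul_assoc,
    Bt_mul_free _ (h.tau_free hxz), GG]

end Pool.Agent.Lib.MP_fcdd89_co
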