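import Pool.Agent.Lib.MP_fcdd89_co.Coord

/-!
The inductive construction of the eigenbasis of the Lax operator.
-/

set_option autoImplicit false

open MvPolynomial Finsupp

namespace Pool.Agent.Lib.MP_fcdd89_co

variable {N n : ℕ} {α : ℝ}

/-- Elements whose monomial support satisfies `p`. -/
def U (N : ℕ) (p : Ix → Prop) : Submodule ℝ R where
  carrier := {f | ∀ m, ¬ p m → co N m f = 0}
  zero_mem' m _ := map_zero _
  add_mem' hf hg m hm := by rw [map_add, hf m hm, hg m hm, add_zero]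
  smul_mem' c f hf m hm := by rw [map_smul, hf m hm, smul_zero]

theorem U_mono {p q : Ix → Prop} (h : ∀ m, p m → q m) {f : R} (hf : f ∈ U N p) : f ∈ U N q :=
  fun m hm => hf m fun a => hm (h m a)

/-- Lower sets of partitions. -/
def Low (T : Ix → Prop) : Prop := ∀ k l, k 0 = 0 → l 0 = 0 → Le k l → T l → T k

theorem low_le (l : Ix) : Low fun k => Le k l := fun _ _ _ _ a b => a.trans b

theorem low_lt {l : Ix} (h : l 0 = 0) : Low fun k => Le k l ∧ k ≠ l := fun k k' h1 h2 a b =>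
  ⟨a.trans b.1, fun e => b.2 (b.1.antisymm (e ▸ a) (h2.trans h.symm))⟩

theorem U_LL {T : Ix → Prop} (hT : Low T) {f : R} (hf : f ∈ U N fun m => T (shape m)) :
    LL α f ∈ U N fun m => T (shape m) := fun m hm => by
  by_contra h
  obtain ⟨m', a, b, -⟩ := co_LL (α := α) (N := N) (m := m) (f := f) (by rwa [hf m hm, mul_zero])
  exact a (hf m' fun c => hm (hT _ _ (shape_zero _) (shape_zero _) b c))

theorem U_w {T : Ix → Prop} {f : R} :
    (X 0 * f ∈ U N fun m => T (shape m)) ↔ f ∈ U N fun m => T (up m) := by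
  refine ⟨fun h m hm => ?_, fun h m hm => ?_⟩
  · rw [← co_w]
    exact h _ (by beta_reduce; rwa [shape_succ])
  · by_cases h0 : m 0 = 0
    · exact co_w_zero h0 f
    · rw [← pred_succ h0, co_w]
      exact h _ (by beta_reduce; rwa [← shape_succ, pred_succ h0])

theorem OB.dl (hα : 0 < α) (hn : n ≤ N) {b : Ix → R} (h : OB α n b) {p : Ix → Prop}
    (hb : ∀ m, sz m = n → p m → b m ∈ U N p) {f : R} (hf : f ∈ H n) (hf' : f ∈ U N p) {m : Ix}
    (hm : sz m = n) (hp : ¬ p m) : B α f (b m) = 0 := by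
  classical
  have hS : ∀ s ∈ (Idx n).filter p, sz s = n ∧ p s := fun s hs => by
    simpa [mem_Idx] using hs
  obtain ⟨a, rfl⟩ := (core (S := (Idx n).filter p) (H n ⊓ U N p) (fun s => co N s.1)
    (fun f hf h0 => co_inj hn hf.1 fun m => by
      by_contra h1
      exact h1 (h0 ⟨m, Finset.mem_filter.2 ⟨mem_Idx.2 (co_hom hf.1 h1),
        not_not.1 fun c => h1 (hf.2 m c)⟩⟩))
    (fun s => b s) (fun s => ⟨h.hom _ (hS _ s.2).1, hb _ (hS _ s.2).1 (hS _ s.2).2⟩)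
    (h.li hα _ fun s hs => (hS s hs).1)).1 f ⟨hf, hf'⟩
  rw [map_sum, LinearMap.sum_apply]
  refine Finset.sum_eq_zero fun s _ => ?_
  rw [map_smul, LinearMap.smul_apply, h.orth _ _ (hS _ s.2).1 hm fun e => hp (e ▸ (hS _ s.2).2),
    smul_zero]

theorem coeff_BB (n : ℕ) (f : R) :
    coeff (single 1 (n + 1)) (BB (X 0 * f)) = coeff (single 1 n) (P0 0 f) := by
  have : lcoeff ℝ (single 1 (n + 1)) ∘ₗ BB ∘ₗ LinearMap.mulLeft ℝ (X 0) =
      lcoeff ℝ (single 1 n) ∘ₗ P0 0 := lin_ext_free 0 fun a p hp => by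
    simp only [LinearMap.comp_apply, LinearMap.mulLeft_apply, lcoeff_apply]
    rw [← mul_assoc, ← pow_succ', BB_pow a hp, P0, W_pow_mul _ _ hp]
    cases a with
    | zero => rw [single_add, add_comm, coeff_X_mul]; simp
    | succ a => rw [coeff_X_mul', if_neg (by simp)]; simp
  exact LinearMap.congr_fun this f

/-- The eigenbasis in degree `n`. -/
structure Lev (α : ℝ) (N n : ℕ) (ψ J : Ix → R) : Prop where
  ob : OB α n ψ
  eig : ∀ m, sz m = n → LL α (ψ m) = dd α m • ψ m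
  p0 : ∀ m, sz m = n → P0 0 (ψ m) = J (shape m)
  sup : ∀ m, sz m = n → ψ m ∈ U N fun m' => Le (up m') (up m)
  nrm : ∀ l, sz l = n → l 0 = 0 → coeff (single 1 n) (J l) = 1
  Jorth : ∀ l l', sz l = n → sz l' = n → l 0 = 0 → l' 0 = 0 → l ≠ l' → B α (J l) (J l') = 0
  Jsup : ∀ l, sz l = n → l 0 = 0 → J l ∈ U N fun m => Le (shape m) l

/-- The relation between consecutive degrees. -/
structure Link (α : ℝ) (n : ℕ) (ψ ψ' J' : Ix → R) : Prop where
  up_eq : ∀ m, sz m = n → J' (up m) = BB (X 0 * ψ m)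
  blk : ∀ M m, sz M = n + 1 → sz m = n → shape M ≠ up m → B α (ψ' M) (X 0 * ψ m) = 0

variable {ψ J : Ix → R}

theorem Lev.LL_w (h : Lev α N n ψ J) {m : Ix} (hm : sz m = n) :
    LL α (X 0 * ψ m) = BB (X 0 * ψ m) + (dd α m + (α - 1)) • (X 0 * ψ m) := by
  rw [MP_fcdd89_co.LL_w, h.eig m hm, ← add_smul, mul_smul_comm]

theorem Lev.v_hom (h : Lev α N n ψ J) {m : Ix} (hm : sz m = n) : BB (X 0 * ψ m) ∈ H (n + 1) :=
  H_BB (H_w (h.ob.hom m hm))

theorem Lev.v_nrm (h : Lev α N n ψ J) {m : Ix} (hm : sz m = n) :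
    coeff (single 1 (n + 1)) (BB (X 0 * ψ m)) = 1 := by
  rw [coeff_BB, h.p0 m hm, h.nrm _ ((sz_shape m).trans hm) (shape_zero m)]

theorem Lev.v_sup (h : Lev α N n ψ J) {m : Ix} (hm : sz m = n) :
    BB (X 0 * ψ m) ∈ U N fun m' => Le (shape m') (up m) := by
  have h1 := (U_w (T := fun k => Le k (up m))).2 (h.sup m hm)
  rw [eq_sub_iff_add_eq.2 (h.LL_w hm).symm]
  exact sub_mem (U_LL (low_le _) h1) (Submodule.smul_mem _ _ h1)

theorem Lev.v_orth (h : Lev α N n ψ J) (hα : 0 < α) (hn : n ≤ N) {T : Ix → Prop} (hT : Low T)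
    {g : R} (hg : Free 0 g) (h1 : g ∈ H (n + 1)) (h2 : g ∈ U N fun m => T (shape m)) {m : Ix}
    (hm : sz m = n) (h3 : ¬ T (up m)) : B α g (BB (X 0 * ψ m)) = 0 := by
  rw [← P0_LL (α := α), B_free_P0 hg, ← adj_LL, B_symm, adj_w, B_symm]
  refine h.ob.dl hα hn (p := fun m => T (up m)) (fun m' a b => U_mono (fun m'' c => ?_)
    (h.sup m' a)) (H_Sh (H_LL h1)) (U_w.1 ?_) hm h3
  · exact hT _ _ (up_zero _) (up_zero _) c b
  · rw [← LL_free hg]
    exact U_LL hT h2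

theorem U_lt (hn : n ≤ N) {g : R} (hg : Free 0 g) (h1 : g ∈ H n) {l : Ix}
    (h2 : g ∈ U N fun m => Le (shape m) l) (h3 : co N l g = 0) :
    g ∈ U N fun m => Le (shape m) l ∧ shape m ≠ l := fun m hm => by
  by_contra h4
  have h5 : shape m = l := not_not.1 fun e => hm ⟨not_not.1 fun c => h4 (h2 m c), e⟩
  rw [co_shape ((co_hom h1 h4).le.trans hn) hg, h5] at h4
  exact h4 h3

theorem Lev.v_eq (h : Lev α N n ψ J) (hα : 0 < α) (hn : n < N) {m m' : Ix} (hm : sz m = n)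
    (hm' : sz m' = n) (e : up m = up m') : BB (X 0 * ψ m) = BB (X 0 * ψ m') := by
  have key : ∀ a a' : ℝ, co N (up m) (a • BB (X 0 * ψ m) - a' • BB (X 0 * ψ m')) = 0 →
      a • BB (X 0 * ψ m) - a' • BB (X 0 * ψ m') = 0 := by
    intro a a' h0
    set g := a • BB (X 0 * ψ m) - a' • BB (X 0 * ψ m') with hg
    have f1 : Free 0 g := by
      rw [hg, sub_eq_add_neg, ← neg_smul]
      exact ((free_BB _).smul _).add ((free_BB _).smul _)
    have f2 : g ∈ H (n + 1) :=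
      sub_mem (Submodule.smul_mem _ _ (h.v_hom hm)) (Submodule.smul_mem _ _ (h.v_hom hm'))
    have f3 := U_lt hn f1 f2 (sub_mem (Submodule.smul_mem _ _ (h.v_sup hm))
      (Submodule.smul_mem _ _ (e ▸ h.v_sup hm'))) h0
    refine eq_zero_of_B hα ?_
    conv_lhs => rw [hg, map_sub (B α _), map_smul, map_smul, ← hg]
    rw [h.v_orth hα hn.le (low_lt (up_zero m)) f1 f2 f3 hm fun c => c.2 rfl,
      h.v_orth hα hn.le (low_lt (up_zero m)) f1 f2 f3 hm' fun c => c.2 e.symm]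
    simp
  have h1 : co N (up m) (BB (X 0 * ψ m)) ≠ 0 := fun c => by
    have := congrArg (coeff (single 1 (n + 1))) (key 1 0 (by simpa using c))
    simp only [one_smul, zero_smul, sub_zero, h.v_nrm hm, coeff_zero] at this
    exact one_ne_zero this
  have h2 := key (co N (up m) (BB (X 0 * ψ m'))) (co N (up m) (BB (X 0 * ψ m))) (by
    simp only [map_sub, map_smul, smul_eq_mul]; ring)
  have h3 := congrArg (coeff (single 1 (n + 1))) h2
  simp only [coeff_sub, coeff_smul, h.v_nrm hm, h.v_nrm hm', smul_eq_mul, mul_one, coeff_zero,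
    sub_eq_zero] at h3
  rw [h3, ← smul_sub, smul_eq_zero, or_iff_right h1, sub_eq_zero] at h2
  exact h2

theorem Lev.v_orth' (h : Lev α N n ψ J) (hα : 0 < α) (hn : n ≤ N) {m m' : Ix} (hm : sz m = n)
    (hm' : sz m' = n) (e : up m ≠ up m') : B α (BB (X 0 * ψ m)) (BB (X 0 * ψ m')) = 0 := by
  by_cases h1 : Le (up m') (up m)
  · rw [B_symm]
    exact h.v_orth hα hn (low_le _) (free_BB _) (h.v_hom hm') (h.v_sup hm') hm
      fun c => e (c.antisymm h1 ((up_zero _).trans (up_zero _).symm))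
  · exact h.v_orth hα hn (low_le _) (free_BB _) (h.v_hom hm) (h.v_sup hm) hm' h1

theorem exists_up' {l : Ix} (h : l 0 = 0) (hl : sz l = n + 1) : ∃ m, sz m = n ∧ up m = l := by
  obtain ⟨c, hc⟩ := exists_part h (by omega)
  obtain ⟨m, h1, -⟩ := exists_up h hc
  exact ⟨m, by have := sz_up m; rw [h1] at this; omega, h1⟩

/-- The orthogonal basis of degree `n + 1` built from degree `n`. -/
noncomputable def bas (ψ J' : Ix → R) (M : Ix) : R :=
  if M 0 = 0 then J' M else X 0 * ψ (M - single 0 1)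

theorem bas_succ (ψ J' : Ix → R) (m : Ix) : bas ψ J' (m + single 0 1) = X 0 * ψ m := by
  rw [bas, if_neg (by simp), add_tsub_cancel_right]

theorem bas_cases {J' : Ix → R} (hJ : ∀ m, sz m = n → J' (up m) = BB (X 0 * ψ m)) {M : Ix}
    (hM : sz M = n + 1) : ∃ m, sz m = n ∧ up m = shape M ∧
      (M = up m ∧ bas ψ J' M = BB (X 0 * ψ m) ∨
        M = m + single 0 1 ∧ bas ψ J' M = X 0 * ψ m) := by
  by_cases h0 : M 0 = 0
  · obtain ⟨m, h1, rfl⟩ := exists_up' h0 hM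
    exact ⟨m, h1, (shape_of_zero h0).symm, Or.inl ⟨rfl, by rw [bas, if_pos h0, hJ m h1]⟩⟩
  · rw [← pred_succ h0] at hM ⊢
    exact ⟨_, Nat.succ_injective ((sz_succ _).symm.trans hM), (shape_succ _).symm,
      Or.inr ⟨rfl, bas_succ _ _ _⟩⟩

theorem Lev.bas_ob (h : Lev α N n ψ J) (hα : 0 < α) (hn : n ≤ N) {J' : Ix → R}
    (hJ : ∀ m, sz m = n → J' (up m) = BB (X 0 * ψ m)) : OB α (n + 1) (bas ψ J') := by
  refine ⟨fun M hM => ?_, fun M hM => ?_, fun M M' hM hM' e => ?_⟩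
  · obtain ⟨m, a, -, ⟨-, b⟩ | ⟨-, b⟩⟩ := bas_cases hJ hM <;> rw [b]
    exacts [h.v_hom a, H_w (h.ob.hom m a)]
  · obtain ⟨m, a, -, ⟨-, b⟩ | ⟨-, b⟩⟩ := bas_cases hJ hM <;> rw [b]
    · intro c
      simpa [c] using h.v_nrm a
    · exact mul_ne_zero (X_ne_zero _) (h.ob.ne m a)
  · obtain ⟨m, a, -, ⟨c, b⟩ | ⟨c, b⟩⟩ := bas_cases hJ hM <;>
      obtain ⟨m', a', -, ⟨c', b'⟩ | ⟨c', b'⟩⟩ := bas_cases hJ hM' <;> rw [b, b']
    · exact h.v_orth' hα hn a a' (c ▸ c' ▸ e)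
    · exact B_free_w (free_BB _) _
    · exact B_w_free _ (free_BB _)
    · rw [B_w_w]
      exact h.ob.orth _ _ a a' fun d => e (by rw [c, c', d])

theorem Lev.bas_sup (h : Lev α N n ψ J) {J' : Ix → R}
    (hJ : ∀ m, sz m = n → J' (up m) = BB (X 0 * ψ m)) {M : Ix} (hM : sz M = n + 1) :
    bas ψ J' M ∈ U N fun m => Le (shape m) (shape M) := by
  obtain ⟨m, a, d, ⟨-, b⟩ | ⟨-, b⟩⟩ := bas_cases hJ hM <;> rw [b, ← d]
  exacts [h.v_sup a, (U_w (T := fun k => Le k (up m))).2 (h.sup m a)]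

/-- The block of a partition. -/
def Zb (α : ℝ) (n : ℕ) (b : Ix → R) (l : Ix) : Submodule ℝ R where
  carrier := {f | f ∈ H n ∧ ∀ M, sz M = n → shape M ≠ l → B α f (b M) = 0}
  zero_mem' := ⟨zero_mem _, fun _ _ _ => by simp⟩
  add_mem' hf hg := ⟨add_mem hf.1 hg.1, fun M a c => by simp [hf.2 M a c, hg.2 M a c]⟩
  smul_mem' c f hf := ⟨Submodule.smul_mem _ _ hf.1, fun M a c => by simp [hf.2 M a c]⟩

theorem OB.mem_Zb {b : Ix → R} (h : OB α n b) {M : Ix} (hM : sz M = n) :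
    b M ∈ Zb α n b (shape M) :=
  ⟨h.hom M hM, fun M' a c => h.orth _ _ hM a fun e => c (e ▸ rfl)⟩

theorem OB.Zb_ind (hα : 0 < α) {b : Ix → R} (h : OB α n b) {l : Ix} {V : Submodule ℝ R}
    (hV : ∀ M, sz M = n → shape M = l → b M ∈ V) {f : R} (hf : f ∈ Zb α n b l) : f ∈ V := by
  rw [h.expand hα hf.1]
  refine V.sum_mem fun M hM => ?_
  by_cases e : shape M = l
  · exact V.smul_mem _ (hV M (mem_Idx.1 hM) e)
  · rw [hf.2 M (mem_Idx.1 hM) e, zero_div, zero_smul]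
    exact V.zero_mem

theorem OB.Zb_orth (hα : 0 < α) {b : Ix → R} (h : OB α n b) {l l' : Ix} (e : l ≠ l') {f g : R}
    (hf : f ∈ Zb α n b l) (hg : g ∈ Zb α n b l') : B α f g = 0 :=
  h.Zb_ind hα (V := LinearMap.ker (B α f)) (fun M a c => hf.2 M a (c ▸ e.symm)) hg

theorem Lev.LL_Zb (h : Lev α N n ψ J) (hα : 0 < α) (hn : n ≤ N) {J' : Ix → R}
    (hJ : ∀ m, sz m = n → J' (up m) = BB (X 0 * ψ m)) {l : Ix} {f : R}
    (hf : f ∈ Zb α (n + 1) (bas ψ J') l) : LL α f ∈ Zb α (n + 1) (bas ψ J') l := by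
  have hb := h.bas_ob hα hn hJ
  have e1 : ∀ m, sz m = n → bas ψ J' (up m) = BB (X 0 * ψ m) := fun m a => by
    rw [bas, if_pos (up_zero m), hJ m a]
  have k1 : ∀ m, sz m = n → LL α (X 0 * ψ m) ∈ Zb α (n + 1) (bas ψ J') (up m) := fun m a => by
    rw [h.LL_w a]
    refine add_mem ?_ (Submodule.smul_mem _ _ ?_)
    · have := hb.mem_Zb ((sz_up m).trans (congrArg (· + 1) a))
      rwa [e1 m a, shape_of_zero (up_zero m)] at this
    · have := hb.mem_Zb ((sz_succ m).trans (congrArg (· + 1) a))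
      rwa [bas_succ, shape_succ] at this
  refine hb.Zb_ind hα (V := (Zb α (n + 1) (bas ψ J') l).comap (LL α)) (fun M a c => ?_) hf
  obtain ⟨m, a1, d, ⟨-, b⟩ | ⟨-, b⟩⟩ := bas_cases hJ a
  · refine ⟨H_LL (hb.hom M a), fun M' a' c' => ?_⟩
    obtain ⟨m', a2, d', ⟨-, b'⟩ | ⟨-, b'⟩⟩ := bas_cases hJ a'
    · rw [b, b', LL_free (free_BB _), B_w_free _ (free_BB _)]
    · rw [adj_LL, b']
      exact hb.Zb_orth hα (by rw [c, d']; exact c'.symm) (hb.mem_Zb a) (k1 m' a2)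
  · rw [Submodule.mem_comap, b, ← c, ← d]
    exact k1 m a1

theorem exists_eig {b : Ix → R} (hα : 0 < α) (hn : n ≤ N) (hb : OB α n b)
    (hs : ∀ M, sz M = n → b M ∈ U N fun m => Le (shape m) (shape M))
    (hL : ∀ l, ∀ f ∈ Zb α n b l, LL α f ∈ Zb α n b l) {M : Ix} (hM : sz M = n) :
    ∃ f ∈ Zb α n b (shape M), f ≠ 0 ∧ LL α f = dd α M • f ∧
      f ∈ U N fun m => Le (up m) (up M) := by
  classical
  have z1 : ∀ f ∈ Zb α n b (shape M), f ∈ U N fun m => Le (shape m) (shape M) := fun f hf =>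
    hb.Zb_ind hα (fun M' a c => c ▸ hs M' a) hf
  have z2 : ∀ f ∈ Zb α n b (shape M), (∀ m, sz m = n → shape m = shape M → co N m f = 0) →
      f = 0 := fun f hf h0 => by
    rw [hb.expand hα hf.1]
    refine Finset.sum_eq_zero fun M' hM' => ?_
    rw [show B α f (b M') = 0 from ?_, zero_div, zero_smul]
    by_cases e : shape M' = shape M
    · refine hb.dl hα hn (p := fun m => Le (shape m) (shape M) ∧ shape m ≠ shape M)
        (fun m a c => U_mono (fun m' d => low_lt (shape_zero M) _ _ (shape_zero _) (shape_zero _)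
          d c) (hs m a)) hf.1 (fun m hm => ?_) (mem_Idx.1 hM') fun c => c.2 e
      by_contra h1
      exact hm ⟨not_not.1 fun c => h1 (z1 f hf m c), fun c => h1 (h0 m (co_hom hf.1 h1) c)⟩
    · exact hf.2 M' (mem_Idx.1 hM') e
  have hS : ∀ s ∈ (Idx n).filter fun m => shape m = shape M, sz s = n ∧ shape s = shape M :=
    fun s hs => by simpa [mem_Idx] using hs
  obtain ⟨f0, a0, b0⟩ := (core (S := (Idx n).filter fun m => shape m = shape M)
    (Zb α n b (shape M)) (fun s => co N s.1)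
    (fun f hf h0 => z2 f hf fun m a c => h0 ⟨m, Finset.mem_filter.2 ⟨mem_Idx.2 a, c⟩⟩)
    (fun s => b s) (fun s => by have := hb.mem_Zb (hS _ s.2).1; rwa [(hS _ s.2).2] at this)
    (hb.li hα _ fun s hs => (hS s hs).1)).2 fun s => if s.1 = M then 1 else 0
  set V := Zb α n b (shape M) ⊓ U N fun m => ¬ (shape m = shape M ∧ M 0 < m 0) with hV
  have t1 : ∀ f ∈ V, ∀ m, shape m = shape M → M 0 ≤ m 0 → co N m (LL α f) = dd α m * co N m f := by
    intro f hf m a c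
    by_contra h1
    obtain ⟨m', d1, d2, -, d3⟩ := co_LL h1
    have e : shape m' = shape M := Le.antisymm (not_not.1 fun c => d1 (z1 f hf.1 m' c)) (a ▸ d2)
      ((shape_zero _).trans (shape_zero _).symm)
    rw [pot_eq, pot_eq, a, e] at d3
    exact d1 (hf.2 m' (not_not.2 ⟨e, by omega⟩))
  have t2 : ∀ f ∈ V, (LL α - dd α M • LinearMap.id : R →ₗ[ℝ] R) f ∈ V := fun f hf =>
    sub_mem ⟨hL _ f hf.1, fun m hm => by
      rw [t1 f hf m (not_not.1 hm).1 (not_not.1 hm).2.le, hf.2 m hm, mul_zero]⟩ (V.smul_mem _ hf)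
  have := FiniteDimensional.span_of_finite ℝ ((Idx n).finite_toSet.image b)
  have : FiniteDimensional ℝ V := Submodule.finiteDimensional_of_le
    (S₂ := Submodule.span ℝ (b '' Idx n)) fun f hf => hb.Zb_ind hα
      (fun M a _ => Submodule.subset_span (Set.mem_image_of_mem _ (mem_Idx.2 a))) hf.1
  have t3 : ¬ Function.Injective ((LL α - dd α M • LinearMap.id : R →ₗ[ℝ] R).restrict t2) := by
    rw [LinearMap.injective_iff_surjective]
    intro h1
    obtain ⟨g, hg⟩ := h1 ⟨f0, a0, fun m hm => by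
      by_contra h2
      have := b0 ⟨m, Finset.mem_filter.2 ⟨mem_Idx.2 (co_hom a0.1 h2), (not_not.1 hm).1⟩⟩
      rw [if_neg fun e : m = M => (not_not.1 hm).2.ne (e ▸ rfl)] at this
      exact h2 this⟩
    have h2 : LL α g - dd α M • g.1 = f0 := congrArg Subtype.val hg
    have h3 := b0 ⟨M, Finset.mem_filter.2 ⟨mem_Idx.2 hM, rfl⟩⟩
    rw [if_pos rfl, ← h2, map_sub, t1 g g.2 M rfl le_rfl, map_smul, smul_eq_mul, sub_self] at h3
    exact zero_ne_one h3
  rw [injective_iff_map_eq_zero] at t3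
  push Not at t3
  obtain ⟨g, h1, h2⟩ := t3
  have h3 : LL α g = dd α M • g.1 := sub_eq_zero.1 (congrArg Subtype.val h1)
  refine ⟨g, g.2.1, fun e => h2 (Subtype.ext e), h3, fun m hm => ?_⟩
  by_contra h4
  obtain ⟨m₁, a1, a2⟩ := ((Idx n).filter fun m => co N m g ≠ 0 ∧ ¬ Le (up m) (up M)).exists_max_image
    pot ⟨m, Finset.mem_filter.2 ⟨mem_Idx.2 (co_hom g.2.1.1 h4), h4, hm⟩⟩
  obtain ⟨-, a3, a4⟩ := Finset.mem_filter.1 a1
  have a5 := dd_sep hα (not_not.1 fun c => a3 (z1 g g.2.1 m₁ c)) a4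
  obtain ⟨m₂, d1, -, d2, d3⟩ := co_LL (α := α) (N := N) (m := m₁) (f := g) (by
    rw [h3, map_smul, smul_eq_mul]
    exact fun e => a5.ne (mul_right_cancel₀ a3 e))
  exact (a2 m₂ (Finset.mem_filter.2 ⟨mem_Idx.2 (co_hom g.2.1.1 d1), d1,
    fun c => a4 (d2.trans c)⟩)).not_gt d3

theorem Lev.normalise (h : Lev α N n ψ J) (hα : 0 < α) (hn : n ≤ N) {J' : Ix → R}
    (hJ : ∀ m, sz m = n → J' (up m) = BB (X 0 * ψ m)) {l : Ix} (h0 : l 0 = 0) {f : R}
    (hf : f ∈ Zb α (n + 1) (bas ψ J') l) (h1 : f ≠ 0) {x : ℝ} (hx : LL α f = x • f) :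
    ∃ a : ℝ, a ≠ 0 ∧ P0 0 f = a • J' l := by
  have hb := h.bas_ob hα hn hJ
  obtain ⟨a, ha⟩ : ∃ a : ℝ, a • J' l = P0 0 f := by
    rw [← Submodule.mem_span_singleton]
    refine hb.Zb_ind hα (V := (Submodule.span ℝ {J' l}).comap (P0 0)) (fun M a c => ?_) hf
    obtain ⟨m, a1, d, ⟨-, b⟩ | ⟨-, b⟩⟩ := bas_cases hJ a
    · rw [Submodule.mem_comap, b, P0_free (free_BB _), ← hJ m a1, d, c]
      exact Submodule.mem_span_singleton_self _
    · rw [Submodule.mem_comap, b, P0_X_mul]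
      exact zero_mem _
  refine ⟨a, ?_, ha.symm⟩
  rintro rfl
  rw [zero_smul] at ha
  have k1 : ∀ g, Free 0 g → B α f g = 0 := fun g hg => by
    rw [B_symm, ← B_free_P0 hg, ← ha, map_zero]
  have k2 : ∀ M, sz M = n + 1 → B α f (bas ψ J' M) ≠ 0 → ∃ m, sz m = n ∧ M = m + single 0 1 ∧
      up m = l ∧ yv α l (m 0) + α = x := fun M a c => by
    obtain ⟨m, a1, d, ⟨-, b⟩ | ⟨e, b⟩⟩ := bas_cases hJ a
    · exact absurd (b ▸ k1 _ (free_BB _)) c
    · have e2 : up m = l := d.trans (not_not.1 fun c' => c (hf.2 M a c'))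
      refine ⟨m, a1, e, e2, ?_⟩
      have := adj_LL (α := α) f (X 0 * ψ m)
      rw [hx, h.LL_w a1, map_add, k1 _ (free_BB _), zero_add, map_smul, map_smul, dd_up, e2,
        LinearMap.smul_apply, ← b] at this
      exact (mul_right_cancel₀ c this).symm
  have h2 := hb.expand hα hf.1
  obtain ⟨M, a1, a2⟩ := Finset.exists_ne_zero_of_sum_ne_zero (h2 ▸ h1)
  have a3 : B α f (bas ψ J' M) ≠ 0 := fun c => a2 (by rw [c, zero_div, zero_smul])
  obtain ⟨m, b1, rfl, b2, b3⟩ := k2 M (mem_Idx.1 a1) a3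
  rw [Finset.sum_eq_single_of_mem _ a1 fun M' c d => by
    by_contra e
    obtain ⟨m', b1', rfl, b2', b3'⟩ := k2 M' (mem_Idx.1 c)
      fun c => e (by rw [c, zero_div, zero_smul])
    exact d (by rw [eq_of_up (b2'.trans b2.symm)
      ((yv_mono hα l).injective (add_right_cancel (b3'.trans b3.symm)))])] at h2
  have h3 := congrArg (fun g => coeff (single 1 (n + 1)) (P0 0 g)) hx
  simp only [map_smul, ← ha, smul_zero, coeff_zero, P0_LL] at h3
  rw [h2, map_smul, coeff_smul, bas_succ, h.v_nrm b1, smul_eq_mul, mul_one] at h3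
  exact a2 (by rw [bas_succ, h3, zero_smul])

theorem Lev.step (h : Lev α N n ψ J) (hα : 0 < α) (hn : n < N) :
    ∃ ψ' J', Lev α N (n + 1) ψ' J' ∧ Link α n ψ ψ' J' := by
  classical
  obtain ⟨J', hJ⟩ : ∃ J' : Ix → R, ∀ m, sz m = n → J' (up m) = BB (X 0 * ψ m) := by
    refine ⟨fun l => if e : ∃ m, sz m = n ∧ up m = l then BB (X 0 * ψ e.choose) else 0,
      fun m hm => ?_⟩
    have e : ∃ m', sz m' = n ∧ up m' = up m := ⟨m, hm, rfl⟩
    simp only [dif_pos e]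
    exact h.v_eq hα hn e.choose_spec.1 hm e.choose_spec.2
  have hb := h.bas_ob hα hn.le hJ
  have key : ∀ M, ∃ f, sz M = n + 1 → f ∈ Zb α (n + 1) (bas ψ J') (shape M) ∧ f ≠ 0 ∧
      LL α f = dd α M • f ∧ (f ∈ U N fun m => Le (up m) (up M)) ∧ P0 0 f = J' (shape M) := by
    intro M
    by_cases hM : sz M = n + 1
    · obtain ⟨f, a, b, c, d⟩ := exists_eig hα hn hb (fun M a => h.bas_sup hJ a)
        (fun l f hf => h.LL_Zb hα hn.le hJ hf) hM
      obtain ⟨r, e1, e2⟩ := h.normalise hα hn.le hJ (shape_zero M) a b c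
      exact ⟨r⁻¹ • f, fun _ => ⟨Submodule.smul_mem _ _ a, smul_ne_zero (inv_ne_zero e1) b,
        by rw [map_smul, c, smul_comm], Submodule.smul_mem _ _ d,
        by rw [map_smul, e2, inv_smul_smul₀ e1]⟩⟩
    · exact ⟨0, fun a => absurd a hM⟩
  choose ψ' hψ using key
  refine ⟨ψ', J', ⟨⟨fun M a => (hψ M a).1.1, fun M a => (hψ M a).2.1, fun M M' a a' e => ?_⟩,
    fun M a => (hψ M a).2.2.1, fun M a => (hψ M a).2.2.2.2, fun M a => (hψ M a).2.2.2.1,
    fun l a b => ?_, fun l l' a a' b b' e => ?_, fun l a b => ?_⟩, hJ, fun M m a b c => ?_⟩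
  · by_cases e' : shape M = shape M'
    · have h1 := adj_LL (α := α) (ψ' M) (ψ' M')
      rw [(hψ M a).2.2.1, (hψ M' a').2.2.1, map_smul, map_smul, LinearMap.smul_apply, dd_shape,
        dd_shape, e'] at h1
      by_contra h2
      exact e (eq_of_shape e' ((yv_mono hα _).injective (mul_right_cancel₀ h2 h1)))
    · exact hb.Zb_orth hα e' (hψ M a).1 (hψ M' a').1
  · obtain ⟨m, c, rfl⟩ := exists_up' b a
    rw [hJ m c, h.v_nrm c]
  · have := hb.orth l l' a a' e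
    rwa [bas, bas, if_pos b, if_pos b'] at this
  · have := h.bas_sup hJ a
    rwa [bas, if_pos b, shape_of_zero b] at this
  · rw [← bas_succ ψ J']
    exact (hψ M a).1.2 _ (by rw [sz_succ, b]) (by rw [shape_succ]; exact c.symm)

theorem lev_zero (α : ℝ) (N : ℕ) : Lev α N 0 (fun _ => 1) fun _ => 1 := by
  have h1 : (1 : R) ∈ H 0 := isWeightedHomogeneous_one _ _
  refine ⟨⟨fun _ _ => h1, fun _ _ => one_ne_zero, fun m m' a b c => ?_⟩, fun m a => ?_,
    fun _ _ => P0_free (Free.one _), fun m a m' b => ?_, fun _ _ _ => by simp,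
    fun m m' a b _ _ c => ?_, fun m a _ m' b => ?_⟩
  · exact absurd ((sz_eq_zero a).trans (sz_eq_zero b).symm) c
  · rw [sz_eq_zero a, LL, Lx_free α (e := id) (Free.one _)]
    simp [dd, yv, G]
  · by_contra c
    exact b (by rw [sz_eq_zero a, sz_eq_zero (co_hom h1 c)]; exact Le.refl _)
  · exact absurd ((sz_eq_zero a).trans (sz_eq_zero b).symm) c
  · by_contra c
    exact b (by
      beta_reduce
      rw [sz_eq_zero a, sz_eq_zero (co_hom h1 c), shape_of_zero rfl]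
      exact Le.refl _)

/-- The eigenbases in all degrees up to `N`. -/
structure Sys (α : ℝ) (N : ℕ) (ψ J : ℕ → Ix → R) : Prop where
  zero : ψ 0 = fun _ => 1
  lev : ∀ n ≤ N, Lev α N n (ψ n) (J n)
  link : ∀ n < N, Link α n (ψ n) (ψ (n + 1)) (J (n + 1))

theorem exists_sys (hα : 0 < α) (N : ℕ) : ∃ ψ J, Sys α N ψ J := by
  have key : ∀ (n : ℕ) (p : (Ix → R) × (Ix → R)), ∃ q : (Ix → R) × (Ix → R),
      n < N → Lev α N n p.1 p.2 → Lev α N (n + 1) q.1 q.2 ∧ Link α n p.1 q.1 q.2 := fun n p => by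
    by_cases h : n < N ∧ Lev α N n p.1 p.2
    · obtain ⟨ψ', J', a⟩ := h.2.step hα h.1
      exact ⟨(ψ', J'), fun _ _ => a⟩
    · exact ⟨p, fun a b => absurd ⟨a, b⟩ h⟩
  choose f hf using key
  let s : ℕ → (Ix → R) × (Ix → R) := fun n => Nat.rec (fun _ => 1, fun _ => 1) f n
  have h1 : ∀ n ≤ N, Lev α N n (s n).1 (s n).2 := fun n => by
    induction n with
    | zero => exact fun _ => lev_zero α N
    | succ n ih => exact fun a => (hf n (s n) a (ih (by omega))).1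
  exact ⟨fun n => (s n).1, fun n => (s n).2, rfl, h1, fun n a => (hf n (s n) a (h1 n a.le)).2⟩

end Pool.Agent.Lib.MP_fcdd89_co
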