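import Pool.Agent.Lib.MP_fcdd89_co.Log

/-!
The kernel with a marked point in each of the three alphabets.
-/

set_option autoImplicit false

open Finset MvPolynomial
open Finsupp (single weight mapDomain)

namespace Pool.Agent.Lib.MP_fcdd89_co

variable {n N : ℕ} {α : ℝ} {ψ J ψ' J' : Ix → R} {x y z : Fin 3}

variable (x y z α) in
/-- The kernel with three marked points. -/
noncomputable def T3 (n : ℕ) (ψ : Ix → R) : Tri := ∑ m ∈ Idx n, (B α (ψ m) (ψ m))⁻¹ •
  (rename (Prod.mk x) (ψ m) * rename (Prod.mk y) (ψ m) * rename (Prod.mk z) (ψ m))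

theorem T3_swap : T3 α y x z n ψ = T3 α x y z n ψ := by
  simp only [T3, mul_comm (rename (Prod.mk y) _) (rename (Prod.mk x) _)]

theorem phi_swap : phi α y x z n J = phi α x y z n J := by
  simp only [phi, mul_comm (rename (Prod.mk y) _) (rename (Prod.mk x) _)]

theorem Lev.phi_free (h : Lev α N n ψ J) (a : Fin 3) : Free (a, 0) (phi α x y z n J) :=
  Free.sum _ fun l hl => by
    have := h.J_free (mem_Idx.1 (mem_filter.1 hl).1) (mem_filter.1 hl).2
    exact (((free_em0 _ _ this).mul (free_em0 _ _ this)).mul (free_em0 _ _ this)).smul _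

theorem Lev.Lx_T3 (h : Lev α N n ψ J) (hxy : y ≠ x) (hxz : z ≠ x) :
    Lx α (Prod.mk x) (T3 α x y z n ψ) = ∑ m ∈ Idx n, (dd α m * (B α (ψ m) (ψ m))⁻¹) •
      (rename (Prod.mk x) (ψ m) * rename (Prod.mk y) (ψ m) * rename (Prod.mk z) (ψ m)) := by
  rw [T3, map_sum]
  refine sum_congr rfl fun m hm => ?_
  rw [map_smul, mul_assoc, Lx_emb (mk_inj x) _ fun k => (free_em hxy k _).mul (free_em hxz k _),
    h.eig m (mem_Idx.1 hm), map_smul, smul_mul_assoc, smul_smul, mul_comm (dd α m)]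

theorem Lev.Lx_eq (h : Lev α N n ψ J) (hxy : y ≠ x) (hxz : z ≠ x) (hyz : z ≠ y) :
    Lx α (Prod.mk x) (T3 α x y z n ψ) = Lx α (Prod.mk y) (T3 α x y z n ψ) := by
  rw [h.Lx_T3 hxy hxz, ← T3_swap, h.Lx_T3 hxy.symm hyz]
  simp only [mul_comm (rename (Prod.mk y) _) (rename (Prod.mk x) _)]

theorem Link.LL_J (k : Link α n ψ ψ' J') (hα : 0 < α) (h : Lev α N n ψ J)
    (h' : Lev α N (n + 1) ψ' J') {l : Ix} (hl : sz l = n + 1) (h0 : l 0 = 0) :
    LL α (J' l) = ∑ m ∈ Idx n,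
      (if up m = l then B α (J' l) (J' l) / B α (ψ m) (ψ m) else 0) • (X 0 * ψ m) := by
  rw [LL_free (h'.J_free hl h0), h.ob.expand hα (H_Sh (H_LL (α := α) (h'.J_hom hl h0))), mul_sum]
  refine sum_congr rfl fun m hm => ?_
  have a := mem_Idx.1 hm
  rw [mul_smul_comm, B_symm, ← adj_w, ← adj_LL, h.LL_w a, map_add, map_smul,
    LinearMap.add_apply, LinearMap.smul_apply, B_w_free _ (h'.J_free hl h0), smul_zero, add_zero,
    ← k.up_eq m a]
  split_ifs with e
  · rw [e]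
  · rw [h'.Jorth _ _ (by rw [sz_up, a]) hl (up_zero m) h0 e, zero_div]

/-- Closing the marked cycle after extending it by one. -/
noncomputable def Cl (a : Fin 3) : Tri →ₗ[ℝ] Tri :=
  Bt (Prod.mk a) ∘ₗ LinearMap.mulLeft ℝ (X (a, 0))

theorem Cl_apply (a : Fin 3) (f : Tri) : Cl a f = Bt (Prod.mk a) (X (a, 0) * f) := rfl

theorem Cl_mul_free (a : Fin 3) (f : Tri) {g : Tri} (hg : Free (a, 0) g) :
    Cl a (f * g) = Cl a f * g := by
  rw [Cl_apply, Cl_apply, ← mul_assoc, Bt_mul_free _ hg]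

theorem Cl_emb (a : Fin 3) (f : R) {g : Tri} (hg : Free (a, 0) g) :
    Cl a (rename (Prod.mk a) f * g) = rename (Prod.mk a) (BB (X 0 * f)) * g := by
  rw [Cl_apply, ← mul_assoc, ← rename_X (Prod.mk a), ← map_mul, Bt_emb (mk_inj a) _ hg]

theorem Link.Lx_phi (k : Link α n ψ ψ' J') (hα : 0 < α) (h : Lev α N n ψ J)
    (h' : Lev α N (n + 1) ψ' J') (hxy : y ≠ x) (hxz : z ≠ x) (hyz : z ≠ y) :
    Lx α (Prod.mk x) (phi α x y z (n + 1) J') = X (x, 0) * Cl y (Cl z (T3 α x y z n ψ)) := by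
  rw [phi, map_sum, sum_congr rfl (g := fun l => ∑ m ∈ Idx n,
      if up m = l then (B α (ψ m) (ψ m))⁻¹ • (X (x, 0) * (rename (Prod.mk x) (ψ m) *
        (rename (Prod.mk y) (J' l) * rename (Prod.mk z) (J' l)))) else 0) fun l hl => by
    have a := mem_Idx.1 (mem_filter.1 hl).1
    have b := (mem_filter.1 hl).2
    rw [map_smul, mul_assoc, Lx_emb (mk_inj x) _ fun k => (free_em hxy k _).mul (free_em hxz k _),
      k.LL_J hα h h' a b, map_sum, sum_mul, smul_sum]
    refine sum_congr rfl fun m _ => ?_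
    split_ifs
    · rw [map_smul, smul_mul_assoc, smul_smul, ← mul_div_assoc,
        inv_mul_cancel₀ (h'.J_pos hα a b).ne', one_div, map_mul, rename_X, mul_assoc]
    · simp, sum_comm, T3, map_sum, map_sum, mul_sum]
  refine sum_congr rfl fun m hm => ?_
  have a := mem_Idx.1 hm
  rw [sum_ite_eq, if_pos (mem_filter.2 ⟨mem_Idx.2 (by rw [sz_up, a]), up_zero m⟩), k.up_eq m a,
    map_smul, map_smul, mul_smul_comm, mul_comm _ (rename (Prod.mk z) (ψ m)),
    Cl_emb z _ ((free_em hxz.symm 0 _).mul (free_em hyz.symm 0 _)), ← mul_assoc (rename _ (BB _)),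
    mul_comm _ (rename (Prod.mk y) (ψ m)), Cl_emb y _ ((free_em hyz 0 _).mul (free_em hxy.symm 0 _))]
  congr 2
  ring

theorem Link.P0_T3 (k : Link α n ψ ψ' J') (hα : 0 < α) (h : Lev α N n ψ J)
    (h' : Lev α N (n + 1) ψ' J') (hxy : y ≠ x) (hxz : z ≠ x) :
    P0 (x, 0) (T3 α x y z (n + 1) ψ') =
      phi α x y z (n + 1) J' + X (y, 0) * (X (z, 0) * Cl x (T3 α x y z n ψ)) := by
  have := h'.ob.kernel hα (h'.fam.bas_ob h) (rename (Prod.mk y)).toLinearMap
    (rename (Prod.mk z)).toLinearMap (g := fun M => rename (Prod.mk x) (J' (shape M)))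
    (g' := fun M => rename (Prod.mk x) (J' (shape M))) fun M M' a a' b => by
      obtain ⟨c, d⟩ | ⟨m, c, d, f⟩ := bas_cases' ψ J' a'
      · rw [d, B_symm, h'.B_J a' c a] at b
        rw [shape_of_zero c, (ite_ne_right_iff.1 b).1]
      · rw [d, shape_succ, not_not.1 fun g => b (f ▸ k.blk M m a c g)]
  rw [sum_Idx_succ (n := n) fun M => (B α (bas ψ J' M) (bas ψ J' M))⁻¹ • _] at this
  refine Eq.trans ?_ (this.trans (congrArg₂ _ (sum_congr rfl fun l hl => ?_) ?_))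
  · rw [T3, map_sum]
    refine sum_congr rfl fun M hM => ?_
    rw [map_smul, mul_assoc, P0_emb (mk_inj x) _ ((free_em hxy 0 _).mul (free_em hxz 0 _)),
      h'.p0 M (mem_Idx.1 hM), mul_comm]
    rfl
  · rw [bas, if_pos (mem_filter.1 hl).2, shape_of_zero (mem_filter.1 hl).2, mul_comm,
      ← mul_assoc]
    rfl
  · rw [T3, map_sum, mul_sum, mul_sum]
    refine sum_congr rfl fun m hm => ?_
    have a := mem_Idx.1 hm
    rw [bas_succ, B_w_w, shape_succ, map_smul, mul_assoc (rename _ (ψ m)),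
      Cl_emb x _ ((free_em hxy 0 _).mul (free_em hxz 0 _)), k.up_eq m a]
    simp only [AlgHom.toLinearMap_apply, map_mul, rename_X, smul_eq_C_mul]
    ring

theorem Idx_zero : Idx 0 = {0} := by
  ext m
  rw [mem_Idx, mem_singleton]
  exact ⟨sz_eq_zero, fun a => by simp [a, sz]⟩

theorem B_one : B α 1 1 = 1 := (B_mono 0 1).trans (by simp [Z])

theorem Sys.T3_zero {ψ J : ℕ → Ix → R} (s : Sys α N ψ J) : T3 α x y z 0 (ψ 0) = 1 := by
  rw [T3, Idx_zero, sum_singleton, s.zero, B_one]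
  simp

theorem Sys.phi_zero {ψ J : ℕ → Ix → R} (s : Sys α N ψ J) : phi α x y z 0 (J 0) = 1 := by
  rw [phi, Idx_zero, filter_singleton, if_pos (by simp), sum_singleton,
    (s.lev 0 (Nat.zero_le N)).fam.zero, B_one]
  simp

end Pool.Agent.Lib.MP_fcdd89_co
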